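import Pool.Agent.Helper52.NA.Prefix

/-!
# Contraction of the automaton group
-/

namespace Pool.Agent.Helper52.NA

open scoped Pointwise

section Contr

variable (H : Type) {X : Type} [Group H] [MulAction H X] [DecidableEq X]
    (RA RC RD : Finset X)

/-- the rooted states -/
def setA (X : Type) [MulAction H X] [DecidableEq X] : Set (Equiv.Perm (List X)) :=
  Set.range (aT H X)

/-- products of a `c`-state and a `d`-state -/
def setB : Set (Equiv.Perm (List X)) :=
  Set.range (fun p : H × H => cT (H := H) RA p.1 * dT (H := H) RA RC RD p.2)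

/-- the set `AB` -/
def setM : Set (Equiv.Perm (List X)) := setA H X * setB H RA RC RD

/-- the set `A ∪ B` -/
def setN : Set (Equiv.Perm (List X)) := setA H X ∪ setB H RA RC RD

variable {H RA RC RD}

omit [DecidableEq X] in
theorem aT_cons' [DecidableEq X] (h : H) (x : X) (u : List X) :
    aT H X h (x :: u) = (h • x) :: u := rfl

theorem cT_cons (h : H) (x : X) (u : List X) :
    cT RA h (x :: u) = x :: (if x ∈ RA then aT H X h u else u) := rfl

theorem dT_cons (h : H) (x : X) (u : List X) :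
    dT RA RC RD h (x :: u) =
      x :: (if x ∈ RC then cT RA h u else if x ∈ RD then dT RA RC RD h u else u) := by
  change dL RA RC RD h (x :: u) = _
  rw [dL]
  rfl

theorem cT_nil (h : H) : cT RA h ([] : List X) = [] := rfl

theorem dT_nil (h : H) : dT RA RC RD h ([] : List X) = [] := rfl

theorem cd_comm (hAC : Disjoint RA RC) (hAD : Disjoint RA RD) (h h' : H) :
    cT RA h * dT RA RC RD h' = dT RA RC RD h' * cT (X := X) RA h := by
  ext1 v
  rcases v with _ | ⟨x, v⟩
  · rfl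
  · simp only [Equiv.Perm.mul_apply, cT_cons, dT_cons]
    by_cases hx : x ∈ RA
    · have h1 : x ∉ RC := Finset.disjoint_left.1 hAC hx
      have h2 : x ∉ RD := Finset.disjoint_left.1 hAD hx
      simp [hx, h1, h2]
    · simp [hx]

theorem one_mem_setA : (1 : Equiv.Perm (List X)) ∈ setA H X := ⟨1, map_one _⟩

theorem one_mem_setB : (1 : Equiv.Perm (List X)) ∈ setB H RA RC RD := ⟨(1, 1), by simp⟩

theorem one_mem_setM : (1 : Equiv.Perm (List X)) ∈ setM H RA RC RD :=
  ⟨1, one_mem_setA, 1, one_mem_setB, mul_one 1⟩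

theorem setA_mul {f g : Equiv.Perm (List X)} (hf : f ∈ setA H X) (hg : g ∈ setA H X) :
    f * g ∈ setA H X := by
  obtain ⟨h, rfl⟩ := hf
  obtain ⟨h', rfl⟩ := hg
  exact ⟨h * h', map_mul _ _ _⟩

theorem setB_mul (hAC : Disjoint RA RC) (hAD : Disjoint RA RD) {f g : Equiv.Perm (List X)}
    (hf : f ∈ setB H RA RC RD) (hg : g ∈ setB H RA RC RD) : f * g ∈ setB H RA RC RD := by
  obtain ⟨⟨h, k⟩, rfl⟩ := hf
  obtain ⟨⟨h', k'⟩, rfl⟩ := hg
  refine ⟨(h * h', k * k'), ?_⟩
  simp only [map_mul]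
  have := cd_comm (RC := RC) (RD := RD) hAC hAD h' k
  rw [mul_assoc, mul_assoc, ← mul_assoc (cT RA h'), this, mul_assoc]

theorem setA_inv {f : Equiv.Perm (List X)} (hf : f ∈ setA H X) : f⁻¹ ∈ setA H X := by
  obtain ⟨h, rfl⟩ := hf
  exact ⟨h⁻¹, map_inv _ _⟩

theorem setB_inv (hAC : Disjoint RA RC) (hAD : Disjoint RA RD) {f : Equiv.Perm (List X)}
    (hf : f ∈ setB H RA RC RD) : f⁻¹ ∈ setB H RA RC RD := by
  obtain ⟨⟨h, k⟩, rfl⟩ := hf
  refine ⟨(h⁻¹, k⁻¹), ?_⟩
  simp only [map_inv, mul_inv_rev]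
  rw [← mul_inv_rev, ← mul_inv_rev, cd_comm hAC hAD]

theorem setA_sub_setM : setA H X ⊆ setM H RA RC RD := fun f hf =>
  ⟨f, hf, 1, one_mem_setB, mul_one f⟩

theorem setB_sub_setM : setB H RA RC RD ⊆ setM H RA RC RD := fun f hf =>
  ⟨1, one_mem_setA, f, hf, one_mul f⟩

theorem setM_finite [Finite H] : (setM H RA RC RD).Finite :=
  (Set.finite_range _).mul (Set.finite_range _)

theorem setM_inv (hAC : Disjoint RA RC) (hAD : Disjoint RA RD) :
    (setM H RA RC RD)⁻¹ ⊆ (setM H RA RC RD) ^ 2 := by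
  intro f hf
  obtain ⟨a, ha, b, hb, hab⟩ := hf
  rw [pow_two]
  refine ⟨b⁻¹, setB_sub_setM (setB_inv hAC hAD hb), a⁻¹, setA_sub_setM (setA_inv ha), ?_⟩
  change b⁻¹ * a⁻¹ = f
  have hab' : a * b = f⁻¹ := hab
  rw [← mul_inv_rev, hab', inv_inv]

/-- every element of the group is a product of elements of `M` -/
theorem GT_sub_pow (hAC : Disjoint RA RC) (hAD : Disjoint RA RD) (g : GT H RA RC RD) :
    ∃ l : ℕ, (g : Equiv.Perm (List X)) ∈ (setM H RA RC RD) ^ l := by
  let K : Subgroup (Equiv.Perm (List X)) :=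
    { carrier := {f | ∃ l : ℕ, f ∈ (setM H RA RC RD) ^ l}
      mul_mem' := by
        rintro f f' ⟨l, hl⟩ ⟨l', hl'⟩
        exact ⟨l + l', by rw [pow_add]; exact ⟨f, hl, f', hl', rfl⟩⟩
      one_mem' := ⟨0, by simp⟩
      inv_mem' := by
        rintro f ⟨l, hl⟩
        refine ⟨2 * l, ?_⟩
        have h1 : f⁻¹ ∈ ((setM H RA RC RD) ^ l)⁻¹ := by simpa using hl
        rw [← inv_pow] at h1
        rw [pow_mul]
        exact Set.pow_subset_pow_left (setM_inv hAC hAD) h1 }
  have hK : GT H RA RC RD ≤ K := by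
    refine sup_le (sup_le ?_ ?_) ?_
    · rintro _ ⟨h, rfl⟩
      exact ⟨1, by rw [pow_one]; exact setA_sub_setM ⟨h, rfl⟩⟩
    · rintro _ ⟨h, rfl⟩
      exact ⟨1, by rw [pow_one]; exact setB_sub_setM ⟨(h, 1), by simp⟩⟩
    · rintro _ ⟨h, rfl⟩
      exact ⟨1, by rw [pow_one]; exact setB_sub_setM ⟨(1, h), by simp⟩⟩
  exact hK g.2

/-- the section of an element of `A` is trivial, of an element of `B` it is in `A ∪ B` -/
theorem sec_setM (hAC : Disjoint RA RC) (hAD : Disjoint RA RD) {m : Equiv.Perm (List X)}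
    (hm : m ∈ setM H RA RC RD) (x : X) :
    ∃ y : X, ∃ s ∈ setN H RA RC RD, ∀ u : List X, m (x :: u) = y :: s u := by
  obtain ⟨a, ⟨g, rfl⟩, b, ⟨⟨h, k⟩, rfl⟩, rfl⟩ := hm
  refine ⟨g • x, ?_⟩
  by_cases hx : x ∈ RA
  · have h1 : x ∉ RC := Finset.disjoint_left.1 hAC hx
    have h2 : x ∉ RD := Finset.disjoint_left.1 hAD hx
    refine ⟨aT H X h, Or.inl ⟨h, rfl⟩, fun u => ?_⟩
    change aT H X g (cT RA h (dT RA RC RD k (x :: u))) = _
    rw [dT_cons, if_neg h1, if_neg h2, cT_cons, if_pos hx, aT_cons']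
  · by_cases hx1 : x ∈ RC
    · refine ⟨cT RA k, Or.inr ⟨(k, 1), by simp⟩, fun u => ?_⟩
      change aT H X g (cT RA h (dT RA RC RD k (x :: u))) = _
      rw [dT_cons, if_pos hx1, cT_cons, if_neg hx, aT_cons']
    · by_cases hx2 : x ∈ RD
      · refine ⟨dT RA RC RD k, Or.inr ⟨(1, k), by simp⟩, fun u => ?_⟩
        change aT H X g (cT RA h (dT RA RC RD k (x :: u))) = _
        rw [dT_cons, if_neg hx1, if_pos hx2, cT_cons, if_neg hx, aT_cons']
      · refine ⟨1, Or.inl one_mem_setA, fun u => ?_⟩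
        change aT H X g (cT RA h (dT RA RC RD k (x :: u))) = _
        rw [dT_cons, if_neg hx1, if_neg hx2, cT_cons, if_neg hx, aT_cons']
        rfl

theorem sec_pow (hAC : Disjoint RA RC) (hAD : Disjoint RA RD) (l : ℕ) :
    ∀ (f : Equiv.Perm (List X)), f ∈ (setM H RA RC RD) ^ l → ∀ x : X,
      ∃ y : X, ∃ s ∈ (setN H RA RC RD) ^ l, ∀ u : List X, f (x :: u) = y :: s u := by
  induction l with
  | zero =>
    intro f hf x
    rw [pow_zero, Set.mem_one] at hf
    subst hf
    exact ⟨x, 1, by simp, fun u => rfl⟩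
  | succ l ih =>
    intro f hf x
    rw [pow_succ] at hf
    obtain ⟨f1, hf1, m, hm, rfl⟩ := hf
    obtain ⟨y, s, hs, h1⟩ := sec_setM hAC hAD hm x
    obtain ⟨y', s', hs', h2⟩ := ih f1 hf1 y
    refine ⟨y', s' * s, ?_, fun u => ?_⟩
    · rw [pow_succ]; exact ⟨s', hs', s, hs, rfl⟩
    · change f1 (m (x :: u)) = _
      rw [h1, h2]; rfl

theorem setMNN (hAC : Disjoint RA RC) (hAD : Disjoint RA RD) :
    setM H RA RC RD * (setN H RA RC RD) ^ 2 ⊆ (setM H RA RC RD) ^ 2 := by
  rw [pow_two, pow_two]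
  rintro _ ⟨_, ⟨a, ha, b, hb, rfl⟩, _, ⟨n, hn, n', hn', rfl⟩, rfl⟩
  change a * b * (n * n') ∈ _
  rcases hn with hn | hn
  · rcases hn' with hn' | hn'
    · exact ⟨a * b, ⟨a, ha, b, hb, rfl⟩, n * n', setA_sub_setM (setA_mul hn hn'), rfl⟩
    · exact ⟨a * b, ⟨a, ha, b, hb, rfl⟩, n * n', ⟨n, hn, n', hn', rfl⟩, rfl⟩
  · rcases hn' with hn' | hn'
    · refine ⟨a * (b * n), ⟨a, ha, b * n, setB_mul hAC hAD hb hn, rfl⟩, n',
        setA_sub_setM hn', ?_⟩
      change a * (b * n) * n' = _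
      group
    · refine ⟨a * (b * n * n'), ⟨a, ha, b * n * n',
        setB_mul hAC hAD (setB_mul hAC hAD hb hn) hn', rfl⟩, 1, one_mem_setM, ?_⟩
      change a * (b * n * n') * 1 = _
      group

theorem setN_pow (hAC : Disjoint RA RC) (hAD : Disjoint RA RD) (l : ℕ) :
    (setN H RA RC RD) ^ l ⊆ (setM H RA RC RD) ^ (l / 2 + 1) := by
  have hNM : setN H RA RC RD ⊆ setM H RA RC RD :=
    Set.union_subset setA_sub_setM setB_sub_setM
  induction l using Nat.strong_induction_on with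
  | _ l ih =>
    rcases l with _ | _ | l
    · intro f hf
      rw [pow_zero, Set.mem_one] at hf
      subst hf
      simpa using one_mem_setM
    · simpa using hNM
    · have h1 : (l + 1 + 1) / 2 + 1 = (l / 2) + 2 := by omega
      rw [h1, show l + 1 + 1 = l + 2 from rfl, pow_add, pow_add]
      calc setN H RA RC RD ^ l * setN H RA RC RD ^ 2
          ⊆ setM H RA RC RD ^ (l / 2 + 1) * setN H RA RC RD ^ 2 :=
            Set.mul_subset_mul_right (ih l (by omega))
        _ = setM H RA RC RD ^ (l / 2) * (setM H RA RC RD * setN H RA RC RD ^ 2) := by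
            rw [pow_succ, mul_assoc]
        _ ⊆ _ := Set.mul_subset_mul_left (setMNN hAC hAD)

theorem contr_main (hAC : Disjoint RA RC) (hAD : Disjoint RA RD) (n : ℕ) :
    ∀ (l : ℕ) (f : Equiv.Perm (List X)), l ≤ 2 ^ n + 1 → f ∈ (setM H RA RC RD) ^ l →
      ∀ v : List X, v.length = n → ∃ s ∈ (setM H RA RC RD) ^ 2,
        ∀ u : List X, f (v ++ u) = f v ++ s u := by
  induction n with
  | zero =>
    intro l f hl hf v hv
    have hv' : v = [] := List.length_eq_zero_iff.1 hv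
    subst hv'
    have hf2 : f ∈ (setM H RA RC RD) ^ 2 :=
      Set.pow_subset_pow_right one_mem_setM (by simpa using hl) hf
    refine ⟨f, hf2, fun u => ?_⟩
    have h0 : f [] = [] := by
      have h1 : f ∈ GT H RA RC RD := by
        have hM : setM H RA RC RD ⊆ (GT H RA RC RD : Set (Equiv.Perm (List X))) := by
          rintro _ ⟨_, ⟨g, rfl⟩, _, ⟨⟨h, k⟩, rfl⟩, rfl⟩
          refine (GT H RA RC RD).mul_mem ?_ ((GT H RA RC RD).mul_mem ?_ ?_)
          · exact (le_sup_left.trans le_sup_left : (aT H X).range ≤ GT H RA RC RD) ⟨g, rfl⟩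
          · exact (le_sup_right.trans le_sup_left : (cT (H := H) RA).range ≤ GT H RA RC RD) ⟨h, rfl⟩
          · exact (le_sup_right : (dT (H := H) RA RC RD).range ≤ GT H RA RC RD) ⟨k, rfl⟩
        have h3 := Set.pow_subset_pow_left (n := 2) hM hf2
        rw [pow_two] at h3
        obtain ⟨p, hp, p', hp', hpp⟩ := h3
        have hpp' : p * p' = f := hpp
        rw [← hpp']
        exact (GT H RA RC RD).mul_mem hp hp'
      have h2 := GT_length (⟨f, h1⟩ : GT H RA RC RD) []
      exact List.length_eq_zero_iff.1 (by simpa using h2)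
    rw [h0]
    rfl
  | succ n ih =>
    intro l f hl hf v hv
    rcases v with _ | ⟨x, v⟩
    · simp at hv
    · obtain ⟨y, s, hs, h1⟩ := sec_pow hAC hAD l f hf x
      have hs' := setN_pow hAC hAD l hs
      obtain ⟨t, ht, h2⟩ := ih (l / 2 + 1) s (by rw [pow_succ] at hl; omega) hs' v (by simpa using hv)
      refine ⟨t, ht, fun u => ?_⟩
      rw [List.cons_append, h1, h2, h1, List.cons_append]

end Contr

section

variable {H X : Type} [Group H] [Fintype H] [MulAction H X] [Fintype X] [DecidableEq X]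
    {RA RC RD : Finset X}

/-- contraction: deep sections of products of length `R` lie in a fixed finite set -/
theorem contraction (hAC : Disjoint RA RC) (hAD : Disjoint RA RD) (hCD : Disjoint RC RD) :
    ∃ Nuc : Finset (Equiv.Perm (List X)), ∀ g : Fin 2 → GT H RA RC RD, ∃ C : ℕ,
      ∀ n R : ℕ, C * R ≤ 2 ^ n → ∀ w : Fin R → Fin 2, ∀ v : List X, v.length = n →
        ∃ s ∈ Nuc, ∀ u : List X,
          ((List.ofFn fun i => g (w i)).prod : Equiv.Perm (List X)) (v ++ u) =
            ((List.ofFn fun i => g (w i)).prod : Equiv.Perm (List X)) v ++ s u := by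
  have hfin : ((setM H RA RC RD) ^ 2).Finite := by
    rw [pow_two]; exact setM_finite.mul setM_finite
  refine ⟨hfin.toFinset, fun g => ?_⟩
  obtain ⟨l0, hl0⟩ := GT_sub_pow hAC hAD (g 0)
  obtain ⟨l1, hl1⟩ := GT_sub_pow hAC hAD (g 1)
  have hg : ∀ i, ((g i : GT H RA RC RD) : Equiv.Perm (List X)) ∈
      (setM H RA RC RD) ^ (max l0 l1) := by
    intro i
    fin_cases i
    · exact Set.pow_subset_pow_right one_mem_setM (le_max_left _ _) hl0
    · exact Set.pow_subset_pow_right one_mem_setM (le_max_right _ _) hl1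
  refine ⟨max l0 l1, fun n R hR w v hv => ?_⟩
  have hprod : ∀ R : ℕ, ∀ w : Fin R → Fin 2,
      (((List.ofFn fun i => g (w i)).prod : GT H RA RC RD) : Equiv.Perm (List X)) ∈
        (setM H RA RC RD) ^ (max l0 l1 * R) := by
    intro R
    induction R with
    | zero => intro w; simp
    | succ R ih =>
      intro w
      rw [List.ofFn_succ, List.prod_cons, Nat.mul_succ, add_comm, pow_add]
      exact ⟨_, hg (w 0), _, ih (fun i => w i.succ), rfl⟩
  obtain ⟨s, hs, h⟩ := contr_main hAC hAD n _ _ (hR.trans (Nat.le_succ _)) (hprod R w) v hv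
  exact ⟨s, hfin.mem_toFinset.2 hs, h⟩

end

end Pool.Agent.Helper52.NA
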