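import Pool.Agent.Helper52.NA.Tree

/-!
# On deep levels all words of a given length are decided
-/

namespace Pool.Agent.Helper52.NA

open Finset

/-! ### Words and homomorphisms -/

theorem map_wd {Om G G' : Type*} [Monoid G] [Monoid G'] (f : G →* G') (E : Om → G) (n : ℕ)
    (w : Fin n → Om) : f (wd E n w) = wd (fun o => f (E o)) n w := by
  unfold wd
  rw [map_list_prod, List.map_ofFn]
  rfl

theorem q_congr {Om G G' : Type*} [Fintype Om] [Monoid G] [Monoid G'] (E : Om → G) (E' : Om → G')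
    (n : ℕ) (h : ∀ w : Fin n → Om, wd E n w = 1 ↔ wd E' n w = 1) : q E n = q E' n := by
  unfold q
  congr 2
  exact Nat.card_congr (Equiv.subtypeEquivRight h)

theorem map_quad {H G G' : Type*} [Group H] [Group G] [Group G'] (f : G →* G') (a c d : H →* G)
    (t : H × H × H × H) : f (quad a c d t) = quad (f.comp a) (f.comp c) (f.comp d) t := by
  simp [quad]

section

variable {H X : Type} [Group H] [MulAction H X] [DecidableEq X]

theorem aT_mem (RA RC RD : Finset X) (h : H) : aT H X h ∈ GT H RA RC RD :=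
  Subgroup.mem_sup_left (Subgroup.mem_sup_left ⟨h, rfl⟩)

theorem cT_mem (RA RC RD : Finset X) (h : H) : cT RA h ∈ GT H RA RC RD :=
  Subgroup.mem_sup_left (Subgroup.mem_sup_right ⟨h, rfl⟩)

theorem dT_mem (RA RC RD : Finset X) (h : H) : dT RA RC RD h ∈ GT H RA RC RD :=
  Subgroup.mem_sup_right ⟨h, rfl⟩

/-- `a h` in the group generated by the automaton -/
def aG (H : Type) [Group H] [MulAction H X] (RA RC RD : Finset X) : H →* GT H RA RC RD :=
  (aT H X).codRestrict _ (aT_mem RA RC RD)

/-- `c h` in the group generated by the automaton -/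
def cG (H : Type) [Group H] [MulAction H X] (RA RC RD : Finset X) : H →* GT H RA RC RD :=
  (cT (H := H) RA).codRestrict _ (cT_mem RA RC RD)

/-- `d h` in the group generated by the automaton -/
def dG (H : Type) [Group H] [MulAction H X] (RA RC RD : Finset X) : H →* GT H RA RC RD :=
  (dT (H := H) RA RC RD).codRestrict _ (dT_mem RA RC RD)

theorem coe_wd_G (RA RC RD : Finset X) (n : ℕ) (w : Fin n → H × H × H × H) :
    ((wd (quad (aG H RA RC RD) (cG H RA RC RD) (dG H RA RC RD)) n w : GT H RA RC RD) :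
      Equiv.Perm (List X)) = wd (quad (aT H X) (cT (H := H) RA) (dT (H := H) RA RC RD)) n w := by
  have h := map_wd (GT H RA RC RD).subtype (quad (aG H RA RC RD) (cG H RA RC RD) (dG H RA RC RD))
    n w
  simp only [map_quad] at h
  exact h

theorem wd_G_eq_one_iff (RA RC RD : Finset X) (n : ℕ) (w : Fin n → H × H × H × H) :
    wd (quad (aG H RA RC RD) (cG H RA RC RD) (dG H RA RC RD)) n w = 1 ↔
      wd (quad (aT H X) (cT (H := H) RA) (dT (H := H) RA RC RD)) n w = 1 := by
  rw [← coe_wd_G]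
  exact OneMemClass.coe_eq_one.symm

end

section

variable {H X : Type} [Group H] [Fintype H] [MulAction H X] [Fintype X] [DecidableEq X]
    {RA RC RD : Finset X}

/-- the restrictions to the levels, bundled -/
theorem exists_rest' (hC : Disjoint RA RC) (hD : Disjoint RA RD) :
    ∃ ρ : ∀ m, GT H RA RC RD →* Equiv.Perm (lvl (H := H) RA RC RD hC hD m).Y,
      (∀ m n (w : Fin n → H × H × H × H),
        ρ m (wd (quad (aG H RA RC RD) (cG H RA RC RD) (dG H RA RC RD)) n w) =
          wd (quad (lvl (H := H) RA RC RD hC hD m).a (lvl (H := H) RA RC RD hC hD m).c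
            (lvl (H := H) RA RC RD hC hD m).d) n w) ∧
      (∀ g : GT H RA RC RD, g ≠ 1 → ∃ m₀, ∀ m, m₀ ≤ m → ρ m g ≠ 1) := by
  obtain ⟨ρ, ha, hc, hd, hne⟩ := exists_rest (H := H) hC hD
  refine ⟨ρ, fun m n w => ?_, hne⟩
  rw [map_wd]
  have e : (fun o => ρ m (quad (aG H RA RC RD) (cG H RA RC RD) (dG H RA RC RD) o)) =
      quad (lvl (H := H) RA RC RD hC hD m).a (lvl (H := H) RA RC RD hC hD m).c
            (lvl (H := H) RA RC RD hC hD m).d := by
    funext o
    simp only [quad, map_mul]
    have h1 : ∀ h, ρ m (aG H RA RC RD h) = (lvl (H := H) RA RC RD hC hD m).a h :=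
      fun h => ha m h (aT_mem RA RC RD h)
    have h2 : ∀ h, ρ m (cG H RA RC RD h) = (lvl (H := H) RA RC RD hC hD m).c h :=
      fun h => hc m h (cT_mem RA RC RD h)
    have h3 : ∀ h, ρ m (dG H RA RC RD h) = (lvl (H := H) RA RC RD hC hD m).d h :=
      fun h => hd m h (dT_mem RA RC RD h)
    rw [h1, h1, h2, h3]
  rw [e]

/-- on a sufficiently deep level all words of length `n` are decided -/
theorem level_limit (hC : Disjoint RA RC) (hD : Disjoint RA RD) (n : ℕ) :
    ∃ m₀, ∀ m, m₀ ≤ m →
      q (quad (lvl (H := H) RA RC RD hC hD m).a (lvl (H := H) RA RC RD hC hD m).c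
        (lvl (H := H) RA RC RD hC hD m).d) n =
      q (quad (aT H X) (cT (H := H) RA) (dT (H := H) RA RC RD)) n := by
  obtain ⟨ρ, hρ, hne⟩ := exists_rest' (H := H) hC hD
  have h : ∀ w : Fin n → H × H × H × H, ∃ m₀, ∀ m, m₀ ≤ m →
      (wd (quad (lvl (H := H) RA RC RD hC hD m).a (lvl (H := H) RA RC RD hC hD m).c
        (lvl (H := H) RA RC RD hC hD m).d) n w = 1 ↔
       wd (quad (aT H X) (cT (H := H) RA) (dT (H := H) RA RC RD)) n w = 1) := by
    intro w
    by_cases hw : wd (quad (aG H RA RC RD) (cG H RA RC RD) (dG H RA RC RD)) n w = 1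
    · refine ⟨0, fun m _ => ?_⟩
      rw [← hρ, ← wd_G_eq_one_iff, hw, map_one]
      exact Iff.rfl.trans (by simp)
    · obtain ⟨m₀, hm₀⟩ := hne _ hw
      refine ⟨m₀, fun m hm => ?_⟩
      rw [← hρ, ← wd_G_eq_one_iff]
      exact ⟨fun h => absurd h (hm₀ m hm), fun h => absurd h hw⟩
  choose M hM using h
  refine ⟨univ.sup M, fun m hm => ?_⟩
  apply q_congr
  intro w
  exact hM w m (le_trans (Finset.le_sup (mem_univ w)) hm)

end

end Pool.Agent.Helper52.NA
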