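import Pool.Agent.Helper52.NA.DecayAux
import Pool.Agent.Helper52.NA.Level

/-!
# Exponential decay of the return probabilities
-/

namespace Pool.Agent.Helper52.NA

open Finset

section
variable {H X : Type} [Group H] [Fintype H] [MulAction H X] [Fintype X] [DecidableEq X]
    {RA RC RD : Finset X} {r w : ℕ} {θ : ℝ}

/-- exponential decay of the return probabilities along powers of two -/
theorem decay (P : Par (H := H) RA RC RD r w θ) (hH : ∃ h : H, ∃ x : X, h • x ≠ x) :
    ∃ t : ℝ, 0 < t ∧ t < 1 ∧ ∀ j : ℕ,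
      q (quad (aT H X) (cT (H := H) RA) (dT (H := H) RA RC RD)) (2 ^ j) ≤ (1 - t) ^ 2 ^ j := by
  have hcard : 21 ≤ Fintype.card X := by
    have h1 := P.cardA
    have h2 := P.big
    have h3 := Finset.card_le_univ RA
    omega
  have hK : 0 < Fintype.card X := by omega
  have hK' : (21 : ℝ) ≤ Fintype.card X := by exact_mod_cast hcard
  refine ⟨2 / (21 * Fintype.card X), by positivity, ?_, fun j => ?_⟩
  · rw [div_lt_one (by positivity)]; nlinarith
  obtain ⟨m₀, hm₀⟩ := level_limit (H := H) (RD := RD) P.dAC P.dAD (2 ^ j)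
  set s := lvl (H := H) RA RC RD P.dAC P.dAD m₀ with hs
  have h1 := hm₀ m₀ le_rfl
  have h2 := hm₀ (m₀ + 1) (Nat.le_succ _)
  set x := q (quad (aT H X) (cT (H := H) RA) (dT (H := H) RA RC RD)) (2 ^ j) with hx
  have hx0 : 0 ≤ x := by
    rw [hx]; unfold q; positivity
  have hn : (2 ^ j : ℕ) ≠ 0 := by positivity
  set z := x ^ ((2 ^ j : ℕ) : ℝ)⁻¹ with hz
  have hz0 : 0 ≤ z := Real.rpow_nonneg hx0 _
  have hzn : z ^ 2 ^ j = x := Real.rpow_inv_natCast_pow hx0 hn
  have hx1 : x < 1 := by
    obtain ⟨h, y, hy⟩ := hH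
    refine q_lt_one _ _ (Nat.pos_of_ne_zero hn) (h, 1, 1, 1) (1, 1, 1, 1) ?_ ?_
    · intro hcon
      have h3 : quad (aT H X) (cT (H := H) RA) (dT (H := H) RA RC RD) (h, 1, 1, 1) = aT H X h := by
        simp [quad]
      rw [h3] at hcon
      have h4 := congrArg (fun g : Equiv.Perm (List X) => g [y]) hcon
      have h5 : (aT H X h) [y] = [h • y] := rfl
      simp only [h5, Equiv.Perm.one_apply, List.cons.injEq, and_true] at h4
      exact hy h4
    · simp [quad]
  have hz1 : z < 1 := by
    by_contra hcon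
    push Not at hcon
    have := one_le_pow₀ hcon (n := 2 ^ j)
    rw [hzn] at this
    linarith
  have := s.fin
  have := s.dec
  have h3 := one_step P s.a s.c s.d s.comm (r / (20 * Fintype.card X)) rfl j z hz0
    (by rw [hzn]; exact h1.symm)
  have h4 : q (quad (aS H X s.Y) (cS RA s.a) (dS RC RD s.c s.d)) (2 ^ j) = x := h2
  rw [h4, ← hzn] at h3
  have hb0 : (0 : ℝ) ≤ r / (20 * Fintype.card X) := by positivity
  have hb1 : (r : ℝ) / (20 * Fintype.card X) ≤ 1 := by
    have h5 : (r : ℝ) ≤ Fintype.card X := by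
      have := Finset.card_le_univ RA
      rw [P.cardA] at this
      exact_mod_cast this
    rw [div_le_one (by positivity)]
    nlinarith
  have h6 : 0 ≤ 1 - r / (20 * (Fintype.card X : ℝ)) +
      r / (20 * Fintype.card X) * z ^ Fintype.card X := by
    have : 0 ≤ (r : ℝ) / (20 * Fintype.card X) * z ^ Fintype.card X := by positivity
    linarith
  have h7 := le_of_pow_le_pow_left₀ hn h6 h3
  have h8 := gap (Fintype.card X) r hK P.big _ rfl z hz0 hz1 h7
  rw [← hzn]
  exact pow_le_pow_left₀ hz0 h8 _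

end

end Pool.Agent.Helper52.NA
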