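import Pool.Agent.Helper52.NA.OneStep

/-!
# Elementary inequalities for the decay of return probabilities
-/

namespace Pool.Agent.Helper52.NA

open Finset

theorem one_sub_pow_le (s : ℝ) (hs0 : 0 ≤ s) (hs1 : s ≤ 1) (n : ℕ) :
    (1 - s) ^ n ≤ 1 - n * s + (n : ℝ) ^ 2 * s ^ 2 / 2 := by
  induction n with
  | zero => simp
  | succ n ih =>
    rw [pow_succ']
    have h1 : 0 ≤ 1 - s := by linarith
    have h2 := mul_le_mul_of_nonneg_left ih h1
    push_cast
    have h3 : 0 ≤ (n : ℝ) ^ 2 * s ^ 3 := by positivity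
    nlinarith [sq_nonneg s]

/-- the only solutions of `z ≤ 1 - b + b z ^ K` in `[0, 1)` are bounded away from `1` -/
theorem gap (K r : ℕ) (hK : 0 < K) (hr : 21 ≤ r) (b : ℝ) (hb : b = r / (20 * K)) (z : ℝ)
    (hz0 : 0 ≤ z) (hz1 : z < 1) (hz : z ≤ 1 - b + b * z ^ K) : z ≤ 1 - 2 / (21 * K) := by
  have hK' : (0 : ℝ) < K := by exact_mod_cast hK
  have hr' : (21 : ℝ) ≤ r := by exact_mod_cast hr
  set s := 1 - z with hs
  have hs0 : 0 < s := by linarith
  have hs1 : s ≤ 1 := by linarith
  have h1 := one_sub_pow_le s hs0.le hs1 K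
  have hzs : 1 - s = z := by rw [hs]; ring
  rw [hzs] at h1
  have hb0 : 0 < b := by rw [hb]; positivity
  have h2 : b * (K * s - (K : ℝ) ^ 2 * s ^ 2 / 2) ≤ s := by
    have : b * z ^ K ≤ b * (1 - K * s + (K : ℝ) ^ 2 * s ^ 2 / 2) :=
      mul_le_mul_of_nonneg_left h1 hb0.le
    nlinarith
  have hbK : b * K = r / 20 := by
    rw [hb]; field_simp
  have h3 : s * (b * K * (1 - K * s / 2)) ≤ s * 1 := by
    calc s * (b * K * (1 - K * s / 2)) = b * (K * s - (K : ℝ) ^ 2 * s ^ 2 / 2) := by ring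
      _ ≤ s * 1 := by linarith
  have h4 : b * K * (1 - K * s / 2) ≤ 1 := le_of_mul_le_mul_left h3 hs0
  rw [hbK] at h4
  have h5 : 1 - K * s / 2 ≤ 20 / 21 := by
    by_contra hcon
    push Not at hcon
    have : (1 : ℝ) < r / 20 * (1 - K * s / 2) := by
      calc (1 : ℝ) = 21 / 20 * (20 / 21) := by norm_num
        _ < 21 / 20 * (1 - K * s / 2) := by
          apply mul_lt_mul_of_pos_left hcon (by norm_num)
        _ ≤ r / 20 * (1 - K * s / 2) := by
          apply mul_le_mul_of_nonneg_right _ (by linarith)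
          apply div_le_div_of_nonneg_right hr' (by norm_num)
    linarith
  have h6 : 2 / 21 ≤ K * s := by linarith
  have h7 : 2 / (21 * (K : ℝ)) ≤ s := by
    rw [div_le_iff₀ (by positivity)]
    nlinarith
  linarith

theorem q_lt_one {Om G : Type*} [Fintype Om] [Group G] (E : Om → G) (n : ℕ) (hn : 0 < n)
    (o o' : Om) (ho : E o ≠ 1) (ho' : E o' = 1) : q E n < 1 := by
  classical
  have hOm : 0 < Fintype.card Om := Fintype.card_pos_iff.2 ⟨o⟩
  unfold q
  rw [div_lt_one (by positivity)]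
  have h1 : Nat.card {w : Fin n → Om // wd E n w = 1} < Fintype.card (Fin n → Om) := by
    rw [Nat.card_eq_fintype_card]
    refine Fintype.card_subtype_lt (x := fun i => if i.val = 0 then o else o') ?_
    unfold wd
    obtain ⟨n, rfl⟩ := Nat.exists_eq_succ_of_ne_zero hn.ne'
    rw [List.ofFn_succ, List.prod_cons]
    have h2 : (List.ofFn fun i : Fin n => E (if (Fin.succ i).val = 0 then o else o')).prod = 1 := by
      apply List.prod_eq_one
      intro x hx
      rw [List.mem_ofFn] at hx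
      obtain ⟨i, rfl⟩ := hx
      simp [ho']
    simp only [Fin.val_zero, if_true]
    rw [h2, mul_one]
    exact ho
  rw [Fintype.card_fun, Fintype.card_fin] at h1
  exact_mod_cast h1

end Pool.Agent.Helper52.NA
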