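import Mathlib

/-!
# A non-amenable automaton group without free subgroups: definitions

`H` is a finite group acting on the alphabet `X`, and `RA`, `RC`, `RD` are disjoint sets of letters.
The automaton has the states `a h`, `c h`, `d h` (`h ∈ H`) and the identity:
`a h` permutes the first letter by `h`; `c h` fixes the first letter `x` and continues as `a h` if
`x ∈ RA`; `d h` fixes the first letter `x` and continues as `c h` if `x ∈ RC`, as `d h` if `x ∈ RD`.
-/

namespace Pool.Agent.Helper52.NA

open Finset

/-! ### Averages of operators, indicator elements, words -/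

/-- The average of a finite family of operators. -/
noncomputable def av {V Om : Type*} [AddCommGroup V] [Module ℝ V] [Fintype Om]
    (u : Om → Module.End ℝ V) : Module.End ℝ V :=
  (Fintype.card Om : ℝ)⁻¹ • ∑ o, u o

/-- The element of `Sl → H` which is `h` on `S` and `1` elsewhere. -/
def ind {Sl H : Type*} [DecidableEq Sl] [One H] (S : Finset Sl) (h : H) : Sl → H :=
  fun s => if s ∈ S then h else 1

/-- The product of a word. -/
def wd {Om G : Type*} [Monoid G] (E : Om → G) (n : ℕ) (w : Fin n → Om) : G :=
  (List.ofFn fun i => E (w i)).prod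

/-- The probability that a random word of length `n` has product `1`. -/
noncomputable def q {Om G : Type*} [Fintype Om] [Monoid G] (E : Om → G) (n : ℕ) : ℝ :=
  (Nat.card {w : Fin n → Om // wd E n w = 1} : ℝ) / (Fintype.card Om : ℝ) ^ n

/-- The elements `a h₁ * c h₂ * d h₃ * a h₄`. -/
def quad {H G : Type*} [Group H] [Group G] (a c d : H →* G) (t : H × H × H × H) : G :=
  a t.1 * c t.2.1 * d t.2.2.1 * a t.2.2.2

/-- The left regular representation of a finite group. -/
noncomputable def reg (G : Type*) [Group G] [Fintype G] :
    G →* Module.End ℝ (EuclideanSpace ℝ G) where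
  toFun g := (LinearIsometryEquiv.piLpCongrLeft 2 ℝ ℝ (Equiv.mulLeft g)).toLinearEquiv.toLinearMap
  map_one' := by
    ext v i
    simp
    rfl
  map_mul' g h := by
    ext v i
    simp
    rfl

theorem reg_apply {G : Type*} [Group G] [Fintype G] (g : G) (v : EuclideanSpace ℝ G) (k : G) :
    (reg G g v) k = v (g⁻¹ * k) := rfl

/-! ### One level -/

section Level

variable {H X Y : Type*} [Group H] [MulAction H X] [DecidableEq X]

/-- Fibrewise permutations of `X × Y`. -/
def fib : (X → Equiv.Perm Y) →* Equiv.Perm (X × Y) where
  toFun g :=
    { toFun := fun p => (p.1, g p.1 p.2)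
      invFun := fun p => (p.1, (g p.1)⁻¹ p.2)
      left_inv := fun p => by simp
      right_inv := fun p => by simp }
  map_one' := by ext p <;> rfl
  map_mul' g h := by ext p <;> rfl

/-- The rooted permutations. -/
def aS (H X Y : Type*) [Group H] [MulAction H X] : H →* Equiv.Perm (X × Y) where
  toFun h :=
    { toFun := fun p => (h • p.1, p.2)
      invFun := fun p => (h⁻¹ • p.1, p.2)
      left_inv := fun p => by simp
      right_inv := fun p => by simp }
  map_one' := by ext p <;> simp
  map_mul' g h := by ext p <;> simp [mul_smul]

/-- All choices of an element of `a` in the fibres. -/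
def aX (X : Type*) (a : H →* Equiv.Perm Y) : (X → H) →* Equiv.Perm (X × Y) :=
  fib.comp
    { toFun := fun k x => a (k x)
      map_one' := by ext x : 1; simp
      map_mul' := fun k l => by ext x : 1; simp }

/-- All choices of an element of `c` and an element of `d` in the fibres. -/
def bX (X : Type*) (c d : H →* Equiv.Perm Y) (hcd : ∀ h h', Commute (c h) (d h')) :
    (X × Bool → H) →* Equiv.Perm (X × Y) :=
  fib.comp
    { toFun := fun k x => c (k (x, false)) * d (k (x, true))
      map_one' := by ext x : 1; simp
      map_mul' := fun k l => by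
        ext x : 1
        have := (hcd (l (x, false)) (k (x, true))).eq
        simp only [Pi.mul_apply, map_mul]
        rw [mul_assoc, mul_assoc, ← mul_assoc (c (l (x, false))), this, mul_assoc] }

/-- The slots of `d`. -/
def slots (RC RD : Finset X) : Finset (X × Bool) :=
  RC.map ⟨fun x => (x, false), fun _ _ h => (Prod.ext_iff.1 h).1⟩ ∪
    RD.map ⟨fun x => (x, true), fun _ _ h => (Prod.ext_iff.1 h).1⟩

/-- `c` on the next level. -/
def cS (RA : Finset X) (a : H →* Equiv.Perm Y) : H →* Equiv.Perm (X × Y) :=
  fib.comp
    { toFun := fun h x => if x ∈ RA then a h else 1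
      map_one' := by ext x : 1; simp
      map_mul' := fun k l => by
        ext x : 1
        by_cases hx : x ∈ RA <;> simp [hx] }

/-- `d` on the next level. -/
def dS (RC RD : Finset X) (c d : H →* Equiv.Perm Y) : H →* Equiv.Perm (X × Y) :=
  fib.comp
    { toFun := fun h x => if x ∈ RC then c h else if x ∈ RD then d h else 1
      map_one' := by ext x : 1; by_cases hx : x ∈ RC <;> by_cases hx' : x ∈ RD <;> simp [hx, hx']
      map_mul' := fun k l => by
        ext x : 1
        by_cases hx : x ∈ RC <;> by_cases hx' : x ∈ RD <;> simp [hx, hx'] }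

end Level

/-! ### The automaton -/

section Tree

variable {H X : Type*} [Group H] [MulAction H X] [DecidableEq X]

/-- action of `a h` on words -/
def aL (h : H) : List X → List X
  | [] => []
  | x :: w => h • x :: w

/-- action of `c h` on words -/
def cL (RA : Finset X) (h : H) : List X → List X
  | [] => []
  | x :: w => x :: (if x ∈ RA then aL h w else w)

/-- action of `d h` on words -/
def dL (RA RC RD : Finset X) (h : H) : List X → List X
  | [] => []
  | x :: w => x :: (if x ∈ RC then cL RA h w else if x ∈ RD then dL RA RC RD h w else w)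

omit [DecidableEq X] in
theorem aL_one (w : List X) : aL (1 : H) w = w := by cases w <;> simp [aL]

omit [DecidableEq X] in
theorem aL_mul (g h : H) (w : List X) : aL (g * h) w = aL g (aL h w) := by
  cases w <;> simp [aL, mul_smul]

theorem cL_one (RA : Finset X) (w : List X) : cL RA (1 : H) w = w := by
  cases w <;> simp [cL, aL_one]

theorem cL_mul (RA : Finset X) (g h : H) (w : List X) :
    cL RA (g * h) w = cL RA g (cL RA h w) := by
  rcases w with _ | ⟨x, w⟩
  · rfl
  · by_cases hx : x ∈ RA <;> simp [cL, hx, aL_mul]

theorem dL_one (RA RC RD : Finset X) (w : List X) : dL RA RC RD (1 : H) w = w := by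
  induction w with
  | nil => rfl
  | cons x w ih => by_cases hx : x ∈ RC <;> by_cases hx' : x ∈ RD <;> simp [dL, hx, hx', cL_one, ih]

theorem dL_mul (RA RC RD : Finset X) (g h : H) (w : List X) :
    dL RA RC RD (g * h) w = dL RA RC RD g (dL RA RC RD h w) := by
  induction w with
  | nil => rfl
  | cons x w ih => by_cases hx : x ∈ RC <;> by_cases hx' : x ∈ RD <;> simp [dL, hx, hx', cL_mul, ih]

/-- A monoid homomorphism to permutations from a function with the laws of an action. -/
def permHom {W : Type*} (f : H → W → W) (h1 : ∀ w, f 1 w = w)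
    (hm : ∀ g h w, f (g * h) w = f g (f h w)) : H →* Equiv.Perm W where
  toFun h :=
    { toFun := f h
      invFun := f h⁻¹
      left_inv := fun w => by rw [← hm, inv_mul_cancel, h1]
      right_inv := fun w => by rw [← hm, mul_inv_cancel, h1] }
  map_one' := by ext w; exact h1 w
  map_mul' g h := by ext w; exact hm g h w

/-- the states `a h` -/
def aT (H X : Type*) [Group H] [MulAction H X] [DecidableEq X] : H →* Equiv.Perm (List X) :=
  permHom aL aL_one aL_mul

/-- the states `c h` -/
def cT (RA : Finset X) : H →* Equiv.Perm (List X) :=
  permHom (cL RA) (cL_one RA) (cL_mul RA)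

/-- the states `d h` -/
def dT (RA RC RD : Finset X) : H →* Equiv.Perm (List X) :=
  permHom (dL RA RC RD) (dL_one RA RC RD) (dL_mul RA RC RD)

/-- The group generated by the automaton. -/
def GT (H : Type*) [Group H] [MulAction H X] (RA RC RD : Finset X) :
    Subgroup (Equiv.Perm (List X)) :=
  (aT H X).range ⊔ (cT (H := H) RA).range ⊔ (dT (H := H) RA RC RD).range

end Tree

end Pool.Agent.Helper52.NA
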