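import Pool.Agent.Helper52.NA.Proj

/-!
# Parameters, operators and levels
-/

namespace Pool.Agent.Helper52.NA

open Finset

/-- The parameters of the construction. -/
structure Par {H X : Type} [Group H] [Fintype H] [MulAction H X] [Fintype X] [DecidableEq X]
    (RA RC RD : Finset X) (r w : ℕ) (θ : ℝ) : Prop where
  cardA : RA.card = r
  cardC : RC.card = r
  cardD : RD.card = r
  dAC : Disjoint RA RC
  dAD : Disjoint RA RD
  dCD : Disjoint RC RD
  /-- `H` is transitive on `X` -/
  trans : ∀ x y : X, ((univ.filter fun g : H => g • x = y).card : ℝ) * Fintype.card X = Fintype.card H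
  /-- the special letters are in general position -/
  pair : ∀ x ∈ RA ∪ RC ∪ RD, ∀ x' ∈ RA ∪ RC ∪ RD, x ≠ x' → ∀ y y' : X,
    ((univ.filter fun g : H => g • x = y ∧ g • x' = y').card : ℝ) * Fintype.card X ≤
      θ * Fintype.card H
  /-- bounded commutator width -/
  comm : ∀ h : H, ∃ l : List (H × H), l.length ≤ w ∧ h = (l.map fun t => t.1 * t.2 * t.1⁻¹ * t.2⁻¹).prod
  w_pos : 1 ≤ w
  θ_nonneg : 0 ≤ θ
  small : 256 * (w : ℝ) ^ 2 * (r : ℝ) ^ 2 * θ ≤ 1
  big : 21 ≤ r

section Ops

variable {H X V : Type*} [Group H] [Fintype H] [Fintype X] [DecidableEq X]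
  [AddCommGroup V] [Module ℝ V]

/-- `P_a P_c P_d P_a` -/
noncomputable def opS (Ua : H →* Module.End ℝ V) (UA : (X → H) →* Module.End ℝ V)
    (UB : (X × Bool → H) →* Module.End ℝ V) (RA RC RD : Finset X) : Module.End ℝ V :=
  av Ua * av (fun h => UA (ind RA h)) * av (fun h => UB (ind (slots RC RD) h)) * av Ua

/-- `P_A P_B P_A` for the product groups -/
noncomputable def opQ (UA : (X → H) →* Module.End ℝ V)
    (UB : (X × Bool → H) →* Module.End ℝ V) : Module.End ℝ V :=
  av UA * av UB * av UA

end Ops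

/-- A finite level: a finite set with the three actions of `H`. -/
structure Sys (H : Type) [Group H] where
  Y : Type
  fin : Fintype Y
  dec : DecidableEq Y
  a : H →* Equiv.Perm Y
  c : H →* Equiv.Perm Y
  d : H →* Equiv.Perm Y
  comm : ∀ h h', Commute (c h) (d h')

theorem commute_cS_dS {H X Y : Type*} [Group H] [DecidableEq X]
    (RA RC RD : Finset X) (hC : Disjoint RA RC) (hD : Disjoint RA RD)
    (a c d : H →* Equiv.Perm Y) (h h' : H) : Commute (cS RA a h) (dS RC RD c d h') := by
  unfold cS dS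
  simp only [MonoidHom.comp_apply]
  apply Commute.map
  refine Pi.commute_iff.2 fun x => ?_
  simp only [MonoidHom.coe_mk, OneHom.coe_mk]
  by_cases hx : x ∈ RA
  · have h1 : x ∉ RC := Finset.disjoint_left.1 hC hx
    have h2 : x ∉ RD := Finset.disjoint_left.1 hD hx
    simp [h1, h2]
  · simp [hx]

/-- The next level. -/
def Sys.next {H X : Type} [Group H] [MulAction H X] [Fintype X] [DecidableEq X]
    (RA RC RD : Finset X) (hC : Disjoint RA RC) (hD : Disjoint RA RD) (s : Sys H) : Sys H where
  Y := X × s.Y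
  fin := by haveI := s.fin; infer_instance
  dec := by haveI := s.dec; infer_instance
  a := aS H X s.Y
  c := cS RA s.a
  d := dS RC RD s.c s.d
  comm := commute_cS_dS RA RC RD hC hD s.a s.c s.d

/-- The levels of the tree. -/
def lvl {H X : Type} [Group H] [MulAction H X] [Fintype X] [DecidableEq X]
    (RA RC RD : Finset X) (hC : Disjoint RA RC) (hD : Disjoint RA RD) : ℕ → Sys H
  | 0 => ⟨Unit, inferInstance, inferInstance, 1, 1, 1, fun _ _ => Commute.refl 1⟩
  | n + 1 => (lvl RA RC RD hC hD n).next RA RC RD hC hD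

end Pool.Agent.Helper52.NA
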