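import Pool.Agent.Helper52.NA.Prefix

/-!
# Expansion inside a finite group from the decay of return probabilities
-/

namespace Pool.Agent.Helper52.NA

open Finset
open scoped RealInnerProductSpace

namespace ExpF

variable {G Om : Type*} [Group G] [Fintype G] [Fintype Om]

theorem norm_reg' (g : G) (v : EuclideanSpace ℝ G) : ‖reg G g v‖ = ‖v‖ := by
  show ‖(LinearIsometryEquiv.piLpCongrLeft 2 ℝ ℝ (Equiv.mulLeft g)) v‖ = ‖v‖
  exact LinearIsometryEquiv.norm_map _ v

/-- The averaging operator. -/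
noncomputable abbrev T (E : Om → G) : Module.End ℝ (EuclideanSpace ℝ G) := av fun o => reg G (E o)

theorem symm_T (E : Om → G) (inv : Om → Om) (hinv : Function.Bijective inv)
    (hE : ∀ o, E (inv o) = (E o)⁻¹) : (T E).IsSymmetric := by
  intro v w
  rw [av_apply, av_apply, inner_smul_left, inner_smul_right, sum_inner, inner_sum]
  congr 1
  rw [← Equiv.sum_comp (Equiv.ofBijective inv hinv)]
  refine Finset.sum_congr rfl fun k _ => ?_
  rw [inner_apply_left (reg G) norm_reg']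
  simp [hE]

theorem pow_T (E : Om → G) (N : ℕ) :
    (T E) ^ N = av (fun w : Fin N → Om => reg G (wd E N w)) := by
  rw [T, av_pow]
  congr 1
  funext w
  unfold wd
  rw [map_list_prod, List.map_ofFn]
  rfl

theorem pow_T_apply (E : Om → G) (N : ℕ) (v : EuclideanSpace ℝ G) (k : G) :
    ((T E) ^ N) v k = (Fintype.card (Fin N → Om) : ℝ)⁻¹ *
      ∑ w : Fin N → Om, v ((wd E N w)⁻¹ * k) := by
  rw [pow_T, av_apply, PiLp.smul_apply, smul_eq_mul]
  congr 1
  rw [WithLp.ofLp_sum, Finset.sum_apply]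
  rfl

omit [Group G] in
theorem inner_pow_double (A : Module.End ℝ (EuclideanSpace ℝ G)) (hA : A.IsSymmetric) (N : ℕ)
    (u v : EuclideanSpace ℝ G) : ⟪(A ^ (2 * N)) u, v⟫ = ⟪(A ^ N) u, (A ^ N) v⟫ := by
  rw [two_mul, pow_add, Module.End.mul_apply, hA.pow N]

variable [DecidableEq G]

theorem inner_single_single (E : Om → G) (N : ℕ) (x : G) :
    ⟪((T E) ^ N) (EuclideanSpace.single x (1 : ℝ)), EuclideanSpace.single x (1 : ℝ)⟫ = q E N := by
  rw [EuclideanSpace.inner_single_right, pow_T_apply]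
  unfold q
  rw [Nat.card_eq_fintype_card, Fintype.card_subtype, Fintype.card_fun, Fintype.card_fin]
  have : ∀ w : Fin N → Om, (EuclideanSpace.single x (1 : ℝ) : EuclideanSpace ℝ G)
      ((wd E N w)⁻¹ * x) = if wd E N w = 1 then 1 else 0 := by
    intro w
    rw [PiLp.single_apply]
    congr 1
    simp
  simp only [this]
  rw [Finset.sum_boole]
  simp
  ring

/-- The indicator vector. -/
noncomputable def f (F : Finset G) : EuclideanSpace ℝ G :=
  ∑ x ∈ F, EuclideanSpace.single x (1 : ℝ)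

omit [Group G] in
theorem f_apply (F : Finset G) (k : G) : f F k = if k ∈ F then 1 else 0 := by
  unfold f
  rw [WithLp.ofLp_sum, Finset.sum_apply]
  simp [PiLp.single_apply]

omit [Group G] in
theorem f_inner (F : Finset G) : ⟪f F, f F⟫ = (F.card : ℝ) := by
  rw [PiLp.inner_apply]
  simp [f_apply]

theorem sum_pow (E : Om → G) [Nonempty Om] (N : ℕ) (F : Finset G) :
    ∑ k, (((T E) ^ N) (f F)) k = (F.card : ℝ) := by
  simp only [pow_T_apply]
  rw [← Finset.mul_sum, Finset.sum_comm]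
  have : ∀ w : Fin N → Om, ∑ k, f F ((wd E N w)⁻¹ * k) = (F.card : ℝ) := by
    intro w
    have h := Equiv.sum_comp (Equiv.mulLeft (wd E N w)⁻¹) (fun k => f F k)
    simp only [Equiv.coe_mulLeft] at h
    rw [h]
    simp [f_apply]
  simp only [this, Finset.sum_const, Finset.card_univ]
  rw [nsmul_eq_mul, ← mul_assoc, inv_mul_cancel₀, one_mul]
  positivity

theorem supp_pow (E : Om → G) (N : ℕ) (F : Finset G) (k : G)
    (hk : (((T E) ^ N) (f F)) k ≠ 0) :
    k ∈ F.biUnion fun x => univ.image fun w : Fin N → Om => wd E N w * x := by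
  rw [pow_T_apply] at hk
  have h : ∑ w : Fin N → Om, f F ((wd E N w)⁻¹ * k) ≠ 0 := fun h => hk (by rw [h, mul_zero])
  obtain ⟨w, -, hw⟩ := Finset.exists_ne_zero_of_sum_ne_zero h
  rw [f_apply] at hw
  have hm : (wd E N w)⁻¹ * k ∈ F := by
    by_contra hcon
    exact hw (if_neg hcon)
  rw [mem_biUnion]
  exact ⟨_, hm, mem_image.2 ⟨w, mem_univ _, by simp⟩⟩

/-- `|F|² ≤ |S F| ‖T^n f‖²` -/
theorem card_sq_le (E : Om → G) [Nonempty Om] (n : ℕ) (F : Finset G) :
    (F.card : ℝ) ^ 2 ≤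
      ((F.biUnion fun x => univ.image fun w : Fin n → Om => wd E n w * x).card : ℝ) *
        ⟪((T E) ^ n) (f F), ((T E) ^ n) (f F)⟫ := by
  set S := F.biUnion fun x => univ.image fun w : Fin n → Om => wd E n w * x with hS
  set v := ((T E) ^ n) (f F) with hv
  have h1 : ∑ k ∈ S, v k = (F.card : ℝ) := by
    rw [← sum_pow E n F]
    refine Finset.sum_subset (subset_univ _) fun k _ hk => ?_
    by_contra hcon
    exact hk (supp_pow E n F k hcon)
  have h2 : ∑ k ∈ S, v k ^ 2 ≤ ⟪v, v⟫ := by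
    rw [PiLp.inner_apply]
    have : ∀ k, ⟪v k, v k⟫ = v k ^ 2 := fun k => by simp [sq]
    simp only [this]
    exact Finset.sum_le_sum_of_subset_of_nonneg (subset_univ _) fun k _ _ => sq_nonneg _
  rw [← h1]
  exact sq_sum_le_card_mul_sum_sq.trans (mul_le_mul_of_nonneg_left h2 (by positivity))

theorem inner_pow_le (E : Om → G) (hT : (T E).IsSymmetric) (M : ℕ) (F : Finset G) :
    ⟪((T E) ^ (2 * M)) (f F), f F⟫ ≤ (F.card : ℝ) ^ 2 * q E (2 * M) := by
  have h : ∀ x y : G, ⟪((T E) ^ (2 * M)) (EuclideanSpace.single x (1 : ℝ)),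
      EuclideanSpace.single y (1 : ℝ)⟫ ≤ q E (2 * M) := by
    intro x y
    rw [inner_pow_double _ hT]
    have h1 := inner_single_single E (2 * M) x
    have h2 := inner_single_single E (2 * M) y
    rw [inner_pow_double _ hT] at h1 h2
    have h3 := real_inner_mul_inner_self_le (((T E) ^ M) (EuclideanSpace.single x (1 : ℝ)))
      (((T E) ^ M) (EuclideanSpace.single y (1 : ℝ)))
    rw [h1, h2] at h3
    have h4 : 0 ≤ q E (2 * M) := by rw [← h1]; exact real_inner_self_nonneg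
    nlinarith
  calc ⟪((T E) ^ (2 * M)) (f F), f F⟫
      = ∑ x ∈ F, ∑ y ∈ F, ⟪((T E) ^ (2 * M)) (EuclideanSpace.single x (1 : ℝ)),
          EuclideanSpace.single y (1 : ℝ)⟫ := by
        conv_lhs => rw [f, map_sum, sum_inner]
        refine Finset.sum_congr rfl fun x _ => ?_
        rw [inner_sum]
    _ ≤ ∑ x ∈ F, ∑ y ∈ F, q E (2 * M) :=
        Finset.sum_le_sum fun x _ => Finset.sum_le_sum fun y _ => h x y
    _ = _ := by simp; ring

end ExpF

open ExpF

theorem expand_fin {G Om : Type*} [Group G] [Fintype G] [DecidableEq G] [Fintype Om] [Nonempty Om]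
    (E : Om → G) (inv : Om → Om) (hinv : Function.Bijective inv) (hE : ∀ o, E (inv o) = (E o)⁻¹)
    (n i : ℕ) (F : Finset G) (hF : (F.card : ℝ) < 2 ^ 2 ^ i)
    (hq : q E (2 * n * 2 ^ i) ≤ (1 / 4) ^ 2 ^ i) :
    2 * F.card ≤ (F.biUnion fun x => univ.image fun w : Fin n → Om => wd E n w * x).card := by
  by_contra hcon
  rw [not_le] at hcon
  have hT := symm_T E inv hinv hE
  rcases F.eq_empty_or_nonempty with rfl | hne
  · simp at hcon
  have hc : 0 < (F.card : ℝ) := by exact_mod_cast hne.card_pos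
  have hcon' : ((F.biUnion fun x => univ.image fun w : Fin n → Om => wd E n w * x).card : ℝ) <
      2 * F.card := by exact_mod_cast hcon
  have h0 := card_sq_le E n F
  set a : ℕ → ℝ := fun N => ⟪((T E) ^ N) (f F), f F⟫ with ha
  have h1 : a (2 * n) = ⟪((T E) ^ n) (f F), ((T E) ^ n) (f F)⟫ := inner_pow_double _ hT n _ _
  rw [← h1] at h0
  have hpos : 0 ≤ a (2 * n) := by rw [h1]; exact real_inner_self_nonneg
  have h2 : 1 / 2 * (F.card : ℝ) < a (2 * n) := by
    by_contra h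
    rw [not_lt] at h
    rcases hpos.eq_or_lt with h3 | h3
    · rw [← h3, mul_zero] at h0
      nlinarith
    · nlinarith
  have hstep : ∀ m, a m ^ 2 ≤ a (2 * m) * F.card := by
    intro m
    have h3 := real_inner_mul_inner_self_le (((T E) ^ m) (f F)) (f F)
    rw [f_inner, ← inner_pow_double _ hT] at h3
    rw [sq]
    exact h3
  have hind : ∀ i : ℕ, (1 / 2) ^ 2 ^ i * (F.card : ℝ) < a (2 * n * 2 ^ i) := by
    intro i
    induction i with
    | zero => simpa using h2
    | succ i ih =>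
      have h3 := hstep (2 * n * 2 ^ i)
      have h4 : 0 ≤ (1 / 2 : ℝ) ^ 2 ^ i * (F.card : ℝ) := by positivity
      have h5 : ((1 / 2 : ℝ) ^ 2 ^ i * (F.card : ℝ)) ^ 2 < a (2 * (2 * n * 2 ^ i)) * F.card :=
        (pow_lt_pow_left₀ ih h4 two_ne_zero).trans_le h3
      have h6 : ((1 / 2 : ℝ) ^ 2 ^ i * (F.card : ℝ)) ^ 2 =
          ((1 / 2 : ℝ) ^ 2 ^ (i + 1) * F.card) * F.card := by
        rw [pow_succ 2 i, pow_mul]; ring
      rw [h6] at h5
      have h7 := lt_of_mul_lt_mul_right h5 hc.le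
      rwa [show 2 * (2 * n * 2 ^ i) = 2 * n * 2 ^ (i + 1) by ring] at h7
  have h3 := hind i
  have h4 := inner_pow_le E hT (n * 2 ^ i) F
  have e : 2 * (n * 2 ^ i) = 2 * n * 2 ^ i := by ring
  rw [e] at h4
  have h5 : (1 / 2) ^ 2 ^ i * (F.card : ℝ) < (F.card : ℝ) ^ 2 * (1 / 4) ^ 2 ^ i :=
    h3.trans_le (h4.trans (mul_le_mul_of_nonneg_left hq (by positivity)))
  have h6 : (1 / 4 : ℝ) ^ 2 ^ i = (1 / 2) ^ 2 ^ i * (1 / 2) ^ 2 ^ i := by
    rw [← mul_pow]; norm_num
  have h7 : (1 / 2 : ℝ) ^ 2 ^ i * 2 ^ 2 ^ i = 1 := by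
    rw [← mul_pow]; norm_num
  have h8 : (0 : ℝ) < (1 / 2) ^ 2 ^ i := by positivity
  rw [h6] at h5
  have h9 : (1 : ℝ) < F.card * (1 / 2) ^ 2 ^ i := by
    have : (1 / 2) ^ 2 ^ i * (F.card : ℝ) * 1 <
        (1 / 2) ^ 2 ^ i * (F.card : ℝ) * (F.card * (1 / 2) ^ 2 ^ i) := by
      calc _ = (1 / 2) ^ 2 ^ i * (F.card : ℝ) := mul_one _
        _ < _ := h5
        _ = _ := by ring
    exact lt_of_mul_lt_mul_left this (by positivity)
  nlinarith

end Pool.Agent.Helper52.NA
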