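import Pool.Agent.Helper52.NA.Level
import Pool.Agent.Helper52.NA.ExpF

/-!
# The group of the automaton is uniformly expanding
-/

namespace Pool.Agent.Helper52.NA

open Finset

theorem quad_inv {H G : Type*} [Group H] [Group G] (a c d : H →* G)
    (hcd : ∀ h h', Commute (c h) (d h')) (t : H × H × H × H) :
    quad a c d (t.2.2.2⁻¹, t.2.1⁻¹, t.2.2.1⁻¹, t.1⁻¹) = (quad a c d t)⁻¹ := by
  simp only [quad, map_inv, mul_inv_rev]
  have := (hcd t.2.1 t.2.2.1).inv_inv.eq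
  rw [mul_assoc (a t.2.2.2)⁻¹, this]
  simp only [mul_assoc]

theorem inv4_bijective (H : Type*) [Group H] : Function.Bijective
    (fun t : H × H × H × H => (t.2.2.2⁻¹, t.2.1⁻¹, t.2.2.1⁻¹, t.1⁻¹)) := by
  apply Function.Involutive.bijective
  rintro ⟨a, b, c, d⟩
  simp

theorem exists_pow_two_small (t : ℝ) (ht0 : 0 < t) (ht1 : t < 1) :
    ∃ j : ℕ, (1 - t) ^ (2 * 2 ^ j) ≤ 1 / 4 := by
  obtain ⟨k, hk⟩ := exists_pow_lt_of_lt_one (show (0 : ℝ) < 1 / 4 by norm_num)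
    (show 1 - t < 1 by linarith)
  refine ⟨k, le_trans (pow_le_pow_of_le_one (by linarith) (by linarith) ?_) hk.le⟩
  have : k < 2 ^ k := Nat.lt_two_pow_self
  omega

section
variable {H X : Type} [Group H] [Fintype H] [MulAction H X] [Fintype X] [DecidableEq X]
    {RA RC RD : Finset X}

open Classical in
theorem expand_tree (hC : Disjoint RA RC) (hD : Disjoint RA RD) (t : ℝ) (ht0 : 0 < t) (ht1 : t < 1)
    (hq : ∀ j : ℕ,
      q (quad (aT H X) (cT (H := H) RA) (dT (H := H) RA RC RD)) (2 ^ j) ≤ (1 - t) ^ 2 ^ j) :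
    ∃ S : Finset (GT H RA RC RD), ∀ F : Finset (GT H RA RC RD),
      2 * F.card ≤ (F.biUnion fun x => S.image fun s => s * x).card := by
  obtain ⟨ρ, hρ, hne⟩ := exists_rest' (H := H) hC hD
  obtain ⟨j, hj⟩ := exists_pow_two_small t ht0 ht1
  refine ⟨univ.image fun w : Fin (2 ^ j) → H × H × H × H =>
    wd (quad (aG H RA RC RD) (cG H RA RC RD) (dG H RA RC RD)) (2 ^ j) w, fun F => ?_⟩
  -- choose `i`
  obtain ⟨i, hi⟩ : ∃ i : ℕ, F.card < 2 ^ 2 ^ i := by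
    refine ⟨F.card, lt_trans (Nat.lt_two_pow_self) (Nat.pow_lt_pow_right (by norm_num) ?_)⟩
    exact Nat.lt_two_pow_self
  -- choose `m`
  obtain ⟨m₁, hm₁⟩ := level_limit (H := H) hC hD (2 * 2 ^ j * 2 ^ i)
  have hsep : ∃ m₂, ∀ m, m₂ ≤ m → Set.InjOn (ρ m) F := by
    have h : ∀ p : GT H RA RC RD × GT H RA RC RD, ∃ m₀, ∀ m, m₀ ≤ m →
        p.1 ≠ p.2 → ρ m p.1 ≠ ρ m p.2 := by
      intro p
      by_cases hp : p.1 = p.2
      · exact ⟨0, fun m _ h => absurd hp h⟩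
      · obtain ⟨m₀, hm₀⟩ := hne (p.1 * p.2⁻¹) (fun h => hp (mul_inv_eq_one.1 h))
        refine ⟨m₀, fun m hm _ h => hm₀ m hm ?_⟩
        rw [map_mul, map_inv, h, mul_inv_cancel]
    choose M hM using h
    refine ⟨(F ×ˢ F).sup M, fun m hm x hx y hy hxy => ?_⟩
    by_contra hne'
    refine hM (x, y) m (le_trans (Finset.le_sup (f := M) ?_) hm) hne' hxy
    exact Finset.mk_mem_product hx hy
  obtain ⟨m₂, hm₂⟩ := hsep
  obtain ⟨m, hm1, hm2⟩ : ∃ m, m₁ ≤ m ∧ m₂ ≤ m := ⟨max m₁ m₂, le_max_left _ _, le_max_right _ _⟩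
  set s := lvl (H := H) RA RC RD hC hD m with hs
  have := s.fin
  have := s.dec
  have hcard : (F.image (ρ m)).card = F.card := Finset.card_image_of_injOn (hm₂ m hm2)
  have key := expand_fin (quad s.a s.c s.d)
    (fun t : H × H × H × H => (t.2.2.2⁻¹, t.2.1⁻¹, t.2.2.1⁻¹, t.1⁻¹)) (inv4_bijective H)
    (fun o => quad_inv s.a s.c s.d s.comm o) (2 ^ j) i (F.image (ρ m))
    (by rw [hcard]; exact_mod_cast hi)
    (by
      rw [hm₁ m hm1]
      have e : 2 * 2 ^ j * 2 ^ i = 2 ^ (j + 1 + i) := by ring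
      rw [e]
      refine (hq (j + 1 + i)).trans ?_
      rw [← e, pow_mul]
      exact pow_le_pow_left₀ (by positivity) hj _)
  rw [hcard] at key
  refine key.trans ?_
  refine le_trans (Finset.card_le_card ?_) (Finset.card_image_le (f := ρ m))
  intro y hy
  simp only [mem_biUnion, mem_image, mem_univ, true_and] at hy ⊢
  obtain ⟨_, ⟨x, hx, rfl⟩, w, rfl⟩ := hy
  refine ⟨wd (quad (aG H RA RC RD) (cG H RA RC RD) (dG H RA RC RD)) (2 ^ j) w * x,
    ⟨x, hx, _, ⟨w, rfl⟩, rfl⟩, ?_⟩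
  rw [map_mul, hρ]
end

end Pool.Agent.Helper52.NA
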