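import Pool.Agent.Helper52.NA.Prefix

/-!
# Module FIB: fibrewise permutations, products of averages
-/

set_option linter.unusedSectionVars false

namespace Pool.Agent.Helper52.NA

open Finset

section
variable {H X Y : Type} [Group H] [Fintype H] [MulAction H X] [Fintype X] [DecidableEq X]
    [Fintype Y] [DecidableEq Y]

theorem aS_aX (a : H →* Equiv.Perm Y) (g : H) (k : X → H) :
    aS H X Y g * aX X a k * aS H X Y g⁻¹ = aX X a (fun x => k (g⁻¹ • x)) := by
  ext p <;> simp [aS, aX, fib]

theorem aS_bX (c d : H →* Equiv.Perm Y) (hcd : ∀ h h', Commute (c h) (d h')) (g : H)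
    (k : X × Bool → H) :
    aS H X Y g * bX X c d hcd k * aS H X Y g⁻¹ = bX X c d hcd (fun s => k (g⁻¹ • s.1, s.2)) := by
  ext p <;> simp [aS, bX, fib]

theorem cS_eq (RA : Finset X) (a : H →* Equiv.Perm Y) (h : H) :
    cS RA a h = aX X a (ind RA h) := by
  unfold cS aX
  simp only [MonoidHom.comp_apply]
  congr 1
  funext x
  simp only [MonoidHom.coe_mk, OneHom.coe_mk, ind]
  by_cases hx : x ∈ RA <;> simp [hx]

theorem mem_slots_false {X : Type} [DecidableEq X] (RC RD : Finset X) (x : X) :
    (x, false) ∈ slots RC RD ↔ x ∈ RC := by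
  unfold slots
  rw [Finset.mem_union, Finset.mem_map, Finset.mem_map]
  constructor
  · rintro (⟨y, hy, h⟩ | ⟨y, _, h⟩)
    · have : y = x := congrArg Prod.fst h
      exact this ▸ hy
    · have : true = false := congrArg Prod.snd h
      exact absurd this (by decide)
  · exact fun h => Or.inl ⟨x, h, rfl⟩

theorem mem_slots_true {X : Type} [DecidableEq X] (RC RD : Finset X) (x : X) :
    (x, true) ∈ slots RC RD ↔ x ∈ RD := by
  unfold slots
  rw [Finset.mem_union, Finset.mem_map, Finset.mem_map]
  constructor
  · rintro (⟨y, _, h⟩ | ⟨y, hy, h⟩)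
    · have : false = true := congrArg Prod.snd h
      exact absurd this (by decide)
    · have : y = x := congrArg Prod.fst h
      exact this ▸ hy
  · exact fun h => Or.inr ⟨x, h, rfl⟩

theorem dS_eq (RC RD : Finset X) (hd : Disjoint RC RD) (c d : H →* Equiv.Perm Y)
    (hcd : ∀ h h', Commute (c h) (d h')) (h : H) :
    dS RC RD c d h = bX X c d hcd (ind (slots RC RD) h) := by
  unfold dS bX
  simp only [MonoidHom.comp_apply]
  congr 1
  funext x
  simp only [MonoidHom.coe_mk, OneHom.coe_mk, ind, mem_slots_false, mem_slots_true]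
  by_cases hx : x ∈ RC
  · have hx' : x ∉ RD := Finset.disjoint_left.1 hd hx
    simp [hx, hx']
  · by_cases hx' : x ∈ RD <;> simp [hx, hx']

theorem wd_fib {Om : Type*} (E : Om → Equiv.Perm Y) (n : ℕ) (w : Fin n → X → Om) :
    wd (fun t : X → Om => fib (fun x => E (t x))) n w =
      fib (fun x => wd E n (fun i => w i x)) := by
  unfold wd
  have h1 : (List.ofFn fun i => (fib (fun x => E (w i x)) : Equiv.Perm (X × Y))) =
      (List.ofFn fun i => (fun x => E (w i x))).map (fib (X := X) (Y := Y)) := by
    rw [List.map_ofFn]; rfl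
  rw [h1, ← map_list_prod]
  congr 1
  funext x
  have h2 := map_list_prod (Pi.evalMonoidHom (fun _ : X => Equiv.Perm Y) x)
    (List.ofFn fun i => (fun x => E (w i x)))
  rw [List.map_ofFn] at h2
  exact h2

theorem fib_eq_one (g : X → Equiv.Perm Y) : fib g = 1 ↔ ∀ x, g x = 1 := by
  constructor
  · intro h x
    ext y
    have := congrArg (fun f : Equiv.Perm (X × Y) => (f (x, y)).2) h
    simpa [fib] using this
  · intro h
    have : g = 1 := funext h
    rw [this, map_one]

/-- independent words in the fibres -/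
theorem q_fib (E : H × H × H × H → Equiv.Perm Y) (n : ℕ) :
    q (fun t : X → H × H × H × H => fib (fun x => E (t x))) n = (q E n) ^ Fintype.card X := by
  unfold q
  have e : {w : Fin n → X → H × H × H × H //
      wd (fun t : X → H × H × H × H => fib (fun x => E (t x))) n w = 1} ≃
      (X → {w : Fin n → H × H × H × H // wd E n w = 1}) :=
    { toFun := fun w x => ⟨fun i => w.1 i x, by
        have := w.2
        rw [wd_fib, fib_eq_one] at this
        exact this x⟩
      invFun := fun v => ⟨fun i x => (v x).1 i, by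
        rw [wd_fib, fib_eq_one]
        exact fun x => (v x).2⟩
      left_inv := fun w => rfl
      right_inv := fun v => rfl }
  rw [Nat.card_congr e, Nat.card_pi, Finset.prod_const, Finset.card_univ, div_pow,
    Fintype.card_fun]
  push_cast
  rw [← pow_mul, ← pow_mul, mul_comm]

theorem opQ_eq (a c d : H →* Equiv.Perm Y) (hcd : ∀ h h', Commute (c h) (d h')) :
    opQ ((reg (Equiv.Perm (X × Y))).comp (aX X a)) ((reg (Equiv.Perm (X × Y))).comp (bX X c d hcd)) =
      av (fun t : X → H × H × H × H =>
        reg (Equiv.Perm (X × Y)) (fib (fun x => quad a c d (t x)))) := by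
  unfold opQ
  rw [av_mul, av_mul]
  let e : (X → H × H × H × H) ≃ ((X → H) × (X × Bool → H)) × (X → H) :=
    { toFun := fun t => ((fun x => (t x).1,
        fun s => if s.2 then (t s.1).2.2.1 else (t s.1).2.1), fun x => (t x).2.2.2)
      invFun := fun p x => (p.1.1 x, p.1.2 (x, false), p.1.2 (x, true), p.2 x)
      left_inv := fun t => by funext x; simp
      right_inv := fun p => by
        refine Prod.ext (Prod.ext rfl ?_) rfl
        funext s
        rcases s with ⟨x, b⟩
        cases b <;> simp }
  rw [← av_equiv e]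
  refine congrArg av (funext fun t => ?_)
  simp only [MonoidHom.comp_apply]
  rw [← map_mul, ← map_mul]
  refine congrArg _ ?_
  unfold aX bX
  simp only [MonoidHom.comp_apply]
  rw [← map_mul, ← map_mul]
  refine congrArg _ (funext fun x => ?_)
  simp [e, quad, mul_assoc]

theorem opS_eq (RA RC RD : Finset X) (hd : Disjoint RC RD) (a c d : H →* Equiv.Perm Y)
    (hcd : ∀ h h', Commute (c h) (d h')) :
    opS ((reg (Equiv.Perm (X × Y))).comp (aS H X Y)) ((reg (Equiv.Perm (X × Y))).comp (aX X a))
      ((reg (Equiv.Perm (X × Y))).comp (bX X c d hcd)) RA RC RD =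
      av (fun t : H × H × H × H =>
        reg (Equiv.Perm (X × Y)) (quad (aS H X Y) (cS RA a) (dS RC RD c d) t)) := by
  unfold opS
  rw [av_mul, av_mul, av_mul]
  let e : H × H × H × H ≃ ((H × H) × H) × H :=
    { toFun := fun t => (((t.1, t.2.1), t.2.2.1), t.2.2.2)
      invFun := fun p => (p.1.1.1, p.1.1.2, p.1.2, p.2)
      left_inv := fun t => rfl
      right_inv := fun p => rfl }
  rw [← av_equiv e]
  congr 1
  funext t
  simp only [MonoidHom.comp_apply, e, Equiv.coe_fn_mk]
  rw [← cS_eq, ← dS_eq RC RD hd, ← map_mul, ← map_mul, ← map_mul]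
  rfl
end

end Pool.Agent.Helper52.NA
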