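import Pool.Agent.Helper52.NA.Prefix
import Mathlib.Combinatorics.Hall.Basic

/-!
# Hall's theorem: expansion by a factor two excludes an invariant mean
-/

namespace Pool.Agent.Helper52.NA

open Finset

theorem mean_empty {G : Type*} (m : Set G → ℝ)
    (hadd : ∀ A B, Disjoint A B → m (A ∪ B) = m A + m B) : m ∅ = 0 := by
  have h := hadd ∅ ∅ (by simp)
  simp only [Set.union_self] at h
  linarith

theorem mean_biUnion {G ι : Type*} (m : Set G → ℝ)
    (hadd : ∀ A B, Disjoint A B → m (A ∪ B) = m A + m B) (I : Finset ι) (A : ι → Set G)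
    (hd : ∀ i ∈ I, ∀ j ∈ I, i ≠ j → Disjoint (A i) (A j)) :
    m (⋃ i ∈ I, A i) = ∑ i ∈ I, m (A i) := by
  classical
  induction I using Finset.induction_on with
  | empty => simp [mean_empty m hadd]
  | insert a I ha ih =>
    rw [Finset.sum_insert ha, Finset.set_biUnion_insert, hadd, ih]
    · exact fun i hi j hj => hd i (mem_insert_of_mem hi) j (mem_insert_of_mem hj)
    · rw [Set.disjoint_iUnion₂_right]
      intro i hi
      exact hd a (mem_insert_self _ _) i (mem_insert_of_mem hi) (fun h => ha (h ▸ hi))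

theorem no_mean {G : Type*} [Group G] [DecidableEq G] (S : Finset G)
    (hS : ∀ F : Finset G, 2 * F.card ≤ (F.biUnion fun x => S.image fun s => s * x).card) :
    ¬ ∃ m : Set G → ℝ, (∀ A, 0 ≤ m A) ∧ m Set.univ = 1 ∧
      (∀ A B, Disjoint A B → m (A ∪ B) = m A + m B) ∧
      (∀ (g : G) A, m ((fun x => g * x) '' A) = m A) := by
  classical
  rintro ⟨m, hpos, h1, hadd, hinv⟩
  obtain ⟨f, hf, hft⟩ := (Finset.all_card_le_biUnion_card_iff_exists_injective
    (fun p : G × Bool => S.image fun s => s * p.1)).1 (by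
      intro s
      have hsub : s ⊆ (s.image Prod.fst) ×ˢ (univ : Finset Bool) := by
        intro p hp
        exact mem_product.2 ⟨mem_image_of_mem _ hp, mem_univ _⟩
      have hc := Finset.card_le_card hsub
      rw [card_product] at hc
      have h2 := hS (s.image Prod.fst)
      have h3 : (s.image Prod.fst).biUnion (fun x => S.image fun s => s * x) =
          s.biUnion fun p => S.image fun s => s * p.1 := by
        rw [Finset.image_biUnion]
      rw [h3] at h2
      simp only [Finset.card_univ, Fintype.card_bool] at hc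
      omega)
  -- the pieces
  set A : Bool × G → Set G := fun p => {g | f (g, p.1) = p.2 * g} with hA
  have hcover : ∀ b : Bool, (⋃ s ∈ S, A (b, s)) = Set.univ := by
    intro b
    refine Set.eq_univ_of_forall fun g => ?_
    obtain ⟨s, hs, hs'⟩ := mem_image.1 (hft (g, b))
    exact Set.mem_iUnion₂.2 ⟨s, hs, hs'.symm⟩
  have hsum : ∀ b : Bool, ∑ s ∈ S, m (A (b, s)) = 1 := by
    intro b
    rw [← mean_biUnion m hadd S (fun s => A (b, s)), hcover, h1]
    intro s _ s' _ hne
    rw [Set.disjoint_left]
    intro g hg hg'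
    apply hne
    have h : s * g = s' * g := by
      have e1 : f (g, b) = s * g := hg
      have e2 : f (g, b) = s' * g := hg'
      rw [← e1, e2]
    exact mul_right_cancel h
  have hdisj : ∀ p ∈ (univ : Finset Bool) ×ˢ S, ∀ p' ∈ (univ : Finset Bool) ×ˢ S, p ≠ p' →
      Disjoint ((fun x => p.2 * x) '' A p) ((fun x => p'.2 * x) '' A p') := by
    rintro ⟨b, s⟩ _ ⟨b', s'⟩ _ hne
    rw [Set.disjoint_left]
    rintro _ ⟨g, hg, rfl⟩ ⟨g', hg', he⟩
    apply hne
    have e1 : f (g, b) = s * g := hg
    have e2 : f (g', b') = s' * g' := hg'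
    have he' : s' * g' = s * g := he
    have e3 : (g, b) = (g', b') := hf (by rw [e1, e2, he'])
    obtain ⟨rfl, rfl⟩ := Prod.mk.inj e3
    have : s' = s := mul_right_cancel he'
    rw [this]
  have htot := mean_biUnion m hadd ((univ : Finset Bool) ×ˢ S)
    (fun p => (fun x => p.2 * x) '' A p) hdisj
  have htwo : ∑ p ∈ (univ : Finset Bool) ×ˢ S, m ((fun x => p.2 * x) '' A p) = 2 := by
    rw [Finset.sum_product]
    simp only [hinv]
    rw [Fintype.sum_bool, hsum, hsum]
    norm_num
  rw [htwo] at htot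
  -- monotonicity
  have hle : m (⋃ p ∈ (univ : Finset Bool) ×ˢ S, (fun x => p.2 * x) '' A p) ≤ 1 := by
    set B := ⋃ p ∈ (univ : Finset Bool) ×ˢ S, (fun x => p.2 * x) '' A p
    have := hadd B Bᶜ disjoint_compl_right
    rw [Set.union_compl_self, h1] at this
    have h' := hpos Bᶜ
    linarith
  rw [htot] at hle
  norm_num at hle

end Pool.Agent.Helper52.NA
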