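import Pool.Agent.Helper52.NA.Prefix
import Mathlib.GroupTheory.CoprodI
import Mathlib.GroupTheory.FreeGroup.CyclicallyReduced
import Mathlib.LinearAlgebra.Matrix.SpecialLinearGroup

namespace Pool.Agent.Helper52.NA

/-! ## MODULE FREE -/

open Matrix

/-- positive words are reduced -/
theorem prod_of_eq_mk {α : Type*} (l : List α) :
    (l.map FreeGroup.of).prod = FreeGroup.mk (l.map fun a => (a, true)) := by
  induction l with
  | nil => rfl
  | cons a l ih =>
    rw [List.map_cons, List.prod_cons, ih, List.map_cons, FreeGroup.of, FreeGroup.mul_mk]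
    rfl

theorem isReduced_pos {α : Type*} (l : List α) :
    FreeGroup.IsReduced (l.map fun a => (a, true)) := by
  induction l with
  | nil => exact FreeGroup.IsReduced.nil
  | cons a l ih =>
    cases l with
    | nil => exact FreeGroup.IsReduced.singleton
    | cons b l =>
      rw [List.map_cons, List.map_cons, FreeGroup.isReduced_cons_cons]
      exact ⟨fun _ => rfl, by simpa using ih⟩

theorem pos_words (R : ℕ) : Function.Injective
    (fun w : Fin R → Fin 2 => (List.ofFn fun i => FreeGroup.of (w i)).prod) := by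
  intro w w' h
  have e : ∀ w : Fin R → Fin 2, (List.ofFn fun i => FreeGroup.of (w i)).prod =
      FreeGroup.mk ((List.ofFn w).map fun a => (a, true)) := by
    intro w
    rw [← prod_of_eq_mk, List.map_ofFn]
    rfl
  simp only [e] at h
  have h2 := congrArg FreeGroup.toWord h
  rw [FreeGroup.toWord_mk, FreeGroup.toWord_mk, (isReduced_pos _).reduce_eq,
    (isReduced_pos _).reduce_eq] at h2
  have h3 : Function.Injective (fun a : Fin 2 => (a, true)) := fun a b hab => (Prod.mk.inj hab).1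
  exact List.ofFn_injective (List.map_injective_iff.2 h3 h2)

/-- the matrix `(1 3 / 0 1)` -/
def mX : SpecialLinearGroup (Fin 2) ℤ := ⟨!![1, 3; 0, 1], by simp [Matrix.det_fin_two]⟩

/-- the matrix `(1 0 / 3 1)` -/
def mY : SpecialLinearGroup (Fin 2) ℤ := ⟨!![1, 0; 3, 1], by simp [Matrix.det_fin_two]⟩

/-- the two generators -/
def mG : Fin 2 → SpecialLinearGroup (Fin 2) ℤ := ![mX, mY]

/-- ping-pong sets -/
def sX : Fin 2 → Set (SpecialLinearGroup (Fin 2) ℤ) :=
  ![{A | 3 * (A.1 1 0) ^ 2 ≤ 2 * (A.1 0 0 * A.1 1 0)},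
    {A | 3 * (A.1 0 0) ^ 2 ≤ 2 * (A.1 0 0 * A.1 1 0)}]

/-- ping-pong sets -/
def sY : Fin 2 → Set (SpecialLinearGroup (Fin 2) ℤ) :=
  ![{A | 2 * (A.1 0 0 * A.1 1 0) < -(3 * (A.1 1 0) ^ 2)},
    {A | 2 * (A.1 0 0 * A.1 1 0) < -(3 * (A.1 0 0) ^ 2)}]

theorem det_col (A : SpecialLinearGroup (Fin 2) ℤ) : 0 < (A.1 0 0) ^ 2 + (A.1 1 0) ^ 2 := by
  have h := A.2
  rw [Matrix.det_fin_two] at h
  by_contra hc
  have h0 : A.1 0 0 = 0 := by nlinarith [sq_nonneg (A.1 0 0), sq_nonneg (A.1 1 0)]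
  have h1 : A.1 1 0 = 0 := by nlinarith [sq_nonneg (A.1 0 0), sq_nonneg (A.1 1 0)]
  rw [h0, h1] at h
  simp at h

theorem mX_mul (A : SpecialLinearGroup (Fin 2) ℤ) :
    (mX * A).1 0 0 = A.1 0 0 + 3 * A.1 1 0 ∧ (mX * A).1 1 0 = A.1 1 0 := by
  have h : (mX * A).1 = !![1, 3; 0, 1] * A.1 := rfl
  rw [h]
  constructor <;> simp [Matrix.mul_apply, Fin.sum_univ_two]

theorem mY_mul (A : SpecialLinearGroup (Fin 2) ℤ) :
    (mY * A).1 0 0 = A.1 0 0 ∧ (mY * A).1 1 0 = 3 * A.1 0 0 + A.1 1 0 := by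
  have h : (mY * A).1 = !![1, 0; 3, 1] * A.1 := rfl
  rw [h]
  constructor <;> simp [Matrix.mul_apply, Fin.sum_univ_two]

theorem mXi_mul (A : SpecialLinearGroup (Fin 2) ℤ) :
    (mX⁻¹ * A).1 0 0 = A.1 0 0 - 3 * A.1 1 0 ∧ (mX⁻¹ * A).1 1 0 = A.1 1 0 := by
  have h := mX_mul (mX⁻¹ * A)
  rw [mul_inv_cancel_left] at h
  constructor <;> linarith [h.1, h.2]

theorem mYi_mul (A : SpecialLinearGroup (Fin 2) ℤ) :
    (mY⁻¹ * A).1 0 0 = A.1 0 0 ∧ (mY⁻¹ * A).1 1 0 = A.1 1 0 - 3 * A.1 0 0 := by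
  have h := mY_mul (mY⁻¹ * A)
  rw [mul_inv_cancel_left] at h
  constructor <;> linarith [h.1, h.2]

theorem lift_inj : Function.Injective (FreeGroup.lift mG) := by
  have h01 : ∀ i : Fin 2, i = 0 ∨ i = 1 := by decide
  have mX0 : ∀ A, A ∈ sX 0 ↔ 3 * (A.1 1 0) ^ 2 ≤ 2 * (A.1 0 0 * A.1 1 0) := fun A => Iff.rfl
  have mX1 : ∀ A, A ∈ sX 1 ↔ 3 * (A.1 0 0) ^ 2 ≤ 2 * (A.1 0 0 * A.1 1 0) := fun A => Iff.rfl
  have mY0 : ∀ A, A ∈ sY 0 ↔ 2 * (A.1 0 0 * A.1 1 0) < -(3 * (A.1 1 0) ^ 2) := fun A => Iff.rfl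
  have mY1 : ∀ A, A ∈ sY 1 ↔ 2 * (A.1 0 0 * A.1 1 0) < -(3 * (A.1 0 0) ^ 2) := fun A => Iff.rfl
  apply FreeGroup.injective_lift_of_ping_pong mG sX sY
  · intro i
    rcases h01 i with rfl | rfl
    · exact ⟨1, by rw [mX0]; simp⟩
    · exact ⟨⟨!![0, -1; 1, 0], by simp [Matrix.det_fin_two]⟩, (mX1 _).2 (by simp)⟩
  · intro i j hij
    have key : Disjoint (sX 0) (sX 1) := by
      rw [Set.disjoint_left]
      intro A h0 h1
      rw [mX0] at h0
      rw [mX1] at h1
      nlinarith [det_col A, sq_nonneg (A.1 0 0 - A.1 1 0)]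
    rcases h01 i with rfl | rfl <;> rcases h01 j with rfl | rfl
    · exact absurd rfl hij
    · exact key
    · exact key.symm
    · exact absurd rfl hij
  · intro i j hij
    have key : Disjoint (sY 0) (sY 1) := by
      rw [Set.disjoint_left]
      intro A h0 h1
      rw [mY0] at h0
      rw [mY1] at h1
      nlinarith [det_col A, sq_nonneg (A.1 0 0 + A.1 1 0)]
    rcases h01 i with rfl | rfl <;> rcases h01 j with rfl | rfl
    · exact absurd rfl hij
    · exact key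
    · exact key.symm
    · exact absurd rfl hij
  · intro i j
    rw [Set.disjoint_left]
    intro A h0 h1
    rcases h01 i with rfl | rfl <;> rcases h01 j with rfl | rfl <;>
      simp only [mX0, mX1, mY0, mY1] at h0 h1 <;>
      nlinarith [det_col A, sq_nonneg (A.1 0 0), sq_nonneg (A.1 1 0)]
  · intro i
    rintro _ ⟨A, hA, rfl⟩
    rcases h01 i with rfl | rfl
    · change mX * A ∈ sX 0
      have hA' : ¬ A ∈ sY 0 := hA
      rw [mY0] at hA'
      rw [mX0, (mX_mul A).1, (mX_mul A).2]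
      nlinarith
    · change mY * A ∈ sX 1
      have hA' : ¬ A ∈ sY 1 := hA
      rw [mY1] at hA'
      rw [mX1, (mY_mul A).1, (mY_mul A).2]
      nlinarith
  · intro i
    rintro _ ⟨A, hA, rfl⟩
    rcases h01 i with rfl | rfl
    · change mX⁻¹ * A ∈ sY 0
      have hA' : ¬ A ∈ sX 0 := hA
      rw [mX0] at hA'
      rw [mY0, (mXi_mul A).1, (mXi_mul A).2]
      nlinarith
    · change mY⁻¹ * A ∈ sY 1
      have hA' : ¬ A ∈ sX 1 := hA
      rw [mX1] at hA'
      rw [mY1, (mYi_mul A).1, (mYi_mul A).2]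
      nlinarith

/-- powers of the generators -/
theorem mX_pow (N : ℕ) : ∀ A : SpecialLinearGroup (Fin 2) ℤ,
    (mX ^ N * A).1 = !![A.1 0 0 + 3 * N * A.1 1 0, A.1 0 1 + 3 * N * A.1 1 1; A.1 1 0, A.1 1 1] := by
  induction N with
  | zero =>
    intro A
    ext i j
    fin_cases i <;> fin_cases j <;> simp
  | succ N ih =>
    intro A
    rw [pow_succ', mul_assoc]
    have h : (mX * (mX ^ N * A)).1 = !![1, 3; 0, 1] * (mX ^ N * A).1 := rfl
    rw [h, ih]
    ext i j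
    fin_cases i <;> fin_cases j <;> simp [Matrix.mul_apply, Fin.sum_univ_two] <;> ring

theorem mY_pow (N : ℕ) : ∀ A : SpecialLinearGroup (Fin 2) ℤ,
    (mY ^ N * A).1 = !![A.1 0 0, A.1 0 1; 3 * N * A.1 0 0 + A.1 1 0, 3 * N * A.1 0 1 + A.1 1 1] := by
  induction N with
  | zero =>
    intro A
    ext i j
    fin_cases i <;> fin_cases j <;> simp
  | succ N ih =>
    intro A
    rw [pow_succ', mul_assoc]
    have h : (mY * (mY ^ N * A)).1 = !![1, 0; 3, 1] * (mY ^ N * A).1 := rfl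
    rw [h, ih]
    ext i j
    fin_cases i <;> fin_cases j <;> simp [Matrix.mul_apply, Fin.sum_univ_two] <;> ring

/-- the vector of the non-scalar part of a matrix -/
def vec (A : SpecialLinearGroup (Fin 2) ℤ) : Fin 3 → ℤ := ![A.1 0 1, A.1 1 0, A.1 0 0 - A.1 1 1]

/-- commuting two by two matrices have parallel non-scalar parts -/
theorem comm_rel {A B : SpecialLinearGroup (Fin 2) ℤ} (h : Commute A B) (i j : Fin 3) :
    vec A i * vec B j = vec A j * vec B i := by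
  have e : A.1 * B.1 = B.1 * A.1 := congrArg Subtype.val h.eq
  have e00 := congrFun (congrFun e 0) 0
  have e01 := congrFun (congrFun e 0) 1
  have e10 := congrFun (congrFun e 1) 0
  simp only [Matrix.mul_apply, Fin.sum_univ_two] at e00 e01 e10
  have v0 : ∀ A, vec A 0 = A.1 0 1 := fun _ => rfl
  have v1 : ∀ A, vec A 1 = A.1 1 0 := fun _ => rfl
  have v2 : ∀ A, vec A 2 = A.1 0 0 - A.1 1 1 := fun _ => rfl
  have h3 : ∀ i : Fin 3, i = 0 ∨ i = 1 ∨ i = 2 := by decide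
  rcases h3 i with rfl | rfl | rfl <;> rcases h3 j with rfl | rfl | rfl <;>
    simp only [v0, v1, v2] <;> linarith

theorem par_trans {v a b : Fin 3 → ℤ} (hv : v ≠ 0) (ha : ∀ i j, v i * a j = v j * a i)
    (hb : ∀ i j, v i * b j = v j * b i) (i j : Fin 3) : a i * b j = a j * b i := by
  obtain ⟨k, hk⟩ := Function.ne_iff.1 hv
  have hk' : v k * v k ≠ 0 := mul_ne_zero hk hk
  have e : v k * v k * (a i * b j) = v k * v k * (a j * b i) := by
    have h1 : v k * v k * (a i * b j) = (v k * a i) * (v k * b j) := by ring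
    have h2 : v k * v k * (a j * b i) = (v k * a j) * (v k * b i) := by ring
    rw [h1, h2, ha k i, hb k j, ha k j, hb k i]
    ring
  exact mul_left_cancel₀ hk' e

theorem vec_ne {k : FreeGroup (Fin 2)} (hk : k ≠ 1) : vec (FreeGroup.lift mG k) ≠ 0 := by
  intro h
  set A := FreeGroup.lift mG k with hA
  have h0 : A.1 0 1 = 0 := congrFun h 0
  have h1 : A.1 1 0 = 0 := congrFun h 1
  have h2 : A.1 0 0 - A.1 1 1 = 0 := congrFun h 2
  have hd := A.2
  rw [Matrix.det_fin_two, h0] at hd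
  have h3 : A.1 0 0 = A.1 1 1 := by linarith
  have h4 : A.1 0 0 * A.1 0 0 = 1 := by
    rw [← h3] at hd
    linarith
  have h5 : A.1 1 1 * A.1 1 1 = 1 := by
    rw [h3] at hd
    linarith
  have hAA : A * A = 1 := by
    apply Subtype.ext
    have h : (A * A).1 = A.1 * A.1 := rfl
    rw [h]
    ext i j
    fin_cases i <;> fin_cases j <;>
      simp [Matrix.mul_apply, Fin.sum_univ_two, h0, h1, h4, h5]
  have hkk : k ^ 2 = 1 := by
    apply lift_inj
    rw [map_pow, map_one, ← hA, sq, hAA]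
  exact hk (by simpa using hkk)

theorem conjX (N : ℕ) {A B : SpecialLinearGroup (Fin 2) ℤ} (h : B = mX ^ N * A * (mX ^ N)⁻¹) :
    B.1 0 0 = A.1 0 0 + 3 * N * A.1 1 0 ∧ B.1 1 0 = A.1 1 0 ∧
    B.1 0 1 = A.1 0 1 + 3 * N * A.1 1 1 - 3 * N * (A.1 0 0 + 3 * N * A.1 1 0) ∧
    B.1 1 1 = A.1 1 1 - 3 * N * A.1 1 0 := by
  have e : B * mX ^ N = mX ^ N * A := by rw [h, inv_mul_cancel_right]
  have e2 : B.1 * (mX ^ N).1 = (mX ^ N * A).1 := congrArg Subtype.val e
  have e3 := mX_pow N 1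
  rw [mul_one] at e3
  rw [mX_pow, e3] at e2
  have e00 := congrFun (congrFun e2 0) 0
  have e01 := congrFun (congrFun e2 0) 1
  have e10 := congrFun (congrFun e2 1) 0
  have e11 := congrFun (congrFun e2 1) 1
  simp [Matrix.mul_apply, Fin.sum_univ_two] at e00 e01 e10 e11
  rw [e00] at e01
  rw [e10] at e11
  exact ⟨e00, e10, by linarith, by linarith⟩

theorem conjY (N : ℕ) {A B : SpecialLinearGroup (Fin 2) ℤ} (h : B = mY ^ N * A * (mY ^ N)⁻¹) :
    B.1 0 0 = A.1 0 0 - 3 * N * A.1 0 1 ∧ B.1 0 1 = A.1 0 1 ∧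
    B.1 1 0 = 3 * N * A.1 0 0 + A.1 1 0 - 3 * N * (3 * N * A.1 0 1 + A.1 1 1) ∧
    B.1 1 1 = 3 * N * A.1 0 1 + A.1 1 1 := by
  have e : B * mY ^ N = mY ^ N * A := by rw [h, inv_mul_cancel_right]
  have e2 : B.1 * (mY ^ N).1 = (mY ^ N * A).1 := congrArg Subtype.val e
  have e3 := mY_pow N 1
  rw [mul_one] at e3
  rw [mY_pow, e3] at e2
  have e00 := congrFun (congrFun e2 0) 0
  have e01 := congrFun (congrFun e2 0) 1
  have e10 := congrFun (congrFun e2 1) 0
  have e11 := congrFun (congrFun e2 1) 1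
  simp [Matrix.mul_apply, Fin.sum_univ_two] at e00 e01 e10 e11
  rw [e01] at e00
  rw [e11] at e10
  exact ⟨by linarith, e01, by linarith, e11⟩

theorem free_noncomm (N : ℕ) (hN : 0 < N) (k k' : FreeGroup (Fin 2)) (hk : k ≠ 1) (hk' : k' ≠ 1) :
    ∃ g : FreeGroup (Fin 2), ¬ Commute k (g ^ N * k' * (g ^ N)⁻¹) := by
  by_contra hcon
  push Not at hcon
  set K := FreeGroup.lift mG k with hK
  set A := FreeGroup.lift mG k' with hA
  have hc : ∀ g : FreeGroup (Fin 2), Commute K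
      (FreeGroup.lift mG g ^ N * A * (FreeGroup.lift mG g ^ N)⁻¹) := by
    intro g
    have h := (hcon g).map (FreeGroup.lift mG)
    rwa [map_mul, map_mul, map_inv, map_pow, ← hA, ← hK] at h
  have c1 : Commute K A := by
    have h := hc 1
    rwa [map_one, one_pow, one_mul, inv_one, mul_one] at h
  have gx : FreeGroup.lift mG (FreeGroup.of 0) = mX := by
    rw [FreeGroup.lift_apply_of]; rfl
  have gy : FreeGroup.lift mG (FreeGroup.of 1) = mY := by
    rw [FreeGroup.lift_apply_of]; rfl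
  have cx := hc (FreeGroup.of 0)
  have cy := hc (FreeGroup.of 1)
  rw [gx] at cx
  rw [gy] at cy
  have rx := par_trans (vec_ne hk) (comm_rel c1) (comm_rel cx)
  have ry := par_trans (vec_ne hk) (comm_rel c1) (comm_rel cy)
  obtain ⟨x00, x10, x01, x11⟩ := conjX N (A := A) rfl
  obtain ⟨y00, y01, y10, y11⟩ := conjY N (A := A) rfl
  have v0 : ∀ A, vec A 0 = A.1 0 1 := fun _ => rfl
  have v1 : ∀ A, vec A 1 = A.1 1 0 := fun _ => rfl
  have v2 : ∀ A, vec A 2 = A.1 0 0 - A.1 1 1 := fun _ => rfl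
  have hNz : (N : ℤ) ≠ 0 := by exact_mod_cast hN.ne'
  have hr : A.1 1 0 = 0 := by
    have h := rx 2 1
    rw [v2, v1, v1, v2, x10, x00, x11] at h
    have h2 : (6 * (N : ℤ)) * (A.1 1 0 * A.1 1 0) = 0 := by linarith
    rcases mul_eq_zero.1 h2 with h3 | h3
    · exact absurd h3 (mul_ne_zero (by norm_num) hNz)
    · exact mul_self_eq_zero.1 h3
  have hq : A.1 0 1 = 0 := by
    have h := ry 2 0
    rw [v2, v0, v0, v2, y01, y00, y11] at h
    have h2 : (6 * (N : ℤ)) * (A.1 0 1 * A.1 0 1) = 0 := by linarith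
    rcases mul_eq_zero.1 h2 with h3 | h3
    · exact absurd h3 (mul_ne_zero (by norm_num) hNz)
    · exact mul_self_eq_zero.1 h3
  have hp : A.1 0 0 - A.1 1 1 = 0 := by
    have h := rx 2 0
    rw [v2, v0, v0, v2, x01, x00, x11, hr, hq] at h
    have h2 : (3 * (N : ℤ)) * ((A.1 0 0 - A.1 1 1) * (A.1 0 0 - A.1 1 1)) = 0 := by linarith
    rcases mul_eq_zero.1 h2 with h3 | h3
    · exact absurd h3 (mul_ne_zero (by norm_num) hNz)
    · exact mul_self_eq_zero.1 h3
  apply vec_ne hk'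
  rw [← hA]
  have h3 : ∀ i : Fin 3, i = 0 ∨ i = 1 ∨ i = 2 := by decide
  funext i
  rcases h3 i with rfl | rfl | rfl
  · rw [v0, hq]; rfl
  · rw [v1, hr]; rfl
  · rw [v2, hp]; rfl

end Pool.Agent.Helper52.NA
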