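import Pool.Agent.Helper52.NA.Contr
import Pool.Agent.Helper52.NA.Free

/-!
# The group has no free subgroup of rank two
-/

namespace Pool.Agent.Helper52.NA

open Finset

section
variable {H X : Type} [Group H] [Fintype H] [MulAction H X] [Fintype X] [DecidableEq X]
    {RA RC RD : Finset X}

omit [Fintype H] in
/-- a power of every element is trivial on the words of length `n` -/
theorem exists_pow_level (n : ℕ) : ∃ N : ℕ, 0 < N ∧ ∀ g : GT H RA RC RD, ∀ v : List X,
    v.length = n → ((g ^ N : GT H RA RC RD) : Equiv.Perm (List X)) v = v := by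
  classical
  have hfin : Finite {l : List X // l.length = n} := inferInstanceAs (Finite (List.Vector X n))
  have := Fintype.ofFinite {l : List X // l.length = n}
  refine ⟨Fintype.card (Equiv.Perm {l : List X // l.length = n}), Fintype.card_pos, ?_⟩
  intro g v hv
  have hg : ∀ l : List X, ((g : Equiv.Perm (List X)) l).length = n ↔ l.length = n := by
    intro l; rw [GT_length]
  have h1 := pow_card_eq_one (x := Equiv.Perm.subtypePerm (p := fun l : List X => l.length = n)
    (g : Equiv.Perm (List X)) hg)
  rw [Equiv.Perm.subtypePerm_pow] at h1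
  have h2 := congrArg (fun f : Equiv.Perm {l : List X // l.length = n} => (f ⟨v, hv⟩ : List X)) h1
  simpa using h2

/-- the elements which are trivial on level `n` and fix all extensions of the words in `L` -/
def FixL (φ : FreeGroup (Fin 2) →* GT H RA RC RD) (n : ℕ) (L : List (List X))
    (k : FreeGroup (Fin 2)) : Prop :=
  (∀ v : List X, v.length = n → (φ k : Equiv.Perm (List X)) v = v) ∧
    ∀ v ∈ L, ∀ u : List X, (φ k : Equiv.Perm (List X)) (v ++ u) = v ++ u

omit [Fintype H] in
theorem exists_FixL (φ : FreeGroup (Fin 2) →* GT H RA RC RD) (n : ℕ)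
    (h : ∀ v : List X, v.length = n → ∃ k : FreeGroup (Fin 2), k ≠ 1 ∧
      ∀ u : List X, (φ k : Equiv.Perm (List X)) (v ++ u) = v ++ u) (L : List (List X))
    (hL : ∀ v ∈ L, v.length = n) : ∃ k, k ≠ 1 ∧ FixL φ n L k := by
  obtain ⟨N, hN, hNt⟩ := exists_pow_level (H := H) (X := X) (RA := RA) (RC := RC) (RD := RD) n
  have tf : ∀ k : FreeGroup (Fin 2), k ≠ 1 → k ^ N ≠ 1 := by
    intro k hk hkN
    exact hk (pow_left_injective hN.ne' (by simpa using hkN))
  induction L with
  | nil =>
    refine ⟨FreeGroup.of 0 ^ N, tf _ (FreeGroup.of_ne_one 0), ?_, by simp⟩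
    intro v hv
    rw [map_pow]
    exact hNt _ v hv
  | cons v L ih =>
    obtain ⟨k, hk1, hk2, hk3⟩ := ih fun w hw => hL w (List.mem_cons_of_mem _ hw)
    have hv : v.length = n := hL v List.mem_cons_self
    obtain ⟨k0, hk01, hk02⟩ := h v hv
    -- pass to the power
    have hpow : ∀ u : List X, (φ (k0 ^ N) : Equiv.Perm (List X)) (v ++ u) = v ++ u := by
      intro u
      have : ∀ m : ℕ, (φ (k0 ^ m) : Equiv.Perm (List X)) (v ++ u) = v ++ u := by
        intro m
        induction m with
        | zero => simp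
        | succ m ihm => rw [pow_succ, map_mul, Subgroup.coe_mul, Equiv.Perm.mul_apply, hk02, ihm]
      exact this N
    obtain ⟨g, hg⟩ := free_noncomm N hN k (k0 ^ N) hk1 (tf _ hk01)
    -- level triviality of g ^ N and the conjugate
    have hgN : ∀ w : List X, w.length = n → (φ (g ^ N) : Equiv.Perm (List X)) w = w := by
      intro w hw; rw [map_pow]; exact hNt _ w hw
    have hk0N : ∀ w : List X, w.length = n → (φ (k0 ^ N) : Equiv.Perm (List X)) w = w := by
      intro w hw; rw [map_pow]; exact hNt _ w hw
    -- inverses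
    have inv_level : ∀ a : FreeGroup (Fin 2),
        (∀ w : List X, w.length = n → (φ a : Equiv.Perm (List X)) w = w) →
        ∀ w : List X, w.length = n → (φ a⁻¹ : Equiv.Perm (List X)) w = w := by
      intro a ha w hw
      rw [map_inv, Subgroup.coe_inv, Equiv.Perm.inv_eq_iff_eq, ha w hw]
    have mul_level : ∀ a b : FreeGroup (Fin 2),
        (∀ w : List X, w.length = n → (φ a : Equiv.Perm (List X)) w = w) →
        (∀ w : List X, w.length = n → (φ b : Equiv.Perm (List X)) w = w) →
        ∀ w : List X, w.length = n → (φ (a * b) : Equiv.Perm (List X)) w = w := by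
      intro a b ha hb w hw
      rw [map_mul, Subgroup.coe_mul, Equiv.Perm.mul_apply, hb w hw, ha w hw]
    -- level-trivial elements map extensions to extensions
    have ext_level : ∀ a : FreeGroup (Fin 2),
        (∀ w : List X, w.length = n → (φ a : Equiv.Perm (List X)) w = w) →
        ∀ w : List X, w.length = n → ∀ u : List X,
          ∃ u' : List X, (φ a : Equiv.Perm (List X)) (w ++ u) = w ++ u' := by
      intro a ha w hw u
      obtain ⟨u', hu'⟩ := GT_append (φ a) w u
      exact ⟨u', by rw [hu', ha w hw]⟩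
    set k1 : FreeGroup (Fin 2) := g ^ N * k0 ^ N * (g ^ N)⁻¹ with hk1def
    have hk1l : ∀ w : List X, w.length = n → (φ k1 : Equiv.Perm (List X)) w = w :=
      mul_level _ _ (mul_level _ _ hgN hk0N) (inv_level _ hgN)
    have hk1v : ∀ u : List X, (φ k1 : Equiv.Perm (List X)) (v ++ u) = v ++ u := by
      intro u
      obtain ⟨u', hu'⟩ := ext_level _ (inv_level _ hgN) v hv u
      rw [hk1def, map_mul, map_mul, Subgroup.coe_mul, Subgroup.coe_mul, Equiv.Perm.mul_apply,
        Equiv.Perm.mul_apply, hu', hpow, ← hu', map_inv, Subgroup.coe_inv]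
      exact Equiv.apply_symm_apply _ _
    -- fixed by a → fixed by a⁻¹
    have inv_fix : ∀ a : FreeGroup (Fin 2), ∀ l : List X, (φ a : Equiv.Perm (List X)) l = l →
        (φ a⁻¹ : Equiv.Perm (List X)) l = l := by
      intro a l hl
      rw [map_inv, Subgroup.coe_inv, Equiv.Perm.inv_eq_iff_eq, hl]
    have cancel : ∀ a : FreeGroup (Fin 2), ∀ l : List X,
        (φ a : Equiv.Perm (List X)) ((φ a⁻¹ : Equiv.Perm (List X)) l) = l := by
      intro a l
      rw [map_inv, Subgroup.coe_inv]
      exact Equiv.apply_symm_apply _ _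
    refine ⟨k * k1 * k⁻¹ * k1⁻¹, ?_, ?_, ?_⟩
    · intro hcomm
      apply hg
      show k * k1 = k1 * k
      rw [mul_inv_eq_one, mul_inv_eq_iff_eq_mul] at hcomm
      exact hcomm
    · exact mul_level _ _ (mul_level _ _ (mul_level _ _ hk2 hk1l) (inv_level _ hk2))
        (inv_level _ hk1l)
    · intro w hw u
      rw [map_mul, map_mul, map_mul, Subgroup.coe_mul, Subgroup.coe_mul, Subgroup.coe_mul,
        Equiv.Perm.mul_apply, Equiv.Perm.mul_apply, Equiv.Perm.mul_apply]
      rcases List.mem_cons.1 hw with rfl | hw'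
      · obtain ⟨u', hu'⟩ := ext_level _ (inv_level _ hk2) w hv u
        rw [inv_fix k1 _ (hk1v u), hu', hk1v u', ← hu', cancel]
      · have hwn : w.length = n := hL w (List.mem_cons_of_mem _ hw')
        obtain ⟨u', hu'⟩ := ext_level _ (inv_level _ hk1l) w hwn u
        rw [hu', inv_fix k _ (hk3 w hw' u'), ← hu', cancel, hk3 w hw' u]

omit [Fintype H] in
/-- some word of length `n` has no non-trivial element fixing all its extensions -/
theorem exists_free_word [Nonempty X] (φ : FreeGroup (Fin 2) →* GT H RA RC RD)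
    (hφ : Function.Injective φ) (n : ℕ) : ∃ v : List X, v.length = n ∧
      ∀ k : FreeGroup (Fin 2), (∀ u : List X, (φ k : Equiv.Perm (List X)) (v ++ u) = v ++ u) →
        k = 1 := by
  classical
  by_contra hcon
  push Not at hcon
  have h : ∀ v : List X, v.length = n → ∃ k : FreeGroup (Fin 2), k ≠ 1 ∧
      ∀ u : List X, (φ k : Equiv.Perm (List X)) (v ++ u) = v ++ u := by
    intro v hv
    obtain ⟨k, hk, hk1⟩ := hcon v hv
    exact ⟨k, hk1, hk⟩
  have hfin : Finite {l : List X // l.length = n} := inferInstanceAs (Finite (List.Vector X n))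
  have := Fintype.ofFinite {l : List X // l.length = n}
  obtain ⟨k, hk1, hk2, hk3⟩ := exists_FixL φ n h
    ((Finset.univ : Finset {l : List X // l.length = n}).toList.map Subtype.val) (by
      intro v hv
      obtain ⟨w, -, rfl⟩ := List.mem_map.1 hv
      exact w.2)
  have hk4 : ∀ v : List X, v.length = n → ∀ u : List X,
      (φ k : Equiv.Perm (List X)) (v ++ u) = v ++ u := by
    intro v hv
    apply hk3 v
    rw [List.mem_map]
    exact ⟨⟨v, hv⟩, by simp, rfl⟩
  apply hk1
  apply hφ
  rw [map_one]
  apply Subtype.ext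
  ext1 l
  rw [Subgroup.coe_one, Equiv.Perm.one_apply]
  by_cases hl : n ≤ l.length
  · have := hk4 (l.take n) (by rw [List.length_take]; omega) (l.drop n)
    rwa [List.take_append_drop] at this
  · obtain ⟨x⟩ := ‹Nonempty X›
    have h1 := hk4 (l ++ List.replicate (n - l.length) x) (by simp; omega) []
    rw [List.append_nil] at h1
    obtain ⟨u', hu'⟩ := GT_append (φ k) l (List.replicate (n - l.length) x)
    rw [hu'] at h1
    exact (List.append_inj h1 (GT_length _ _)).1

theorem exists_big (a b c : ℕ) : ∃ m : ℕ, a * (m + c) + b < 2 ^ m := by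
  refine ⟨2 * (2 * a + a * c + b + 1), ?_⟩
  set k := 2 * a + a * c + b + 1 with hk
  have h1 : k < 2 ^ k := Nat.lt_two_pow_self
  have h2 : k * k < 2 ^ (2 * k) := by
    rw [two_mul, pow_add]
    exact Nat.mul_lt_mul'' h1 h1
  have h3 : a * (2 * k + c) + b ≤ k * k := by
    have h4 : 1 ≤ k := by omega
    have h5 : k * k = 2 * a * k + (a * c + b) * k + k := by
      conv_lhs => rw [hk]
      ring
    have h6 : a * c + b ≤ (a * c + b) * k := Nat.le_mul_of_pos_right _ h4
    nlinarith
  exact lt_of_le_of_lt h3 h2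

/-- the group does not contain a free subgroup of rank two -/
theorem no_free [Nonempty X] (hAC : Disjoint RA RC) (hAD : Disjoint RA RD) (hCD : Disjoint RC RD) :
    ¬ ∃ φ : FreeGroup (Fin 2) →* GT H RA RC RD, Function.Injective φ := by
  classical
  rintro ⟨φ, hφ⟩
  obtain ⟨Nuc, hNuc⟩ := contraction (H := H) hAC hAD hCD
  obtain ⟨C, hC⟩ := hNuc fun i => φ (FreeGroup.of i)
  -- the product is the image of the positive word
  have hprod : ∀ (R : ℕ) (w : Fin R → Fin 2),
      (List.ofFn fun i => φ (FreeGroup.of (w i))).prod =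
        φ (List.ofFn fun i => FreeGroup.of (w i)).prod := by
    intro R w
    rw [map_list_prod, List.map_ofFn]
    rfl
  -- the count
  have key : ∀ n R : ℕ, C * R ≤ 2 ^ n → 2 ^ R ≤ Fintype.card X ^ n * Nuc.card := by
    intro n R hnR
    obtain ⟨v, hv, hfree⟩ := exists_free_word φ hφ n
    have hs := fun w : Fin R → Fin 2 => hC n R hnR w v hv
    choose s hsN hs using hs
    simp only [hprod] at hs
    have hinj : Function.Injective (fun w : Fin R → Fin 2 =>
        ((⟨(φ (List.ofFn fun i => FreeGroup.of (w i)).prod : Equiv.Perm (List X)) v,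
          by rw [GT_length]; exact hv⟩, ⟨s w, hsN w⟩) :
          List.Vector X n × {t // t ∈ Nuc})) := by
      intro w w' hww
      have h1 : (φ (List.ofFn fun i => FreeGroup.of (w i)).prod : Equiv.Perm (List X)) v =
          (φ (List.ofFn fun i => FreeGroup.of (w' i)).prod : Equiv.Perm (List X)) v :=
        congrArg Subtype.val (Prod.ext_iff.1 hww).1
      have h2 : s w = s w' := congrArg Subtype.val (Prod.ext_iff.1 hww).2
      apply pos_words R
      show (List.ofFn fun i => FreeGroup.of (w i)).prod =
        (List.ofFn fun i => FreeGroup.of (w' i)).prod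
      have h3 := hfree ((List.ofFn fun i => FreeGroup.of (w' i)).prod⁻¹ *
        (List.ofFn fun i => FreeGroup.of (w i)).prod) (by
          intro u
          rw [map_mul, map_inv, Subgroup.coe_mul, Subgroup.coe_inv, Equiv.Perm.mul_apply,
            Equiv.Perm.inv_eq_iff_eq, hs w u, hs w' u, h1, h2])
      rw [inv_mul_eq_one] at h3
      exact h3.symm
    have h4 := Fintype.card_le_of_injective _ hinj
    rw [Fintype.card_prod, Fintype.card_fun, Fintype.card_fin, Fintype.card_fin, card_vector,
      Fintype.card_coe] at h4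
    exact h4
  -- contradiction for large `R`
  obtain ⟨m, hm⟩ := exists_big (Fintype.card X) Nuc.card C
  have h1 := key (m + C) (2 ^ m) (by
    rw [pow_add, mul_comm]
    exact Nat.mul_le_mul_left _ Nat.lt_two_pow_self.le)
  have h2 : Fintype.card X ^ (m + C) * Nuc.card ≤ 2 ^ (Fintype.card X * (m + C) + Nuc.card) := by
    rw [pow_add 2, pow_mul]
    exact Nat.mul_le_mul (Nat.pow_le_pow_left Nat.lt_two_pow_self.le _) Nat.lt_two_pow_self.le
  have h3 : 2 ^ (Fintype.card X * (m + C) + Nuc.card) < 2 ^ (2 ^ m) :=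
    Nat.pow_lt_pow_right (by norm_num) hm
  omega

end

end Pool.Agent.Helper52.NA
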