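import Pool.Agent.Helper52.NA.Prefix

/-!
# The parameters exist: `H = Alt(63)^m` acting on words of length `m` over 63 points
-/

namespace Pool.Agent.Helper52.NA

open Finset

namespace Param

section Count

variable {G A : Type*} [Group G] [MulAction G A]

theorem card_trans_nat [MulAction.IsPretransitive G A] (a b : A) :
    Nat.card {g : G // g • a = b} * Nat.card A = Nat.card G := by
  obtain ⟨g0, hg0⟩ := MulAction.exists_smul_eq G a b
  have e : {g : G // g • a = b} ≃ MulAction.stabilizer G a :=
    { toFun := fun g => ⟨g0⁻¹ * g.1, by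
        rw [MulAction.mem_stabilizer_iff, mul_smul, g.2, ← hg0, inv_smul_smul]⟩
      invFun := fun s => ⟨g0 * s.1, by
        rw [mul_smul, MulAction.mem_stabilizer_iff.1 s.2, hg0]⟩
      left_inv := fun g => by ext; simp
      right_inv := fun s => by ext; simp }
  rw [Nat.card_congr e, ← MulAction.index_stabilizer_of_transitive G a]
  exact Subgroup.card_mul_index _

theorem card_pair_nat [Finite A] [Finite G] (h2 : MulAction.IsMultiplyPretransitive G A 2)
    (a a' b b' : A) (h : a ≠ a') :
    Nat.card {g : G // g • a = b ∧ g • a' = b'} * (Nat.card A * (Nat.card A - 1)) ≤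
      Nat.card G := by
  by_cases hb : b = b'
  · have : IsEmpty {g : G // g • a = b ∧ g • a' = b'} :=
      ⟨fun g => h (by
        have h1 := g.2.1
        have h2 := g.2.2
        exact smul_left_cancel g.1 (h1.trans (hb.trans h2.symm)))⟩
    simp
  · let f : Fin 2 ↪ A := ⟨![a, a'], by
      intro i j hij
      fin_cases i <;> fin_cases j <;> simp_all [eq_comm]⟩
    let f' : Fin 2 ↪ A := ⟨![b, b'], by
      intro i j hij
      fin_cases i <;> fin_cases j <;> simp_all [eq_comm]⟩
    have hc := card_trans_nat (G := G) f f'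
    have e : {g : G // g • a = b ∧ g • a' = b'} ≃ {g : G // g • f = f'} := by
      refine Equiv.subtypeEquivRight fun g => ?_
      constructor
      · rintro ⟨h1, h2⟩
        ext i
        fin_cases i
        · exact h1
        · exact h2
      · intro hg
        have h0 := DFunLike.congr_fun hg 0
        have h1 := DFunLike.congr_fun hg 1
        exact ⟨h0, h1⟩
    rw [← Nat.card_congr e] at hc
    have hA : Nat.card (Fin 2 ↪ A) = Nat.card A * (Nat.card A - 1) := by
      classical
      haveI := Fintype.ofFinite A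
      rw [Nat.card_eq_fintype_card, Fintype.card_embedding_eq, Nat.card_eq_fintype_card,
        Fintype.card_fin, Nat.descFactorial_succ, Nat.descFactorial_succ, Nat.descFactorial_zero]
      simp [mul_comm]
    rw [← hA]
    exact hc.le

theorem pi_pretransitive {ι : Type*} [MulAction.IsPretransitive G A] :
    MulAction.IsPretransitive (ι → G) (ι → A) := by
  refine ⟨fun x y => ?_⟩
  choose g hg using fun i => MulAction.exists_smul_eq G (x i) (y i)
  exact ⟨g, funext fun i => hg i⟩

theorem card_pair_pi {ι : Type*} [Fintype ι] [Finite A] [Finite G]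
    (h2 : MulAction.IsMultiplyPretransitive G A 2) (x x' y y' : ι → A) (h : ∀ i, x i ≠ x' i) :
    Nat.card {g : ι → G // g • x = y ∧ g • x' = y'} *
      (Nat.card A * (Nat.card A - 1)) ^ Fintype.card ι ≤ Nat.card (ι → G) := by
  have e : {g : ι → G // g • x = y ∧ g • x' = y'} ≃
      (∀ i, {g : G // g • x i = y i ∧ g • x' i = y' i}) := by
    refine (Equiv.subtypeEquivRight (q := fun g : ι → G =>
      ∀ i, g i • x i = y i ∧ g i • x' i = y' i) fun g => ?_).trans
        (Equiv.subtypePiEquivPi (p := fun i g => g • x i = y i ∧ g • x' i = y' i))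
    constructor
    · rintro ⟨h1, h2⟩ i
      exact ⟨congrFun h1 i, congrFun h2 i⟩
    · intro h
      exact ⟨funext fun i => (h i).1, funext fun i => (h i).2⟩
  rw [Nat.card_congr e, Nat.card_pi, Nat.card_pi, Fintype.card, ← Finset.prod_const,
    ← Finset.prod_mul_distrib]
  exact Finset.prod_le_prod' fun i _ => card_pair_nat h2 _ _ _ _ (h i)

end Count

section Comm

/-- the commutator of a pair -/
def cm {G : Type*} [Group G] (t : G × G) : G := t.1 * t.2 * t.1⁻¹ * t.2⁻¹

theorem exists_list {G : Type*} [Group G] (hperf : commutator G = ⊤) (g : G) :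
    ∃ l : List (G × G), g = (l.map cm).prod := by
  have hg : g ∈ Subgroup.closure (commutatorSet G) := by
    rw [← commutator_eq_closure, hperf]; trivial
  induction hg using Subgroup.closure_induction with
  | mem x hx =>
    obtain ⟨a, b, rfl⟩ := hx
    exact ⟨[(a, b)], by simp [cm, commutatorElement_def]⟩
  | one => exact ⟨[], by simp⟩
  | mul x y _ _ hx hy =>
    obtain ⟨l, rfl⟩ := hx
    obtain ⟨l', rfl⟩ := hy
    exact ⟨l ++ l', by simp⟩
  | inv x _ hx =>
    obtain ⟨l, rfl⟩ := hx
    refine ⟨(l.map Prod.swap).reverse, ?_⟩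
    clear * -
    induction l with
    | nil => simp
    | cons t l ih =>
      rw [List.map_cons, List.prod_cons, mul_inv_rev, ih]
      simp [cm, mul_assoc]

/-- finite perfect groups have finite commutator width, uniformly in powers -/
theorem exists_width {G : Type*} [Group G] [Finite G] (hperf : commutator G = ⊤) :
    ∃ w : ℕ, 1 ≤ w ∧ ∀ g : G, ∃ f : Fin w → G × G, g = (List.ofFn fun k => cm (f k)).prod := by
  classical
  haveI := Fintype.ofFinite G
  choose l hl using exists_list hperf
  refine ⟨(univ.sup fun g => (l g).length) + 1, by omega, fun g => ?_⟩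
  set w := (univ.sup fun g => (l g).length) + 1 with hw
  have hlw : (l g).length ≤ w := by
    have := Finset.le_sup (f := fun g => (l g).length) (Finset.mem_univ g)
    omega
  have key : ∀ (L : List (G × G)) (w : ℕ), L.length ≤ w →
      ∃ f : Fin w → G × G, (L.map cm).prod = (List.ofFn fun k => cm (f k)).prod := by
    intro L
    induction L with
    | nil =>
      intro w _
      refine ⟨fun _ => (1, 1), ?_⟩
      simp [cm]
    | cons t L ih =>
      intro w hw
      obtain ⟨w, rfl⟩ : ∃ w', w = w' + 1 := ⟨w - 1, by simp at hw; omega⟩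
      obtain ⟨f, hf⟩ := ih w (by simpa using hw)
      refine ⟨Fin.cons t f, ?_⟩
      rw [List.ofFn_succ]
      simp [hf]
  obtain ⟨f, hf⟩ := key (l g) w hlw
  exact ⟨f, (hl g).trans hf⟩

theorem exists_list_pi {G ι : Type*} [Group G] {w : ℕ}
    (hw : ∀ g : G, ∃ f : Fin w → G × G, g = (List.ofFn fun k => cm (f k)).prod) (h : ι → G) :
    ∃ l : List ((ι → G) × (ι → G)), l.length ≤ w ∧
      h = (l.map fun t => t.1 * t.2 * t.1⁻¹ * t.2⁻¹).prod := by
  choose f hf using fun i => hw (h i)
  refine ⟨List.ofFn fun k => (fun i => (f i k).1, fun i => (f i k).2), by simp, ?_⟩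
  funext i
  rw [hf i, List.map_ofFn]
  have := map_list_prod (Pi.evalMonoidHom (fun _ : ι => G) i)
    (List.ofFn ((fun t : (ι → G) × (ι → G) => t.1 * t.2 * t.1⁻¹ * t.2⁻¹) ∘
      fun k => (fun i => (f i k).1, fun i => (f i k).2)))
  rw [Pi.evalMonoidHom_apply] at this
  rw [this, List.map_ofFn]
  rfl

end Comm

theorem par_transport {H X X' : Type} [Group H] [Fintype H] [MulAction H X] [Fintype X]
    [DecidableEq X] [MulAction H X'] [Fintype X'] [DecidableEq X'] (e : X ≃ X')
    (he : ∀ (h : H) x, e (h • x) = h • e x) {RA RC RD : Finset X} {r w : ℕ} {θ : ℝ}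
    (P : Par (H := H) RA RC RD r w θ) :
    Par (H := H) (RA.map e.toEmbedding) (RC.map e.toEmbedding) (RD.map e.toEmbedding) r w θ where
  cardA := by rw [card_map]; exact P.cardA
  cardC := by rw [card_map]; exact P.cardC
  cardD := by rw [card_map]; exact P.cardD
  dAC := by rw [disjoint_map]; exact P.dAC
  dAD := by rw [disjoint_map]; exact P.dAD
  dCD := by rw [disjoint_map]; exact P.dCD
  trans := by
    intro x y
    rw [← P.trans (e.symm x) (e.symm y), Fintype.card_congr e]
    congr 3
    ext g
    simp only [mem_filter, mem_univ, true_and]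
    rw [Equiv.eq_symm_apply, he, Equiv.apply_symm_apply]
  pair := by
    intro x hx x' hx' hxx y y'
    have h1 : e.symm x ∈ RA ∪ RC ∪ RD := by
      rw [← map_union, ← map_union, mem_map_equiv] at hx; exact hx
    have h2 : e.symm x' ∈ RA ∪ RC ∪ RD := by
      rw [← map_union, ← map_union, mem_map_equiv] at hx'; exact hx'
    have := P.pair _ h1 _ h2 (fun h => hxx (e.symm.injective h)) (e.symm y) (e.symm y')
    rw [← Fintype.card_congr e]
    refine le_trans (le_of_eq ?_) this
    congr 3
    ext g
    simp only [mem_filter, mem_univ, true_and]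
    rw [Equiv.eq_symm_apply, Equiv.eq_symm_apply, he, he, Equiv.apply_symm_apply,
      Equiv.apply_symm_apply]
  comm := P.comm
  w_pos := P.w_pos
  θ_nonneg := P.θ_nonneg
  small := P.small
  big := P.big

theorem exists_par_gen (G : Type) [Group G] [Fintype G] [MulAction G (Fin 63)]
    (h2 : MulAction.IsMultiplyPretransitive G (Fin 63) 2) (hperf : commutator G = ⊤) :
    ∃ (m r w : ℕ) (RA RC RD : Finset (Fin m → Fin 63)) (θ : ℝ),
      Par (H := Fin m → G) RA RC RD r w θ := by
  obtain ⟨w, hw1, hw⟩ := exists_width hperf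
  -- the number of coordinates
  obtain ⟨m, hm⟩ : ∃ m : ℕ, 256 * (w : ℝ) ^ 2 * (21 : ℕ) ^ 2 * (1 / 62) ^ (m + 1) ≤ 1 := by
    have hpos : 0 < 256 * (w : ℝ) ^ 2 * (21 : ℕ) ^ 2 := by positivity
    obtain ⟨m, hm⟩ := exists_pow_lt_of_lt_one (inv_pos.2 hpos) (show (1 / 62 : ℝ) < 1 by norm_num)
    refine ⟨m, ?_⟩
    have h3 : (1 / 62 : ℝ) ^ (m + 1) ≤ (1 / 62 : ℝ) ^ m :=
      pow_le_pow_of_le_one (by norm_num) (by norm_num) (by omega)
    calc 256 * (w : ℝ) ^ 2 * (21 : ℕ) ^ 2 * (1 / 62) ^ (m + 1)
        ≤ 256 * (w : ℝ) ^ 2 * (21 : ℕ) ^ 2 * (256 * (w : ℝ) ^ 2 * (21 : ℕ) ^ 2)⁻¹ :=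
          mul_le_mul_of_nonneg_left (h3.trans hm.le) hpos.le
      _ = 1 := mul_inv_cancel₀ hpos.ne'
  let c : Fin 63 ↪ (Fin (m + 1) → Fin 63) := ⟨fun i _ => i, fun i j h => congrFun h 0⟩
  haveI : MulAction.IsPretransitive G (Fin 63) :=
    MulAction.isPretransitive_of_is_two_pretransitive
  refine ⟨m + 1, 21, w, (univ.filter fun i : Fin 63 => i.1 < 21).map c,
    (univ.filter fun i : Fin 63 => 21 ≤ i.1 ∧ i.1 < 42).map c,
    (univ.filter fun i : Fin 63 => 42 ≤ i.1).map c, (1 / 62) ^ (m + 1), ?_⟩
  refine ⟨?_, ?_, ?_, ?_, ?_, ?_, ?_, ?_, ?_, hw1, by positivity, hm, le_rfl⟩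
  · rw [card_map]; decide
  · rw [card_map]; decide
  · rw [card_map]; decide
  · rw [disjoint_map, Finset.disjoint_left]
    intro i hi hi'
    simp only [mem_filter, mem_univ, true_and] at hi hi'
    omega
  · rw [disjoint_map, Finset.disjoint_left]
    intro i hi hi'
    simp only [mem_filter, mem_univ, true_and] at hi hi'
    omega
  · rw [disjoint_map, Finset.disjoint_left]
    intro i hi hi'
    simp only [mem_filter, mem_univ, true_and] at hi hi'
    omega
  · intro x y
    haveI := pi_pretransitive (G := G) (A := Fin 63) (ι := Fin (m + 1))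
    have h := card_trans_nat (G := Fin (m + 1) → G) x y
    rw [Nat.card_eq_fintype_card (α := Fin (m + 1) → Fin 63),
      Nat.card_eq_fintype_card (α := Fin (m + 1) → G)] at h
    rw [← h, Nat.card_eq_fintype_card, Fintype.card_subtype]
    push_cast
    rfl
  · intro x hx x' hx' hxx y y'
    rw [← map_union, ← map_union, mem_map] at hx hx'
    obtain ⟨i, -, rfl⟩ := hx
    obtain ⟨i', -, rfl⟩ := hx'
    have hne : i ≠ i' := fun h => hxx (by rw [h])
    have h := card_pair_pi (ι := Fin (m + 1)) h2 (c i) (c i') y y' (fun _ => hne)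
    rw [Nat.card_eq_fintype_card (α := Fin (m + 1) → G), Nat.card_eq_fintype_card,
      Fintype.card_subtype, Nat.card_eq_fintype_card (α := Fin 63), Fintype.card_fin,
      Fintype.card_fin] at h
    have h' : ((univ.filter fun g : Fin (m + 1) → G => g • c i = y ∧ g • c i' = y').card : ℝ) *
        (63 * 62) ^ (m + 1) ≤ (Fintype.card (Fin (m + 1) → G) : ℝ) := by
      have := (Nat.cast_le (α := ℝ)).2 h
      push_cast at this ⊢
      norm_num at this ⊢
      exact this
    have hX : (Fintype.card (Fin (m + 1) → Fin 63) : ℝ) = 63 ^ (m + 1) := by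
      rw [Fintype.card_fun, Fintype.card_fin, Fintype.card_fin]; push_cast; rfl
    rw [hX, div_pow, one_pow, div_mul_eq_mul_div, one_mul, le_div_iff₀ (by positivity),
      mul_assoc, ← mul_pow]
    exact h'
  · exact exists_list_pi hw

end Param

theorem exists_par : ∃ (n : ℕ) (H : Type) (_ : Group H) (_ : Fintype H) (_ : MulAction H (Fin n))
    (RA RC RD : Finset (Fin n)) (r w : ℕ) (θ : ℝ), Par (H := H) RA RC RD r w θ := by
  have hcard : Nat.card (Fin 63) = 63 := Nat.card_fin 63
  have h2 : MulAction.IsMultiplyPretransitive (alternatingGroup (Fin 63)) (Fin 63) 2 := by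
    haveI := alternatingGroup.isMultiplyPretransitive (Fin 63)
    exact MulAction.isMultiplyPretransitive_of_le (n := Nat.card (Fin 63) - 2)
      (by rw [hcard]; norm_num) (Nat.sub_le _ _)
  obtain ⟨m, r, w, RA, RC, RD, θ, P⟩ := Param.exists_par_gen (alternatingGroup (Fin 63)) h2
    (commutator_alternatingGroup_eq_top (by rw [hcard]; norm_num))
  let e := Fintype.equivFin (Fin m → Fin 63)
  let inst : MulAction (Fin m → alternatingGroup (Fin 63))
      (Fin (Fintype.card (Fin m → Fin 63))) :=
    { smul := fun h x => e (h • e.symm x)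
      one_smul := fun x => by
        change e ((1 : Fin m → alternatingGroup (Fin 63)) • e.symm x) = x
        rw [one_smul, Equiv.apply_symm_apply]
      mul_smul := fun g h x => by
        change e ((g * h) • e.symm x) = e (g • e.symm (e (h • e.symm x)))
        rw [Equiv.symm_apply_apply, mul_smul] }
  refine ⟨_, _, inferInstance, inferInstance, inst, _, _, _, r, w, θ,
    Param.par_transport e (fun h x => ?_) P⟩
  change e (h • x) = e (h • e.symm (e x))
  rw [Equiv.symm_apply_apply]

end Pool.Agent.Helper52.NA
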