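import Pool.Agent.Helper52.NA.Decay
import Pool.Agent.Helper52.NA.Expt
import Pool.Agent.Helper52.NA.Hall
import Pool.Agent.Helper52.NA.Param
import Pool.Agent.Helper52.NA.Nofree

/-!
# The automaton and the final theorem
-/

namespace Pool.Agent.Helper52.NA

open Finset

/-- the states of the automaton -/
abbrev St (H : Type) := Option (H × Fin 3)

section
variable {H X : Type} [Group H] [MulAction H X] [DecidableEq X] (RA RC RD : Finset X)

/-- action of a state on letters -/
def stPerm (X : Type) [MulAction H X] : St H → Equiv.Perm X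
  | some (h, 0) => MulAction.toPerm h
  | _ => 1

/-- transition -/
def stNext : St H → X → St H
  | some (_, 0), _ => none
  | some (h, 1), x => if x ∈ RA then some (h, 0) else none
  | some (h, 2), x => if x ∈ RC then some (h, 1) else if x ∈ RD then some (h, 2) else none
  | none, _ => none

/-- the transformation of a state -/
def stFun : St H → Equiv.Perm (List X)
  | some (h, 0) => aT H X h
  | some (h, 1) => cT RA h
  | some (h, 2) => dT RA RC RD h
  | none => 1

theorem stFun_nil (s : St H) : stFun RA RC RD s [] = [] := by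
  rcases s with _ | ⟨h, i⟩
  · rfl
  · fin_cases i <;> rfl

theorem stFun_cons (s : St H) (x : X) (v : List X) :
    stFun RA RC RD s (x :: v) = stPerm X s x :: stFun RA RC RD (stNext RA RC RD s x) v := by
  rcases s with _ | ⟨h, i⟩
  · rfl
  · fin_cases i
    · rfl
    · show cL RA h (x :: v) = x :: _
      by_cases hx : x ∈ RA
      · simp only [cL, hx, if_true, stNext]; rfl
      · simp only [cL, hx, if_false, stNext]; rfl
    · show dL RA RC RD h (x :: v) = x :: _
      by_cases hx : x ∈ RC
      · simp only [dL, hx, if_true, stNext]; rfl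
      · by_cases hx' : x ∈ RD
        · simp only [dL, hx, hx', if_true, if_false, stNext]; rfl
        · simp only [dL, hx, hx', if_false, stNext]; rfl

theorem closure_eq : Subgroup.closure (Set.range (stFun (H := H) RA RC RD)) = GT H RA RC RD := by
  apply le_antisymm
  · rw [Subgroup.closure_le]
    rintro _ ⟨s, rfl⟩
    rcases s with _ | ⟨h, i⟩
    · exact Subgroup.one_mem _
    · fin_cases i
      · exact (le_sup_left.trans le_sup_left : (aT H X).range ≤ GT H RA RC RD) ⟨h, rfl⟩
      · exact (le_sup_right.trans le_sup_left : (cT (H := H) RA).range ≤ GT H RA RC RD) ⟨h, rfl⟩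
      · exact (le_sup_right : (dT (H := H) RA RC RD).range ≤ GT H RA RC RD) ⟨h, rfl⟩
  · refine sup_le (sup_le ?_ ?_) ?_
    · rintro _ ⟨h, rfl⟩; exact Subgroup.subset_closure ⟨some (h, 0), rfl⟩
    · rintro _ ⟨h, rfl⟩; exact Subgroup.subset_closure ⟨some (h, 1), rfl⟩
    · rintro _ ⟨h, rfl⟩; exact Subgroup.subset_closure ⟨some (h, 2), rfl⟩

end

theorem final :
    ∃ (d n : ℕ) (σ : Fin n → Equiv.Perm (Fin d)) (τ : Fin n → Fin d → Fin n)
      (f : Fin n → Equiv.Perm (List (Fin d))),
      (∀ q : Fin n, f q [] = []) ∧
      (∀ (q : Fin n) (x : Fin d) (w : List (Fin d)),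
          f q (x :: w) = σ q x :: f (τ q x) w) ∧
      (¬ ∃ m : Set ↥(Subgroup.closure (Set.range f)) → ℝ,
          (∀ A, 0 ≤ m A) ∧ m Set.univ = 1 ∧
          (∀ A B, Disjoint A B → m (A ∪ B) = m A + m B) ∧
          (∀ (g : ↥(Subgroup.closure (Set.range f))) A,
              m ((fun x => g * x) '' A) = m A)) ∧
      (¬ ∃ φ : FreeGroup (Fin 2) →* ↥(Subgroup.closure (Set.range f)),
          Function.Injective φ) := by
  obtain ⟨n, H, _, _, _, RA, RC, RD, r, w, θ, P⟩ := exists_par
  classical
  let e : St H ≃ Fin (Fintype.card (St H)) := Fintype.equivFin _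
  refine ⟨n, Fintype.card (St H), fun q => stPerm (H := H) (Fin n) (e.symm q),
    fun q x => e (stNext (H := H) RA RC RD (e.symm q) x),
    fun q => stFun (H := H) RA RC RD (e.symm q), ?_, ?_, ?_⟩
  · intro q; exact stFun_nil RA RC RD _
  · intro q x v
    simp only [Equiv.symm_apply_apply]
    exact stFun_cons RA RC RD _ x v
  · have hr : Set.range (fun q => stFun (H := H) RA RC RD (e.symm q)) =
        Set.range (stFun (H := H) RA RC RD) := by
      exact EquivLike.range_comp (stFun (H := H) RA RC RD) e.symm
    rw [hr, closure_eq]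
    have hcard : 2 ≤ Fintype.card (Fin n) := by
      have h1 := P.cardA
      have h2 := P.big
      have h3 := Finset.card_le_univ RA
      omega
    have hne : Nonempty (Fin n) := Fintype.card_pos_iff.1 (by omega)
    constructor
    · have hH : ∃ h : H, ∃ x : Fin n, h • x ≠ x := by
        obtain ⟨x, y, hxy⟩ := Fintype.one_lt_card_iff.1 (by omega : 1 < Fintype.card (Fin n))
        have h1 := P.trans x y
        have h2 : (0 : ℝ) < Fintype.card H := by exact_mod_cast Fintype.card_pos
        have h3 : (univ.filter fun g : H => g • x = y).Nonempty := by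
          rw [← Finset.card_pos]
          rcases Nat.eq_zero_or_pos (univ.filter fun g : H => g • x = y).card with h | h
          · rw [h] at h1; simp at h1
            exact absurd h1.symm (by positivity)
          · exact h
        obtain ⟨g, hg⟩ := h3
        rw [Finset.mem_filter] at hg
        exact ⟨g, x, fun h => hxy (by rw [← h, hg.2])⟩
      obtain ⟨t, ht0, ht1, ht⟩ := decay P hH
      obtain ⟨S, hS⟩ := expand_tree P.dAC P.dAD t ht0 ht1 ht
      exact no_mean S hS
    · exact no_free P.dAC P.dAD P.dCD

end Pool.Agent.Helper52.NA
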