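import Pool.Agent.Helper52.NA.LemmaL2

/-!
# Lemma L: few indicator subgroups in general position generate the power group efficiently
-/

namespace Pool.Agent.Helper52.NA

open Finset
open scoped RealInnerProductSpace

section

variable {Sl H : Type*} [DecidableEq Sl] [Group H] [Fintype H]

theorem fixed_of_slots [Fintype Sl] {V : Type*} [AddCommGroup V] [Module ℝ V]
    (U : (Sl → H) →* Module.End ℝ V) (z : V) (hz : ∀ s, PS U {s} z = z) (k : Sl → H) :
    U k z = z := by
  have key : ∀ T : Finset Sl, U (fun s => if s ∈ T then k s else 1) z = z := by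
    intro T
    induction T using Finset.induction_on with
    | empty =>
      have : (fun s => if s ∈ (∅ : Finset Sl) then k s else 1) = (1 : Sl → H) := by
        funext t; simp
      rw [this, map_one]; rfl
    | insert t T htT ih =>
      have h1 : (fun s => if s ∈ insert t T then k s else 1) =
          (fun s => if s ∈ T then k s else 1) * ind {t} (k t) := by
        funext x
        by_cases hx : x = t
        · subst hx; simp [ind, htT]
        · simp [ind, hx]
      have h3 : U (ind {t} (k t)) z = z := by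
        rw [← hz t]
        exact apply_av (U.comp (indHom {t})) (k t) z
      rw [h1, map_mul, Module.End.mul_apply, h3, ih]
  have := key univ
  simpa using this

/-- counting: many sets meet `Y` in exactly one slot -/
theorem count_single [Fintype Sl] {I : Type*} [Fintype I] (S : I → Finset Sl) (p η : ℝ)
    (hp : ∀ s : Sl, ((univ.filter fun i => s ∈ S i).card : ℝ) = p * Fintype.card I)
    (hη : ∀ s s' : Sl, s ≠ s' →
      ((univ.filter fun i => s ∈ S i ∧ s' ∈ S i).card : ℝ) ≤ η * (p * Fintype.card I))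
    (Y : Finset Sl) :
    (Y.card : ℝ) * (p * Fintype.card I) * (1 - (Y.card - 1) * η) ≤
      ((univ.filter fun i => (S i ∩ Y).card = 1).card : ℝ) := by
  have h1 : ∑ i, ((S i ∩ Y).card : ℝ) = Y.card * (p * Fintype.card I) := by
    have h0 : ∀ i, ((S i ∩ Y).card : ℝ) = ∑ s ∈ Y, if s ∈ S i then (1 : ℝ) else 0 := by
      intro i
      have h9 : (∑ s ∈ Y, if s ∈ S i then (1 : ℝ) else 0) = ((Y.filter (· ∈ S i)).card : ℝ) := by
        rw [Finset.sum_ite, Finset.sum_const_zero, add_zero, Finset.sum_const, nsmul_eq_mul,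
          mul_one]
      rw [h9, Finset.filter_mem_eq_inter, Finset.inter_comm]
    simp_rw [h0]
    rw [Finset.sum_comm]
    have : ∀ s ∈ Y, (∑ i, if s ∈ S i then (1 : ℝ) else 0) = p * Fintype.card I := by
      intro s _
      rw [← hp s]; simp
    rw [Finset.sum_congr rfl this, Finset.sum_const, nsmul_eq_mul]
  have h2 : ∑ i, ((S i ∩ Y).card : ℝ) ^ 2 ≤
      Y.card * (p * Fintype.card I) + Y.card * ((Y.card - 1) * (η * (p * Fintype.card I))) := by
    have h0 : ∀ i, ((S i ∩ Y).card : ℝ) ^ 2 =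
        ∑ s ∈ Y, ∑ s' ∈ Y, if s ∈ S i ∧ s' ∈ S i then (1 : ℝ) else 0 := by
      intro i
      have : ((S i ∩ Y).card : ℝ) = ∑ s ∈ Y, if s ∈ S i then (1 : ℝ) else 0 := by
        have h9 : (∑ s ∈ Y, if s ∈ S i then (1 : ℝ) else 0) = ((Y.filter (· ∈ S i)).card : ℝ) := by
          rw [Finset.sum_ite, Finset.sum_const_zero, add_zero, Finset.sum_const, nsmul_eq_mul,
            mul_one]
        rw [h9, Finset.filter_mem_eq_inter, Finset.inter_comm]
      rw [this, sq, Finset.sum_mul_sum]
      refine Finset.sum_congr rfl fun s _ => Finset.sum_congr rfl fun s' _ => ?_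
      by_cases h : s ∈ S i <;> by_cases h' : s' ∈ S i <;> simp [h, h']
    simp_rw [h0]
    rw [Finset.sum_comm]
    have h3 : ∀ s ∈ Y, (∑ i, ∑ s' ∈ Y, if s ∈ S i ∧ s' ∈ S i then (1 : ℝ) else 0) ≤
        p * Fintype.card I + (Y.card - 1) * (η * (p * Fintype.card I)) := by
      intro s hs
      rw [Finset.sum_comm]
      have h4 : ∀ s', (∑ i, if s ∈ S i ∧ s' ∈ S i then (1 : ℝ) else 0) =
          ((univ.filter fun i => s ∈ S i ∧ s' ∈ S i).card : ℝ) := by
        intro s'; simp
      simp_rw [h4]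
      rw [← Finset.add_sum_erase Y _ hs]
      have h5 : ((univ.filter fun i => s ∈ S i ∧ s ∈ S i).card : ℝ) = p * Fintype.card I := by
        rw [← hp s]; simp
      rw [h5]
      have h6 : ∑ s' ∈ Y.erase s, ((univ.filter fun i => s ∈ S i ∧ s' ∈ S i).card : ℝ) ≤
          ∑ s' ∈ Y.erase s, η * (p * Fintype.card I) :=
        Finset.sum_le_sum fun s' hs' => hη s s' (Finset.mem_erase.1 hs').1.symm
      rw [Finset.sum_const, nsmul_eq_mul, Finset.card_erase_of_mem hs] at h6
      have h7 : ((Y.card - 1 : ℕ) : ℝ) = (Y.card : ℝ) - 1 := by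
        rw [Nat.cast_sub (Finset.card_pos.2 ⟨s, hs⟩)]; simp
      rw [h7] at h6
      linarith
    refine (Finset.sum_le_sum h3).trans ?_
    rw [Finset.sum_const, nsmul_eq_mul, mul_add]
  have h8 : ∑ i, (2 * ((S i ∩ Y).card : ℝ) - ((S i ∩ Y).card : ℝ) ^ 2) ≤
      ((univ.filter fun i => (S i ∩ Y).card = 1).card : ℝ) := by
    have : ((univ.filter fun i => (S i ∩ Y).card = 1).card : ℝ) =
        ∑ i, if (S i ∩ Y).card = 1 then (1 : ℝ) else 0 := by simp
    rw [this]
    refine Finset.sum_le_sum fun i _ => ?_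
    by_cases h : (S i ∩ Y).card = 1
    · simp [h]; norm_num
    · simp only [h, if_false]
      rcases Nat.eq_zero_or_pos (S i ∩ Y).card with h0 | h0
      · simp [h0]
      · have h2 : (2 : ℝ) ≤ ((S i ∩ Y).card : ℝ) := by
          have : 2 ≤ (S i ∩ Y).card := by omega
          exact_mod_cast this
        nlinarith
  rw [Finset.sum_sub_distrib, ← Finset.mul_sum, h1] at h8
  nlinarith

end

theorem lemmaL {Sl H I V : Type*} [Fintype Sl] [DecidableEq Sl] [Group H] [Fintype H]
    [Fintype I] [Nonempty I] [NormedAddCommGroup V] [InnerProductSpace ℝ V] [FiniteDimensional ℝ V]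
    (U : (Sl → H) →* Module.End ℝ V) (hU : ∀ k v, ‖U k v‖ = ‖v‖)
    (S : I → Finset Sl) (sg w : ℕ) (p η : ℝ) (hp0 : 0 < p) (hη0 : 0 ≤ η) (hw1 : 1 ≤ w)
    (hsg : ∀ i, (S i).card = sg)
    (hp : ∀ s : Sl, ((univ.filter fun i => s ∈ S i).card : ℝ) = p * Fintype.card I)
    (hη : ∀ s s' : Sl, s ≠ s' →
      ((univ.filter fun i => s ∈ S i ∧ s' ∈ S i).card : ℝ) ≤ η * (p * Fintype.card I))
    (hw : ∀ h : H, ∃ l : List (H × H), l.length ≤ w ∧
      h = (l.map fun t => t.1 * t.2 * t.1⁻¹ * t.2⁻¹).prod)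
    (hsmall : 128 * (w : ℝ) ^ 2 * sg * η ≤ 1) (z : V) :
    p / 2 * ‖z - av U z‖ ^ 2 ≤
      (Fintype.card I : ℝ)⁻¹ * ∑ i, ‖z - av (fun h => U (ind (S i) h)) z‖ ^ 2 := by
  classical
  have hI : (0 : ℝ) < Fintype.card I := by exact_mod_cast Fintype.card_pos
  have hpI : 0 < p * Fintype.card I := mul_pos hp0 hI
  -- isometries of the subgroups
  have hUS : ∀ T : Finset Sl, ∀ h v, ‖(U.comp (indHom (H := H) T)) h v‖ = ‖v‖ := fun T h v => hU _ v
  have hPS : ∀ T v, ⟪v - PS U T v, v⟫ = ‖v - PS U T v‖ ^ 2 := by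
    intro T v
    have h1 := av_inner (U.comp (indHom (H := H) T)) (hUS T) v
    have h2 := norm_sq_av_add (U.comp (indHom (H := H) T)) (hUS T) v
    rw [inner_sub_left, real_inner_self_eq_norm_sq]
    change ⟪PS U T v, v⟫ = ‖PS U T v‖ ^ 2 at h1
    change ‖v‖ ^ 2 = ‖PS U T v‖ ^ 2 + ‖v - PS U T v‖ ^ 2 at h2
    linarith
  have hPU : ∀ v, ⟪v - av U v, v⟫ = ‖v - av U v‖ ^ 2 := by
    intro v
    have h1 := av_inner U hU v
    have h2 := norm_sq_av_add U hU v
    rw [inner_sub_left, real_inner_self_eq_norm_sq]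
    linarith
  set M : Module.End ℝ V := (Fintype.card I : ℝ)⁻¹ • ∑ i, (1 - PS U (S i)) - (p / 2) • (1 - av U)
    with hMdef
  have hMapply : ∀ v, M v = (Fintype.card I : ℝ)⁻¹ • ∑ i, (v - PS U (S i) v) -
      (p / 2) • (v - av U v) := by
    intro v
    simp [hMdef, LinearMap.sum_apply]
  have hquad : ∀ v, ⟪M v, v⟫ = (Fintype.card I : ℝ)⁻¹ * ∑ i, ‖v - PS U (S i) v‖ ^ 2 -
      p / 2 * ‖v - av U v‖ ^ 2 := by
    intro v
    rw [hMapply, inner_sub_left, real_inner_smul_left, real_inner_smul_left, sum_inner, hPU]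
    simp_rw [hPS]
  have hMsymm : M.IsSymmetric := by
    intro u v
    have h1 : ∀ T, ⟪PS U T u, v⟫ = ⟪u, PS U T v⟫ := fun T =>
      av_symm (U.comp (indHom (H := H) T)) (hUS T) u v
    have h2 : ⟪av U u, v⟫ = ⟪u, av U v⟫ := av_symm U hU u v
    rw [hMapply, hMapply, inner_sub_left, inner_sub_right, real_inner_smul_left,
      real_inner_smul_left, real_inner_smul_right, real_inner_smul_right, sum_inner, inner_sum,
      inner_sub_left, inner_sub_right, h2]
    simp_rw [inner_sub_left, inner_sub_right, h1]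
  have hcomm : ∀ s, Commute M (PS U {s}) := by
    intro s
    rw [hMdef]
    apply Commute.sub_left
    · apply Commute.smul_left
      apply Commute.sum_left
      intro i _
      exact (Commute.one_left _).sub_left (commute_PS_PS U (S i) s)
    · apply Commute.smul_left
      exact (Commute.one_left _).sub_left (commute_av_of _ _ fun k => commute_PS_singleton U k s)
  have main : 0 ≤ ⟪M z, z⟫ := by
    refine nonneg_of_eig M hMsymm ?_ z
    intro μ hμ
    obtain ⟨v, hv0, hvM, hv⟩ := exists_joint M (fun s => PS U {s}) hcomm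
      (fun s s' => commute_PS_PS U {s} s') (fun s => av_idem (U.comp (indHom {s}))) μ hμ univ
    have hnorm : 0 < ‖v‖ ^ 2 := by positivity
    have hval : ⟪M v, v⟫ = μ * ‖v‖ ^ 2 := by
      rw [hvM, real_inner_smul_left, real_inner_self_eq_norm_sq]
    suffices h : 0 ≤ ⟪M v, v⟫ by
      rw [hval] at h
      by_contra hneg
      push Not at hneg
      have := mul_neg_of_neg_of_pos hneg hnorm
      linarith
    rw [hquad]
    set Y := univ.filter fun s => PS U {s} v = 0 with hY
    have hYc : ∀ s, s ∉ Y → PS U {s} v = v := by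
      intro s hs
      rcases hv s (Finset.mem_univ _) with h | h
      · exfalso
        apply hs
        rw [hY, Finset.mem_filter]
        exact ⟨Finset.mem_univ _, h⟩
      · exact h
    have hYm : ∀ s ∈ Y, PS U {s} v = 0 := fun s hs => (Finset.mem_filter.1 hs).2
    have hsumnn : 0 ≤ (Fintype.card I : ℝ)⁻¹ * ∑ i, ‖v - PS U (S i) v‖ ^ 2 := by positivity
    by_cases hYe : Y = ∅
    · have hfix : av U v = v := by
        refine av_of_fixed U v (fixed_of_slots U v fun s => hYc s ?_)
        rw [hYe]; exact Finset.notMem_empty _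
      rw [hfix]
      simp only [sub_self, norm_zero]
      simpa using hsumnn
    have hYpos : 1 ≤ Y.card := Finset.card_pos.2 (Finset.nonempty_iff_ne_empty.2 hYe)
    have hYpos' : (1 : ℝ) ≤ Y.card := by exact_mod_cast hYpos
    have hle : ‖v - av U v‖ ^ 2 ≤ ‖v‖ ^ 2 :=
      pow_le_pow_left₀ (norm_nonneg _) (norm_sub_av_le U hU v) 2
    have hgoal : p / 2 * (Fintype.card I * ‖v‖ ^ 2) ≤ ∑ i, ‖v - PS U (S i) v‖ ^ 2 := by
      rcases le_or_gt (((Y.card : ℝ) - 1) * η) (1 / 2) with hlow | hhigh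
      · -- low weight
        have h1 := count_single S p η hp hη Y
        have h2 : ((univ.filter fun i => (S i ∩ Y).card = 1).card : ℝ) * ‖v‖ ^ 2 ≤
            ∑ i, ‖v - PS U (S i) v‖ ^ 2 := by
          rw [← nsmul_eq_mul, ← Finset.sum_const]
          calc ∑ _i ∈ univ.filter (fun i => (S i ∩ Y).card = 1), ‖v‖ ^ 2
              = ∑ i ∈ univ.filter (fun i => (S i ∩ Y).card = 1), ‖v - PS U (S i) v‖ ^ 2 := by
                refine Finset.sum_congr rfl fun i hi => ?_
                obtain ⟨s, hs⟩ := Finset.card_eq_one.1 (Finset.mem_filter.1 hi).2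
                have hsm : s ∈ S i ∩ Y := by rw [hs]; exact Finset.mem_singleton_self _
                rw [Finset.mem_inter] at hsm
                have h3 : PS U (S i) v = PS U {s} v := by
                  refine PS_apply_of_single U (S i) s hsm.1 v fun t ht hts => hYc t fun htY => ?_
                  have : t ∈ S i ∩ Y := Finset.mem_inter.2 ⟨ht, htY⟩
                  rw [hs, Finset.mem_singleton] at this
                  exact hts this
                rw [h3, hYm s hsm.2, sub_zero]
            _ ≤ _ := Finset.sum_le_sum_of_subset_of_nonneg (Finset.filter_subset _ _)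
                fun _ _ _ => by positivity
        have h4 : p / 2 * Fintype.card I ≤
            (Y.card : ℝ) * (p * Fintype.card I) * (1 - (Y.card - 1) * η) := by
          have h5 : 1 / 2 ≤ 1 - ((Y.card : ℝ) - 1) * η := by linarith
          have h6 : p * Fintype.card I ≤ (Y.card : ℝ) * (p * Fintype.card I) := by nlinarith
          calc p / 2 * Fintype.card I = (p * Fintype.card I) * (1 / 2) := by ring
            _ ≤ (Y.card : ℝ) * (p * Fintype.card I) * (1 - (Y.card - 1) * η) := by
              apply mul_le_mul h6 h5 (by norm_num) (by positivity)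
        calc p / 2 * (Fintype.card I * ‖v‖ ^ 2) = (p / 2 * Fintype.card I) * ‖v‖ ^ 2 := by ring
          _ ≤ ((univ.filter fun i => (S i ∩ Y).card = 1).card : ℝ) * ‖v‖ ^ 2 := by
            apply mul_le_mul_of_nonneg_right (h4.trans h1) (by positivity)
          _ ≤ _ := h2
      · -- high weight
        have hw1' : (1 : ℝ) ≤ (w : ℝ) ^ 2 := by
          have : (1 : ℝ) ≤ w := by exact_mod_cast hw1
          nlinarith
        have hsgη : 0 ≤ (sg : ℝ) * η := by positivity
        have hsm : 2 * ((sg : ℝ) * η) ≤ 1 := by nlinarith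
        have h1 : ∀ s ∈ Y, (p * Fintype.card I) * ‖v‖ ^ 2 ≤
            128 * (w : ℝ) ^ 2 * ∑ i ∈ univ.filter (fun i => s ∈ S i), ‖v - PS U (S i) v‖ ^ 2 := by
          intro s hs
          have := slot_sum_le U hU S sg w p η hη0 hsg s hpI (hp s) (fun s' h => hη s s' h) hsm hw v
          rwa [hYm s hs, sub_zero] at this
        have h2 := Finset.sum_le_sum h1
        rw [Finset.sum_const, nsmul_eq_mul, ← Finset.mul_sum] at h2
        have h3 : ∑ s ∈ Y, ∑ i ∈ univ.filter (fun i => s ∈ S i), ‖v - PS U (S i) v‖ ^ 2 ≤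
            sg * ∑ i, ‖v - PS U (S i) v‖ ^ 2 := by
          calc ∑ s ∈ Y, ∑ i ∈ univ.filter (fun i => s ∈ S i), ‖v - PS U (S i) v‖ ^ 2
              ≤ ∑ s, ∑ i ∈ univ.filter (fun i => s ∈ S i), ‖v - PS U (S i) v‖ ^ 2 :=
                Finset.sum_le_sum_of_subset_of_nonneg (Finset.subset_univ _)
                  fun _ _ _ => by positivity
            _ = ∑ s, ∑ i, if s ∈ S i then ‖v - PS U (S i) v‖ ^ 2 else 0 := by
                simp_rw [Finset.sum_filter]
            _ = ∑ i, ∑ s, if s ∈ S i then ‖v - PS U (S i) v‖ ^ 2 else 0 := Finset.sum_comm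
            _ = ∑ i, (sg : ℝ) * ‖v - PS U (S i) v‖ ^ 2 := by
                refine Finset.sum_congr rfl fun i _ => ?_
                rw [← Finset.sum_filter, Finset.sum_const, nsmul_eq_mul]
                congr 2
                rw [← hsg i]; congr 1; ext s; simp
            _ = _ := by rw [Finset.mul_sum]
        have hSnn : 0 ≤ ∑ i, ‖v - PS U (S i) v‖ ^ 2 := by positivity
        have h4 : (Y.card : ℝ) * (p * Fintype.card I * ‖v‖ ^ 2) ≤
            128 * (w : ℝ) ^ 2 * (sg * ∑ i, ‖v - PS U (S i) v‖ ^ 2) := by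
          refine h2.trans ?_
          gcongr
        have h5 : ((Y.card : ℝ) * η) * (p * Fintype.card I * ‖v‖ ^ 2) ≤
            ∑ i, ‖v - PS U (S i) v‖ ^ 2 := by
          calc ((Y.card : ℝ) * η) * (p * Fintype.card I * ‖v‖ ^ 2)
              = η * ((Y.card : ℝ) * (p * Fintype.card I * ‖v‖ ^ 2)) := by ring
            _ ≤ η * (128 * (w : ℝ) ^ 2 * (sg * ∑ i, ‖v - PS U (S i) v‖ ^ 2)) := by gcongr
            _ = (128 * (w : ℝ) ^ 2 * sg * η) * ∑ i, ‖v - PS U (S i) v‖ ^ 2 := by ring
            _ ≤ 1 * ∑ i, ‖v - PS U (S i) v‖ ^ 2 := by gcongr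
            _ = _ := one_mul _
        have h6 : 1 / 2 ≤ (Y.card : ℝ) * η := by nlinarith
        calc p / 2 * (Fintype.card I * ‖v‖ ^ 2) = 1 / 2 * (p * Fintype.card I * ‖v‖ ^ 2) := by ring
          _ ≤ ((Y.card : ℝ) * η) * (p * Fintype.card I * ‖v‖ ^ 2) := by
            apply mul_le_mul_of_nonneg_right h6 (by positivity)
          _ ≤ _ := h5
    have hfin : p / 2 * ‖v‖ ^ 2 ≤ (Fintype.card I : ℝ)⁻¹ * ∑ i, ‖v - PS U (S i) v‖ ^ 2 := by
      rw [inv_mul_eq_div, le_div_iff₀ hI]
      calc p / 2 * ‖v‖ ^ 2 * Fintype.card I = p / 2 * (Fintype.card I * ‖v‖ ^ 2) := by ring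
        _ ≤ _ := hgoal
    have : p / 2 * ‖v - av U v‖ ^ 2 ≤ p / 2 * ‖v‖ ^ 2 := by gcongr
    linarith
  rw [hquad] at main
  have hPSeq : ∀ i, PS U (S i) z = av (fun h => U (ind (S i) h)) z := fun i => rfl
  simp_rw [hPSeq] at main
  linarith

end Pool.Agent.Helper52.NA
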