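import Pool.Agent.Helper52.NA.Proj

/-!
# Joint eigenvectors and representations of power groups
-/

namespace Pool.Agent.Helper52.NA

open Finset
open scoped RealInnerProductSpace

section Eig

variable {V : Type*} [NormedAddCommGroup V] [InnerProductSpace ℝ V] [FiniteDimensional ℝ V]

/-- a symmetric operator with nonnegative eigenvalues is positive -/
theorem nonneg_of_eig (M : Module.End ℝ V) (hM : M.IsSymmetric)
    (h : ∀ μ : ℝ, (∃ z : V, z ≠ 0 ∧ M z = μ • z) → 0 ≤ μ) (z : V) : 0 ≤ ⟪M z, z⟫ := by
  let b := hM.eigenvectorBasis rfl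
  have h1 : ⟪M z, z⟫ = ∑ i, ⟪M z, b i⟫ * ⟪b i, z⟫ := (b.sum_inner_mul_inner (M z) z).symm
  rw [h1]
  refine Finset.sum_nonneg fun i _ => ?_
  have h2 : M (b i) = hM.eigenvalues rfl i • b i := by
    have := hM.apply_eigenvectorBasis rfl i
    exact this
  have h3 : ⟪M z, b i⟫ = hM.eigenvalues rfl i * ⟪b i, z⟫ := by
    rw [hM z (b i), h2, inner_smul_right, real_inner_comm]
  rw [h3, mul_assoc]
  refine mul_nonneg (h _ ⟨b i, ?_, h2⟩) (mul_self_nonneg _)
  have := b.orthonormal.1 i
  intro h0
  rw [h0] at this
  simp at this

omit [FiniteDimensional ℝ V] in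
/-- a common eigenvector of commuting idempotents inside an eigenspace -/
theorem exists_joint {Sl : Type*} [DecidableEq Sl] (M : Module.End ℝ V) (P : Sl → Module.End ℝ V)
    (hM : ∀ s, Commute M (P s)) (hP : ∀ s s', Commute (P s) (P s')) (hid : ∀ s, P s * P s = P s)
    (μ : ℝ) (hμ : ∃ z : V, z ≠ 0 ∧ M z = μ • z) (T : Finset Sl) :
    ∃ z : V, z ≠ 0 ∧ M z = μ • z ∧ ∀ s ∈ T, P s z = 0 ∨ P s z = z := by
  induction T using Finset.induction_on with
  | empty =>
    obtain ⟨z, hz, hz'⟩ := hμ
    exact ⟨z, hz, hz', by simp⟩
  | insert s T _ ih =>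
    obtain ⟨z, hz, hz', hT⟩ := ih
    by_cases h0 : P s z = 0
    · refine ⟨z, hz, hz', fun t ht => ?_⟩
      rcases Finset.mem_insert.1 ht with rfl | ht
      · exact Or.inl h0
      · exact hT t ht
    · refine ⟨P s z, h0, ?_, fun t ht => ?_⟩
      · have := congrArg (fun f : Module.End ℝ V => f z) (hM s).eq
        simp only [Module.End.mul_apply] at this
        rw [this, hz', map_smul]
      · rcases Finset.mem_insert.1 ht with rfl | ht
        · right
          have := congrArg (fun f : Module.End ℝ V => f z) (hid t)
          simpa using this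
        · have := congrArg (fun f : Module.End ℝ V => f z) (hP t s).eq
          simp only [Module.End.mul_apply] at this
          rw [this]
          rcases hT t ht with h | h
          · left; rw [h, map_zero]
          · right; rw [h]

end Eig

section Ind

variable {Sl H : Type*} [DecidableEq Sl] [Group H]

/-- `ind S` as a homomorphism -/
def indHom (S : Finset Sl) : H →* (Sl → H) where
  toFun := ind S
  map_one' := by funext s; simp [ind]
  map_mul' a b := by funext s; by_cases h : s ∈ S <;> simp [ind, h]

theorem conj_ind_singleton (k : Sl → H) (s : Sl) (h : H) :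
    k * ind {s} h = ind {s} (k s * h * (k s)⁻¹) * k := by
  funext t
  by_cases ht : t = s
  · subst ht; simp [ind]
  · simp [ind, ht]

variable [Fintype H] {V : Type*} [AddCommGroup V] [Module ℝ V] (U : (Sl → H) →* Module.End ℝ V)

/-- the average over the indicator subgroup of `S` -/
noncomputable def PS (S : Finset Sl) : Module.End ℝ V := av (U.comp (indHom S))

theorem PS_eq (S : Finset Sl) : PS U S = av (fun h => U (ind S h)) := rfl

theorem commute_PS_singleton (k : Sl → H) (s : Sl) : Commute (U k) (PS U {s}) := by
  show U k * PS U {s} = PS U {s} * U k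
  rw [PS_eq, av_const_mul, av_mul_const]
  have h1 : (fun h => U k * U (ind {s} h)) =
      fun h => (fun h' => U (ind {s} h') * U k) (MulAut.conj (k s) h) := by
    funext h
    rw [← map_mul, conj_ind_singleton, map_mul]
    rfl
  rw [h1]
  exact av_equiv (MulAut.conj (k s)).toEquiv (fun h' => U (ind {s} h') * U k)

theorem commute_av_of {Om : Type*} [Fintype Om] (u : Om → Module.End ℝ V) (A : Module.End ℝ V)
    (h : ∀ o, Commute (u o) A) : Commute (av u) A := by
  show av u * A = A * av u
  rw [av_const_mul, av_mul_const]
  congr 1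
  funext o
  exact h o

theorem commute_PS_PS (S : Finset Sl) (s : Sl) : Commute (PS U S) (PS U {s}) :=
  commute_av_of _ _ fun _ => commute_PS_singleton U _ s

/-- if `z` is fixed by all slots of `S` except `s ∈ S`, then `P_S z = P_s z` -/
theorem PS_apply_of_single (S : Finset Sl) (s : Sl) (hs : s ∈ S) (z : V)
    (hz : ∀ t ∈ S, t ≠ s → PS U {t} z = z) : PS U S z = PS U {s} z := by
  -- every `U (ind S h)` acts on `z` as `U (ind {s} h)`
  have key : ∀ T : Finset Sl, (∀ t ∈ T, t ∈ S ∧ t ≠ s) → ∀ h : H,
      U (ind T h) z = z := by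
    intro T
    induction T using Finset.induction_on with
    | empty =>
      intro _ h
      have : ind (∅ : Finset Sl) h = (1 : Sl → H) := by funext t; simp [ind]
      rw [this, map_one]; rfl
    | insert t T htT ih =>
      intro hT h
      have h1 : ind (insert t T) h = ind T h * ind {t} h := by
        funext x
        by_cases hx : x = t
        · subst hx; simp [ind, htT]
        · simp [ind, hx]
      have h2 := hz t (hT t (Finset.mem_insert_self _ _)).1 (hT t (Finset.mem_insert_self _ _)).2
      have h3 : U (ind {t} h) z = z := by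
        rw [← h2]
        exact apply_av (U.comp (indHom {t})) h z
      rw [h1, map_mul, Module.End.mul_apply, h3]
      exact ih (fun x hx => hT x (Finset.mem_insert_of_mem hx)) h
  rw [PS_eq, PS_eq, av_apply, av_apply]
  congr 1
  refine Finset.sum_congr rfl fun h _ => ?_
  have h1 : ind S h = ind {s} h * ind (S.erase s) h := by
    funext x
    by_cases hx : x = s
    · subst hx; simp [ind, hs]
    · simp [ind, hx]
  rw [h1, map_mul, Module.End.mul_apply, key (S.erase s) (fun t ht => by
    rw [Finset.mem_erase] at ht; exact ⟨ht.2, ht.1⟩) h]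

end Ind

end Pool.Agent.Helper52.NA
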