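import Pool.Agent.Helper52.NA.LemmaL1

/-!
# The commutator estimate
-/

namespace Pool.Agent.Helper52.NA

open Finset
open scoped RealInnerProductSpace

section

variable {V : Type*} [NormedAddCommGroup V] [InnerProductSpace ℝ V]

section K
variable {K : Type*} [Group K] (U : K →* Module.End ℝ V)

theorem norm_mul_sub_le (hU : ∀ k v, ‖U k v‖ = ‖v‖) (k l : K) (z : V) :
    ‖U (k * l) z - z‖ ≤ ‖U k z - z‖ + ‖U l z - z‖ := by
  have h : U (k * l) z - z = U k (U l z - z) + (U k z - z) := by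
    rw [map_mul, Module.End.mul_apply, map_sub]; abel
  rw [h, add_comm ‖U k z - z‖]
  calc _ ≤ ‖U k (U l z - z)‖ + ‖U k z - z‖ := norm_add_le _ _
    _ = _ := by rw [hU]

theorem norm_inv_sub (hU : ∀ k v, ‖U k v‖ = ‖v‖) (k : K) (z : V) :
    ‖U k⁻¹ z - z‖ = ‖U k z - z‖ := by
  rw [← hU k (U k⁻¹ z - z), map_sub, ← Module.End.mul_apply, ← map_mul, mul_inv_cancel, map_one,
    Module.End.one_apply, norm_sub_rev]

theorem norm_comm_sub_le (hU : ∀ k v, ‖U k v‖ = ‖v‖) (k l : K) (z : V) :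
    ‖U (k * l * k⁻¹ * l⁻¹) z - z‖ ≤ 2 * ‖U k z - z‖ + 2 * ‖U l z - z‖ := by
  have h1 := norm_mul_sub_le U hU (k * l * k⁻¹) l⁻¹ z
  have h2 := norm_mul_sub_le U hU (k * l) k⁻¹ z
  have h3 := norm_mul_sub_le U hU k l z
  rw [norm_inv_sub U hU] at h1 h2
  linarith

theorem norm_sub_av_le_of [Fintype K] (z : V) (C : ℝ) (h : ∀ k, ‖U k z - z‖ ≤ C) :
    ‖z - av U z‖ ≤ C := by
  have hne : (Fintype.card K : ℝ) ≠ 0 := by positivity
  have h1 : z - av U z = (Fintype.card K : ℝ)⁻¹ • ∑ k, (z - U k z) := by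
    rw [av_apply, Finset.sum_sub_distrib, smul_sub, Finset.sum_const, Finset.card_univ,
      ← Nat.cast_smul_eq_nsmul ℝ, smul_smul, inv_mul_cancel₀ hne, one_smul]
  rw [h1, norm_smul, norm_inv, Real.norm_natCast]
  have h2 : ‖∑ k, (z - U k z)‖ ≤ Fintype.card K * C := by
    calc _ ≤ ∑ k, ‖z - U k z‖ := norm_sum_le _ _
      _ ≤ ∑ _k : K, C := Finset.sum_le_sum fun k _ => by rw [norm_sub_rev]; exact h k
      _ = _ := by rw [Finset.sum_const, Finset.card_univ, nsmul_eq_mul]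
  calc _ ≤ (Fintype.card K : ℝ)⁻¹ * (Fintype.card K * C) := by gcongr
    _ = C := by rw [← mul_assoc, inv_mul_cancel₀ hne, one_mul]

end K

variable {Sl H : Type*} [DecidableEq Sl] [Group H] [Fintype H]
  (U : (Sl → H) →* Module.End ℝ V)

omit [Fintype H] in
theorem ind_comm (S S' : Finset Sl) (s : Sl) (hs : S ∩ S' = {s}) (h h' : H) :
    ind S h * ind S' h' * (ind S h)⁻¹ * (ind S' h')⁻¹ = ind {s} (h * h' * h⁻¹ * h'⁻¹) := by
  funext t
  have ht : t ∈ S ∧ t ∈ S' ↔ t = s := by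
    rw [← Finset.mem_inter, hs, Finset.mem_singleton]
  by_cases h1 : t ∈ S <;> by_cases h2 : t ∈ S' <;> simp [ind, h1, h2] at ht ⊢ <;> simp [ht]

theorem slot_le (hU : ∀ k v, ‖U k v‖ = ‖v‖) (w : ℕ)
    (hw : ∀ h : H, ∃ l : List (H × H), l.length ≤ w ∧
      h = (l.map fun t => t.1 * t.2 * t.1⁻¹ * t.2⁻¹).prod)
    (S S' : Finset Sl) (s : Sl) (hs : S ∩ S' = {s}) (z : V) :
    ‖z - PS U {s} z‖ ≤ w * (4 * (‖z - PS U S z‖ + ‖z - PS U S' z‖)) := by
  refine norm_sub_av_le_of (U.comp (indHom {s})) z _ fun h => ?_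
  obtain ⟨l, hl, rfl⟩ := hw h
  have hC : 0 ≤ 4 * (‖z - PS U S z‖ + ‖z - PS U S' z‖) := by positivity
  have key : ∀ l : List (H × H), ‖(U.comp (indHom {s}))
      (l.map fun t => t.1 * t.2 * t.1⁻¹ * t.2⁻¹).prod z - z‖ ≤
      l.length * (4 * (‖z - PS U S z‖ + ‖z - PS U S' z‖)) := by
    intro l
    induction l with
    | nil => simp
    | cons t l ih =>
      rw [List.map_cons, List.prod_cons, List.length_cons]
      have h1 := norm_mul_sub_le (U.comp (indHom {s}))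
        (fun k v => hU _ v) (t.1 * t.2 * t.1⁻¹ * t.2⁻¹)
        (l.map fun t => t.1 * t.2 * t.1⁻¹ * t.2⁻¹).prod z
      have h2 : ‖(U.comp (indHom {s})) (t.1 * t.2 * t.1⁻¹ * t.2⁻¹) z - z‖ ≤
          4 * (‖z - PS U S z‖ + ‖z - PS U S' z‖) := by
        show ‖U (ind {s} (t.1 * t.2 * t.1⁻¹ * t.2⁻¹)) z - z‖ ≤ _
        rw [← ind_comm S S' s hs]
        have h3 := norm_comm_sub_le U hU (ind S t.1) (ind S' t.2) z
        have h4 := norm_apply_sub_le (U.comp (indHom S)) (fun k v => hU _ v) t.1 z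
        have h5 := norm_apply_sub_le (U.comp (indHom S')) (fun k v => hU _ v) t.2 z
        have h4' : ‖U (ind S t.1) z - z‖ ≤ 2 * ‖z - PS U S z‖ := h4
        have h5' : ‖U (ind S' t.2) z - z‖ ≤ 2 * ‖z - PS U S' z‖ := h5
        linarith
      push_cast
      nlinarith
  refine (key l).trans ?_
  gcongr

theorem slot_sq_le (hU : ∀ k v, ‖U k v‖ = ‖v‖) (w : ℕ)
    (hw : ∀ h : H, ∃ l : List (H × H), l.length ≤ w ∧
      h = (l.map fun t => t.1 * t.2 * t.1⁻¹ * t.2⁻¹).prod)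
    (S S' : Finset Sl) (s : Sl) (hs : S ∩ S' = {s}) (z : V) :
    ‖z - PS U {s} z‖ ^ 2 ≤ 32 * (w : ℝ) ^ 2 * (‖z - PS U S z‖ ^ 2 + ‖z - PS U S' z‖ ^ 2) := by
  have h := slot_le U hU w hw S S' s hs z
  set a := ‖z - PS U S z‖
  set b := ‖z - PS U S' z‖
  have h1 : ‖z - PS U {s} z‖ ^ 2 ≤ (w * (4 * (a + b))) ^ 2 :=
    pow_le_pow_left₀ (norm_nonneg _) h 2
  have h2 : (a + b) ^ 2 ≤ 2 * (a ^ 2 + b ^ 2) := by nlinarith [sq_nonneg (a - b)]
  have h3 : (w * (4 * (a + b))) ^ 2 = 16 * (w : ℝ) ^ 2 * (a + b) ^ 2 := by ring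
  rw [h3] at h1
  have h4 : 16 * (w : ℝ) ^ 2 * (a + b) ^ 2 ≤ 16 * (w : ℝ) ^ 2 * (2 * (a ^ 2 + b ^ 2)) := by
    gcongr
  linarith

/-- most pairs of sets containing `s` meet only in `s` -/
theorem good_pairs {I : Type*} [Fintype I] (S : I → Finset Sl) (sg : ℕ) (p η : ℝ)
    (hη0 : 0 ≤ η) (hsg : ∀ i, (S i).card = sg) (s : Sl)
    (hp : ((univ.filter fun i => s ∈ S i).card : ℝ) = p * Fintype.card I)
    (hη : ∀ s' : Sl, s ≠ s' →
      ((univ.filter fun i => s ∈ S i ∧ s' ∈ S i).card : ℝ) ≤ η * (p * Fintype.card I))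
    (hsmall : 2 * (sg * η) ≤ 1) [Fintype Sl] :
    ((univ.filter fun i => s ∈ S i).card : ℝ) ^ 2 ≤
      2 * ((((univ.filter fun i => s ∈ S i) ×ˢ (univ.filter fun i => s ∈ S i)).filter
        fun t => S t.1 ∩ S t.2 = {s}).card : ℝ) := by
  classical
  set Is := univ.filter fun i => s ∈ S i with hIs
  set J : Sl → Finset I := fun s' => univ.filter fun i => s ∈ S i ∧ s' ∈ S i with hJ
  have hsplit := Finset.card_filter_add_card_filter_not (s := Is ×ˢ Is)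
    (fun t : I × I => S t.1 ∩ S t.2 = {s})
  rw [Finset.card_product] at hsplit
  have hbad : ((Is ×ˢ Is).filter fun t => ¬ S t.1 ∩ S t.2 = {s}) ⊆
      (univ.erase s).biUnion fun s' => J s' ×ˢ J s' := by
    intro t ht
    rw [Finset.mem_filter, Finset.mem_product, hIs, Finset.mem_filter, Finset.mem_filter] at ht
    obtain ⟨⟨⟨_, h1⟩, ⟨_, h2⟩⟩, h3⟩ := ht
    have h4 : ∃ s', s' ∈ S t.1 ∩ S t.2 ∧ s' ≠ s := by
      by_contra hcon
      push Not at hcon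
      apply h3
      ext x
      rw [Finset.mem_singleton]
      constructor
      · intro hx; exact hcon x hx
      · rintro rfl; exact Finset.mem_inter.2 ⟨h1, h2⟩
    obtain ⟨s', hs', hne⟩ := h4
    rw [Finset.mem_inter] at hs'
    rw [Finset.mem_biUnion]
    refine ⟨s', Finset.mem_erase.2 ⟨hne, Finset.mem_univ _⟩, ?_⟩
    rw [Finset.mem_product, hJ]
    simp only [Finset.mem_filter, Finset.mem_univ, true_and]
    exact ⟨⟨h1, hs'.1⟩, ⟨h2, hs'.2⟩⟩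
  have hsum : ∑ s' ∈ univ.erase s, (J s').card ≤ sg * Is.card := by
    have h1 : ∀ s', (J s').card = ∑ i ∈ Is, if s' ∈ S i then 1 else 0 := by
      intro s'
      rw [← Finset.card_filter, hJ, hIs, Finset.filter_filter]
    calc ∑ s' ∈ univ.erase s, (J s').card
        ≤ ∑ s', (J s').card := Finset.sum_le_sum_of_subset (Finset.erase_subset _ _)
      _ = ∑ s', ∑ i ∈ Is, (if s' ∈ S i then 1 else 0) := by simp_rw [h1]
      _ = ∑ i ∈ Is, ∑ s', (if s' ∈ S i then 1 else 0) := Finset.sum_comm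
      _ = ∑ i ∈ Is, sg := by
          refine Finset.sum_congr rfl fun i _ => ?_
          rw [← hsg i]; simp
      _ = sg * Is.card := by rw [Finset.sum_const, smul_eq_mul, mul_comm]
  have hb : (((Is ×ˢ Is).filter fun t => ¬ S t.1 ∩ S t.2 = {s}).card : ℝ) ≤
      η * (p * Fintype.card I) * (sg * Is.card) := by
    have h1 : (((Is ×ˢ Is).filter fun t => ¬ S t.1 ∩ S t.2 = {s}).card) ≤
        ∑ s' ∈ univ.erase s, (J s').card * (J s').card := by
      refine (Finset.card_le_card hbad).trans (Finset.card_biUnion_le.trans ?_)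
      simp [Finset.card_product]
    have h2 : (∑ s' ∈ univ.erase s, ((J s').card : ℝ) * (J s').card) ≤
        ∑ s' ∈ univ.erase s, η * (p * Fintype.card I) * (J s').card := by
      refine Finset.sum_le_sum fun s' hs' => ?_
      exact mul_le_mul_of_nonneg_right (hη s' (Finset.mem_erase.1 hs').1.symm) (by positivity)
    have hpos : 0 ≤ η * (p * Fintype.card I) := by
      rw [← hp]; positivity
    calc (((Is ×ˢ Is).filter fun t => ¬ S t.1 ∩ S t.2 = {s}).card : ℝ)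
        ≤ ∑ s' ∈ univ.erase s, ((J s').card : ℝ) * (J s').card := by exact_mod_cast h1
      _ ≤ _ := h2
      _ = η * (p * Fintype.card I) * ((∑ s' ∈ univ.erase s, (J s').card : ℕ) : ℝ) := by
          rw [← Finset.mul_sum]; push_cast; rfl
      _ ≤ _ := by
          refine mul_le_mul_of_nonneg_left ?_ hpos
          exact_mod_cast hsum
  have hsplit' : (((Is ×ˢ Is).filter fun t => S t.1 ∩ S t.2 = {s}).card : ℝ) +
      (((Is ×ˢ Is).filter fun t => ¬ S t.1 ∩ S t.2 = {s}).card : ℝ) = Is.card * Is.card := by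
    exact_mod_cast hsplit
  have h5 : η * (p * Fintype.card I) * (sg * Is.card) = (sg * η) * (Is.card * Is.card : ℝ) := by
    rw [← hp]; ring
  rw [h5] at hb
  have h6 : (sg * η) * (Is.card * Is.card : ℝ) ≤ 1 / 2 * (Is.card * Is.card : ℝ) := by
    apply mul_le_mul_of_nonneg_right _ (by positivity)
    linarith
  nlinarith

/-- the commutator estimate -/
theorem slot_sum_le (hU : ∀ k v, ‖U k v‖ = ‖v‖) {I : Type*} [Fintype I] [Fintype Sl]
    (S : I → Finset Sl) (sg w : ℕ) (p η : ℝ)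
    (hη0 : 0 ≤ η) (hsg : ∀ i, (S i).card = sg) (s : Sl)
    (hp0 : 0 < p * Fintype.card I)
    (hp : ((univ.filter fun i => s ∈ S i).card : ℝ) = p * Fintype.card I)
    (hη : ∀ s' : Sl, s ≠ s' →
      ((univ.filter fun i => s ∈ S i ∧ s' ∈ S i).card : ℝ) ≤ η * (p * Fintype.card I))
    (hsmall : 2 * (sg * η) ≤ 1)
    (hw : ∀ h : H, ∃ l : List (H × H), l.length ≤ w ∧
      h = (l.map fun t => t.1 * t.2 * t.1⁻¹ * t.2⁻¹).prod) (z : V) :
    (p * Fintype.card I) * ‖z - PS U {s} z‖ ^ 2 ≤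
      128 * (w : ℝ) ^ 2 * ∑ i ∈ univ.filter (fun i => s ∈ S i), ‖z - PS U (S i) z‖ ^ 2 := by
  have hg := good_pairs S sg p η hη0 hsg s hp hη hsmall
  set Is := univ.filter fun i => s ∈ S i with hIs
  set Gd := (Is ×ˢ Is).filter fun t => S t.1 ∩ S t.2 = {s} with hGd
  have h1 : (Gd.card : ℝ) * ‖z - PS U {s} z‖ ^ 2 ≤
      ∑ t ∈ Gd, 32 * (w : ℝ) ^ 2 * (‖z - PS U (S t.1) z‖ ^ 2 + ‖z - PS U (S t.2) z‖ ^ 2) := by
    rw [← nsmul_eq_mul, ← Finset.sum_const]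
    refine Finset.sum_le_sum fun t ht => ?_
    exact slot_sq_le U hU w hw (S t.1) (S t.2) s (Finset.mem_filter.1 ht).2 z
  have h2 : ∑ t ∈ Gd, 32 * (w : ℝ) ^ 2 * (‖z - PS U (S t.1) z‖ ^ 2 + ‖z - PS U (S t.2) z‖ ^ 2) ≤
      ∑ t ∈ Is ×ˢ Is, 32 * (w : ℝ) ^ 2 * (‖z - PS U (S t.1) z‖ ^ 2 + ‖z - PS U (S t.2) z‖ ^ 2) :=
    Finset.sum_le_sum_of_subset_of_nonneg (Finset.filter_subset _ _) fun _ _ _ => by positivity
  have h3 : ∑ t ∈ Is ×ˢ Is, 32 * (w : ℝ) ^ 2 * (‖z - PS U (S t.1) z‖ ^ 2 + ‖z - PS U (S t.2) z‖ ^ 2)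
      = 64 * (w : ℝ) ^ 2 * Is.card * ∑ i ∈ Is, ‖z - PS U (S i) z‖ ^ 2 := by
    rw [← Finset.mul_sum, Finset.sum_add_distrib, Finset.sum_product, Finset.sum_product]
    simp only [Finset.sum_const, nsmul_eq_mul, ← Finset.mul_sum]
    ring
  have hpos : (0 : ℝ) < Is.card := by rw [hp]; exact hp0
  rw [← hp]
  have h4 : (Is.card : ℝ) ^ 2 * ‖z - PS U {s} z‖ ^ 2 ≤
      2 * (64 * (w : ℝ) ^ 2 * Is.card * ∑ i ∈ Is, ‖z - PS U (S i) z‖ ^ 2) := by
    calc (Is.card : ℝ) ^ 2 * ‖z - PS U {s} z‖ ^ 2 ≤ (2 * (Gd.card : ℝ)) * ‖z - PS U {s} z‖ ^ 2 := by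
          gcongr
      _ = 2 * ((Gd.card : ℝ) * ‖z - PS U {s} z‖ ^ 2) := by ring
      _ ≤ _ := by linarith
  have h5 : (Is.card : ℝ) * ((Is.card : ℝ) * ‖z - PS U {s} z‖ ^ 2) ≤
      (Is.card : ℝ) * (128 * (w : ℝ) ^ 2 * ∑ i ∈ Is, ‖z - PS U (S i) z‖ ^ 2) := by
    nlinarith
  exact le_of_mul_le_mul_left h5 hpos

end

end Pool.Agent.Helper52.NA
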