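import Pool.Agent.Helper52.NA.Prefix

/-!
# Traces in the left regular representation
-/

namespace Pool.Agent.Helper52.NA

open Finset
open scoped RealInnerProductSpace

section
variable {G Om : Type*} [Group G] [Fintype G] [Fintype Om]

theorem norm_reg (g : G) (v : EuclideanSpace ℝ G) : ‖reg G g v‖ = ‖v‖ :=
  (LinearIsometryEquiv.piLpCongrLeft 2 ℝ ℝ (Equiv.mulLeft g)).norm_map v

open Classical in
theorem trace_reg (g : G) :
    LinearMap.trace ℝ _ (reg G g) = if g = 1 then (Fintype.card G : ℝ) else 0 := by
  rw [LinearMap.trace_eq_sum_inner _ (EuclideanSpace.basisFun G ℝ)]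
  have h : ∀ k : G, ⟪EuclideanSpace.basisFun G ℝ k, reg G g (EuclideanSpace.basisFun G ℝ k)⟫ =
      if g = 1 then (1 : ℝ) else 0 := by
    intro k
    rw [EuclideanSpace.basisFun_apply, EuclideanSpace.inner_single_left, reg_apply]
    by_cases hg : g = 1
    · simp [hg]
    · have : ¬ (g⁻¹ * k = k) := by
        intro h; apply hg; rw [mul_eq_right, inv_eq_one] at h; exact h
      simp [hg]
  rw [Finset.sum_congr rfl fun k _ => h k]
  by_cases hg : g = 1
  · simp [hg]
  · simp [hg]

theorem trace_av_reg (E : Om → G) :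
    LinearMap.trace ℝ _ (av fun o => reg G (E o)) =
      Fintype.card G * ((Nat.card {o // E o = 1} : ℝ) / Fintype.card Om) := by
  classical
  unfold av
  rw [map_smul, map_sum, Finset.sum_congr rfl fun o _ => trace_reg (E o), ← Finset.sum_filter,
    Finset.sum_const, Nat.card_eq_fintype_card, Fintype.card_subtype, smul_eq_mul, nsmul_eq_mul]
  rw [div_eq_mul_inv]
  ring

theorem trace_pow_reg (E : Om → G) (n : ℕ) :
    LinearMap.trace ℝ _ ((av fun o => reg G (E o)) ^ n) = Fintype.card G * q E n := by
  rw [av_pow]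
  have h : (fun w : Fin n → Om => (List.ofFn fun i => reg G (E (w i))).prod) =
      fun w : Fin n → Om => reg G (wd E n w) := by
    funext w
    unfold wd
    rw [map_list_prod, List.map_ofFn]
    rfl
  rw [h, trace_av_reg]
  unfold q
  rw [Fintype.card_fun, Fintype.card_fin]
  push_cast
  rfl

theorem q_nonneg (E : Om → G) (n : ℕ) : 0 ≤ q E n := by
  unfold q
  positivity

end

end Pool.Agent.Helper52.NA
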