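import Pool.Agent.Helper52.NA.Prefix
import Pool.Agent.Helper52.NA.Reg

/-!
# Moments of the return probabilities
-/

namespace Pool.Agent.Helper52.NA

open Finset
open scoped RealInnerProductSpace

section

variable {G Om : Type*} [Group G] [Fintype G] [Fintype Om]

/-- the return probabilities are the moments of the spectral distribution -/
theorem moment_exists (E : Om → G) (hs : (av fun o => reg G (E o)).IsSymmetric)
    (h0 : ∀ v, 0 ≤ ⟪(av fun o => reg G (E o)) v, v⟫) :
    ∃ (N : ℕ) (t : Fin N → ℝ), (N : ℝ) = Fintype.card G ∧ (∀ i, 0 ≤ t i) ∧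
      ∀ k, (N : ℝ) * q E k = ∑ i, t i ^ k := by
  set T := av fun o => reg G (E o) with hT
  have hn : Module.finrank ℝ (EuclideanSpace ℝ G) = Fintype.card G := by simp
  set b := hs.eigenvectorBasis hn with hb
  set t := hs.eigenvalues hn with ht
  have hTb : ∀ i, T (b i) = t i • b i := fun i => by
    have := hs.apply_eigenvectorBasis hn i
    simpa only [RCLike.ofReal_real_eq_id, id] using this
  have hTk : ∀ (k : ℕ) i, (T ^ k) (b i) = t i ^ k • b i := by
    intro k i
    induction k with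
    | zero => simp
    | succ k ih =>
      rw [pow_succ', Module.End.mul_apply, ih, map_smul, hTb, smul_smul, pow_succ]
  refine ⟨Fintype.card G, t, rfl, fun i => ?_, fun k => ?_⟩
  · have h := h0 (b i)
    rw [hTb, inner_smul_left, real_inner_self_eq_norm_sq, b.norm_eq_one] at h
    simpa using h
  · rw [← trace_pow_reg E k, ← hT, LinearMap.trace_eq_sum_inner _ b]
    refine Finset.sum_congr rfl fun i _ => ?_
    rw [hTk, inner_smul_right, real_inner_self_eq_norm_sq, b.norm_eq_one]
    simp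

/-- moments: `q_k ≤ z^k` for `k ≤ n` if `z^n = q_n`. -/
theorem q_le_pow [Nonempty Om] (E : Om → G) (hs : (av fun o => reg G (E o)).IsSymmetric)
    (h0 : ∀ v, 0 ≤ ⟪(av fun o => reg G (E o)) v, v⟫) (n : ℕ) (hn : 0 < n) (z : ℝ) (hz : 0 ≤ z)
    (hzn : z ^ n = q E n) (k : ℕ) (hk : k ≤ n) : q E k ≤ z ^ k := by
  obtain ⟨N, t, hN, ht, hq⟩ := moment_exists E hs h0
  have hNpos : (0 : ℝ) < N := by
    rw [hN]
    exact_mod_cast Fintype.card_pos
  have hqk : ∀ k, q E k = ∑ i, (N : ℝ)⁻¹ * t i ^ k := by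
    intro k
    rw [← Finset.mul_sum, ← hq k, ← mul_assoc, inv_mul_cancel₀ hNpos.ne', one_mul]
  rcases Nat.eq_zero_or_pos k with rfl | hkpos
  · rw [hqk 0]
    simp only [pow_zero, mul_one, Finset.sum_const, Finset.card_univ, Fintype.card_fin,
      nsmul_eq_mul]
    rw [mul_inv_cancel₀ hNpos.ne']
  have hkR : (0 : ℝ) < k := by exact_mod_cast hkpos
  have hnR : (0 : ℝ) < n := by exact_mod_cast hn
  have hp1 : (1 : ℝ) ≤ n / k := by
    rw [le_div_iff₀ hkR, one_mul]
    exact_mod_cast hk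
  have hJ := Real.rpow_arith_mean_le_arith_mean_rpow (Finset.univ : Finset (Fin N))
    (fun _ => (N : ℝ)⁻¹) (fun i => t i ^ k) (fun i _ => by positivity)
    (by simp [hNpos.ne']) (fun i _ => pow_nonneg (ht i) k) hp1
  have hpow : ∀ i, (t i ^ k) ^ ((n : ℝ) / k) = t i ^ n := by
    intro i
    rw [← Real.rpow_natCast (t i) k, ← Real.rpow_mul (ht i), mul_div_cancel₀ _ hkR.ne',
      Real.rpow_natCast]
  simp only [hpow] at hJ
  rw [← hqk k, ← hqk n, ← hzn] at hJ
  have hzk : (z ^ k) ^ ((n : ℝ) / k) = z ^ n := by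
    rw [← Real.rpow_natCast z k, ← Real.rpow_mul hz, mul_div_cancel₀ _ hkR.ne',
      Real.rpow_natCast]
  rw [← hzk] at hJ
  have hq0 : 0 ≤ q E k := by
    rw [hqk k]
    exact Finset.sum_nonneg fun i _ => mul_nonneg (by positivity) (pow_nonneg (ht i) k)
  exact (Real.rpow_le_rpow_iff hq0 (pow_nonneg hz k) (by positivity)).1 hJ

end

end Pool.Agent.Helper52.NA
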