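import Pool.Agent.Helper52.NA.Prefix

/-!
# Comparison of traces of powers
-/

namespace Pool.Agent.Helper52.NA

open Finset
open scoped RealInnerProductSpace

theorem inner_pow_le {V : Type*} [NormedAddCommGroup V] [InnerProductSpace ℝ V]
    (T : Module.End ℝ V) (hT : T.IsSymmetric) (u : V) (hu : ‖u‖ = 1) (h0 : 0 ≤ ⟪T u, u⟫) (j : ℕ) :
    ⟪T u, u⟫ ^ 2 ^ j ≤ ⟪(T ^ 2 ^ j) u, u⟫ := by
  induction j with
  | zero => simp
  | succ j ih =>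
    have hp : (T ^ 2 ^ j).IsSymmetric := hT.pow _
    have h1 : ⟪(T ^ 2 ^ (j + 1)) u, u⟫ = ‖(T ^ 2 ^ j) u‖ ^ 2 := by
      rw [pow_succ 2 j, mul_two, pow_add, Module.End.mul_apply, hp, real_inner_self_eq_norm_sq]
    rw [h1, pow_succ 2 j, pow_mul]
    have h2 : ⟪(T ^ 2 ^ j) u, u⟫ ≤ ‖(T ^ 2 ^ j) u‖ := by
      have := real_inner_le_norm ((T ^ 2 ^ j) u) u
      rwa [hu, mul_one] at this
    have h3 : 0 ≤ ⟪T u, u⟫ ^ 2 ^ j := pow_nonneg h0 _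
    exact pow_le_pow_left₀ h3 (ih.trans h2) 2

theorem trace_pow_le {V : Type*} [NormedAddCommGroup V] [InnerProductSpace ℝ V]
    [FiniteDimensional ℝ V] (S T : Module.End ℝ V) (hS : S.IsSymmetric) (hT : T.IsSymmetric)
    (h0 : ∀ v, 0 ≤ ⟪S v, v⟫) (hle : ∀ v, ⟪S v, v⟫ ≤ ⟪T v, v⟫) (j : ℕ) :
    LinearMap.trace ℝ V (S ^ 2 ^ j) ≤ LinearMap.trace ℝ V (T ^ 2 ^ j) := by
  classical
  set b := hS.eigenvectorBasis (rfl : Module.finrank ℝ V = Module.finrank ℝ V) with hb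
  have hSb : ∀ i, ∃ l : ℝ, S (b i) = l • b i := fun i =>
    ⟨_, hS.apply_eigenvectorBasis rfl i⟩
  rw [LinearMap.trace_eq_sum_inner _ b, LinearMap.trace_eq_sum_inner _ b]
  refine Finset.sum_le_sum fun i _ => ?_
  obtain ⟨l, hl⟩ := hSb i
  have hn : ‖b i‖ = 1 := b.norm_eq_one i
  have hpow : ∀ k : ℕ, (S ^ k) (b i) = l ^ k • b i := by
    intro k
    induction k with
    | zero => simp
    | succ k ih => rw [pow_succ', Module.End.mul_apply, ih, map_smul, hl, smul_smul, pow_succ]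
  have hl' : ⟪S (b i), b i⟫ = l := by
    rw [hl, real_inner_smul_left, real_inner_self_eq_norm_sq, hn]; ring
  have hl0 : 0 ≤ l := hl' ▸ h0 (b i)
  have hlT : l ≤ ⟪T (b i), b i⟫ := hl' ▸ hle (b i)
  rw [hpow, real_inner_smul_right, real_inner_self_eq_norm_sq, hn, real_inner_comm]
  calc l ^ 2 ^ j * 1 ^ 2 = l ^ 2 ^ j := by ring
    _ ≤ ⟪T (b i), b i⟫ ^ 2 ^ j := pow_le_pow_left₀ hl0 hlT _
    _ ≤ ⟪(T ^ 2 ^ j) (b i), b i⟫ := inner_pow_le T hT _ hn (hl0.trans hlT) j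

end Pool.Agent.Helper52.NA
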