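import Pool.Agent.Helper52.NA.Opb
import Pool.Agent.Helper52.NA.Fib
import Pool.Agent.Helper52.NA.Moment
import Pool.Agent.Helper52.NA.Reg
import Pool.Agent.Helper52.NA.Trace

/-!
# The recursion for return probabilities along one level
-/

namespace Pool.Agent.Helper52.NA

open Finset
open scoped RealInnerProductSpace

/-- the averaging operator of `quad` is symmetric and positive -/
theorem quad_symm {H G : Type*} [Group H] [Fintype H] [Group G] [Fintype G]
    (a c d : H →* G) (hcd : ∀ h h', Commute (c h) (d h')) :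
    (av fun t : H × H × H × H => reg G (quad a c d t)).IsSymmetric ∧
      ∀ v, 0 ≤ ⟪(av fun t : H × H × H × H => reg G (quad a c d t)) v, v⟫ := by
  have hn : ∀ (f : H →* G) k v, ‖((reg G).comp f) k v‖ = ‖v‖ := fun f k v => norm_reg _ v
  have ha : SI (av ((reg G).comp a)) := SI.av _ (hn a)
  have hc : SI (av ((reg G).comp c)) := SI.av _ (hn c)
  have hd : SI (av ((reg G).comp d)) := SI.av _ (hn d)
  have hcomm : av ((reg G).comp c) * av ((reg G).comp d) =
      av ((reg G).comp d) * av ((reg G).comp c) := by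
    refine (commute_av_of _ _ fun h => ?_).eq
    refine (commute_av_of _ _ fun h' => ?_).symm
    exact ((hcd h h').map (reg G)).symm
  have hM := hc.mul hd hcomm
  have heq : (av fun t : H × H × H × H => reg G (quad a c d t)) =
      av ((reg G).comp a) * (av ((reg G).comp c) * av ((reg G).comp d)) * av ((reg G).comp a) := by
    rw [av_mul, av_mul, av_mul]
    let e : (H × H × H) × H ≃ H × H × H × H :=
      { toFun := fun p => (p.1.1, p.1.2.1, p.1.2.2, p.2)
        invFun := fun p => ((p.1, p.2.1, p.2.2.1), p.2.2.2)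
        left_inv := fun _ => rfl
        right_inv := fun _ => rfl }
    rw [← av_equiv e]
    congr 1
    funext p
    simp [e, quad, mul_assoc]
  rw [heq]
  have h := ha.sandwich_symm hM
  exact ⟨h.1, fun v => by rw [h.2 v]; positivity⟩

section
variable {H X : Type} [Group H] [Fintype H] [MulAction H X] [Fintype X] [DecidableEq X]
    {RA RC RD : Finset X} {r w : ℕ} {θ : ℝ}

theorem one_step (P : Par (H := H) RA RC RD r w θ) {Y : Type} [Fintype Y] [DecidableEq Y]
    (a c d : H →* Equiv.Perm Y) (hcd : ∀ h h', Commute (c h) (d h')) (b : ℝ)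
    (hb : b = r / (20 * Fintype.card X)) (j : ℕ) (z : ℝ) (hz : 0 ≤ z)
    (hzn : z ^ 2 ^ j = q (quad a c d) (2 ^ j)) :
    q (quad (aS H X Y) (cS RA a) (dS RC RD c d)) (2 ^ j) ≤
      (1 - b + b * z ^ Fintype.card X) ^ 2 ^ j := by
  classical
  set G' := Equiv.Perm (X × Y) with hG'
  set Ua := (reg G').comp (aS H X Y) with hUa
  set UA := (reg G').comp (aX X a) with hUA
  set UB := (reg G').comp (bX X c d hcd) with hUB
  have nUa : ∀ g v, ‖Ua g v‖ = ‖v‖ := fun g v => norm_reg _ v
  have nUA : ∀ g v, ‖UA g v‖ = ‖v‖ := fun g v => norm_reg _ v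
  have nUB : ∀ g v, ‖UB g v‖ = ‖v‖ := fun g v => norm_reg _ v
  have hA : ∀ g k, Ua g * UA k * Ua g⁻¹ = UA (fun x => k (g⁻¹ • x)) := by
    intro g k
    show reg G' _ * reg G' _ * reg G' _ = reg G' _
    rw [← map_mul, ← map_mul, aS_aX]
  have hB : ∀ g k, Ua g * UB k * Ua g⁻¹ = UB (fun s => k (g⁻¹ • s.1, s.2)) := by
    intro g k
    show reg G' _ * reg G' _ * reg G' _ = reg G' _
    rw [← map_mul, ← map_mul, aS_bX]
  have hcd' : ∀ h h', Commute (UA (ind RA h)) (UB (ind (slots RC RD) h')) := by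
    intro h h'
    show Commute (reg G' (aX X a (ind RA h))) (reg G' (bX X c d hcd (ind (slots RC RD) h')))
    rw [← cS_eq, ← dS_eq RC RD P.dCD c d hcd h']
    exact (commute_cS_dS RA RC RD P.dAC P.dAD a c d h h').map (reg G')
  have hcardX : (0 : ℝ) < Fintype.card X := by
    have h1 := P.cardA
    have h2 := P.big
    have h3 := Finset.card_le_univ RA
    have : 0 < Fintype.card X := by omega
    exact_mod_cast this
  have hb0 : 0 ≤ b := by rw [hb]; positivity
  have hb1 : b ≤ 1 := by
    have h1 : (r : ℝ) ≤ Fintype.card X := by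
      have := Finset.card_le_univ RA
      rw [P.cardA] at this
      exact_mod_cast this
    rw [hb, div_le_one (by positivity)]
    nlinarith
  set S := opS Ua UA UB RA RC RD with hS
  set Q := opQ UA UB with hQ
  set T : Module.End ℝ (EuclideanSpace ℝ G') := (1 - b) • (1 : Module.End ℝ _) + b • Q with hT
  have sS := opS_symm (H := H) (X := X) (RA := RA) (RC := RC) (RD := RD) Ua UA UB nUa nUA nUB hcd'
  have sQ := opQ_symm (H := H) (X := X) UA UB nUA nUB
  have sT : T.IsSymmetric := by
    intro u v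
    have h1 : ⟪Q u, v⟫ = ⟪u, Q v⟫ := sQ.1 u v
    simp only [hT, LinearMap.add_apply, LinearMap.smul_apply, Module.End.one_apply,
      inner_add_left, inner_add_right, real_inner_smul_left, real_inner_smul_right, h1]
  have hle : ∀ v, ⟪S v, v⟫ ≤ ⟪T v, v⟫ := fun v =>
    op_ineq P Ua UA UB nUa nUA nUB hA hB hcd' b hb v
  have htr := trace_pow_le S T sS.1 sT sS.2 hle j
  -- the trace of `S ^ n`
  have hSeq : S = av (fun t : H × H × H × H =>
      reg G' (quad (aS H X Y) (cS RA a) (dS RC RD c d) t)) :=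
    opS_eq RA RC RD P.dCD a c d hcd
  have hQeq : Q = av (fun t : X → H × H × H × H => reg G' (fib (fun x => quad a c d (t x)))) :=
    opQ_eq a c d hcd
  set K := Fintype.card X with hK
  have trS : LinearMap.trace ℝ _ (S ^ 2 ^ j) =
      Fintype.card G' * q (quad (aS H X Y) (cS RA a) (dS RC RD c d)) (2 ^ j) := by
    rw [hSeq]; exact trace_pow_reg _ _
  have trQ : ∀ k, LinearMap.trace ℝ _ (Q ^ k) = Fintype.card G' * (q (quad a c d) k) ^ K := by
    intro k
    rw [hQeq]
    rw [trace_pow_reg (fun t : X → H × H × H × H => fib (fun x => quad a c d (t x))) k, q_fib]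
  have trT : LinearMap.trace ℝ _ (T ^ 2 ^ j) = Fintype.card G' *
      ∑ m ∈ range (2 ^ j + 1), (1 - b) ^ m * (b ^ (2 ^ j - m) * (q (quad a c d) (2 ^ j - m)) ^ K) *
        ((2 ^ j).choose m) := by
    have hc : Commute ((1 - b) • (1 : Module.End ℝ (EuclideanSpace ℝ G'))) (b • Q) :=
      ((Commute.one_left Q).smul_left _).smul_right _
    rw [hT, hc.add_pow, map_sum, Finset.mul_sum]
    refine Finset.sum_congr rfl fun m _ => ?_
    rw [smul_pow, one_pow, smul_pow, smul_mul_assoc, one_mul, ← nsmul_eq_mul', smul_smul,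
      ← Nat.cast_smul_eq_nsmul ℝ, smul_smul, map_smul, trQ, smul_eq_mul]
    ring
  have hT0 := quad_symm a c d hcd
  have hqk : ∀ k, k ≤ 2 ^ j → q (quad a c d) k ≤ z ^ k := fun k hk =>
    q_le_pow (quad a c d) hT0.1 hT0.2 (2 ^ j) (by positivity) z hz hzn k hk
  have hG0 : (0 : ℝ) < Fintype.card G' := by exact_mod_cast Fintype.card_pos
  rw [trS, trT] at htr
  have h1 := le_of_mul_le_mul_left htr hG0
  refine h1.trans ?_
  rw [add_pow]
  refine Finset.sum_le_sum fun m _ => ?_
  have h2 : q (quad a c d) (2 ^ j - m) ^ K ≤ (z ^ (2 ^ j - m)) ^ K :=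
    pow_le_pow_left₀ (q_nonneg _ _) (hqk _ (Nat.sub_le _ _)) _
  have h3 : (b * z ^ K) ^ (2 ^ j - m) = b ^ (2 ^ j - m) * (z ^ (2 ^ j - m)) ^ K := by
    rw [mul_pow, ← pow_mul, ← pow_mul, mul_comm K]
  rw [h3]
  have h4 : 0 ≤ 1 - b := by linarith
  gcongr

end

end Pool.Agent.Helper52.NA
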