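import Pool.Agent.Helper52.NA.Defs2

/-!
# Elements of the group preserve lengths and prefixes
-/

namespace Pool.Agent.Helper52.NA

section

variable {H X : Type*} [Group H] [MulAction H X] [DecidableEq X] {RA RC RD : Finset X}

omit [DecidableEq X] in
theorem aL_length (h : H) (v : List X) : (aL h v).length = v.length := by
  cases v <;> simp [aL]

theorem cL_length (h : H) (v : List X) : (cL RA h v).length = v.length := by
  rcases v with _ | ⟨x, v⟩
  · rfl
  · by_cases hx : x ∈ RA <;> simp [cL, hx, aL_length]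

theorem dL_length (h : H) (v : List X) : (dL RA RC RD h v).length = v.length := by
  induction v with
  | nil => rfl
  | cons x v ih =>
    by_cases hx : x ∈ RC <;> by_cases hx' : x ∈ RD <;> simp [dL, hx, hx', cL_length, ih]

omit [DecidableEq X] in
theorem aL_append (h : H) (v u : List X) (hv : v ≠ []) : aL h (v ++ u) = aL h v ++ u := by
  rcases v with _ | ⟨x, v⟩
  · exact absurd rfl hv
  · simp [aL]

/-- `g` maps extensions of `v` to extensions of `g v` -/
def Pref (g : List X → List X) : Prop := ∀ v u : List X, ∃ u' : List X, g (v ++ u) = g v ++ u'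

omit [DecidableEq X] in
theorem aL_pref (h : H) : Pref (aL (X := X) h) := by
  intro v u
  rcases v with _ | ⟨x, v⟩
  · exact ⟨aL h u, by simp [aL]⟩
  · exact ⟨u, by simp [aL]⟩

theorem cL_pref (h : H) : Pref (cL RA h) := by
  intro v u
  rcases v with _ | ⟨x, v⟩
  · exact ⟨cL RA h u, by simp [cL]⟩
  · by_cases hx : x ∈ RA
    · obtain ⟨u', hu'⟩ := aL_pref h v u
      exact ⟨u', by simp [cL, hx, hu']⟩
    · exact ⟨u, by simp [cL, hx]⟩

theorem dL_pref (h : H) : Pref (dL RA RC RD h) := by
  intro v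
  induction v with
  | nil => intro u; exact ⟨dL RA RC RD h u, by simp [dL]⟩
  | cons x v ih =>
    intro u
    by_cases hx : x ∈ RC
    · obtain ⟨u', hu'⟩ := cL_pref (RA := RA) h v u
      exact ⟨u', by simp [dL, hx, hu']⟩
    · by_cases hx' : x ∈ RD
      · obtain ⟨u', hu'⟩ := ih u
        exact ⟨u', by simp [dL, hx, hx', hu']⟩
      · exact ⟨u, by simp [dL, hx, hx']⟩

/-- permutations preserving lengths and prefixes -/
def prefGroup (X : Type*) : Subgroup (Equiv.Perm (List X)) where
  carrier := {g | (∀ v, (g v).length = v.length) ∧ Pref g}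
  mul_mem' := by
    rintro g h ⟨hg, hg'⟩ ⟨hh, hh'⟩
    refine ⟨fun v => by simp [hg, hh], fun v u => ?_⟩
    obtain ⟨u', hu'⟩ := hh' v u
    obtain ⟨u'', hu''⟩ := hg' (h v) u'
    exact ⟨u'', by simp [hu', hu'']⟩
  one_mem' := ⟨fun v => rfl, fun v u => ⟨u, rfl⟩⟩
  inv_mem' := by
    rintro g ⟨hg, hg'⟩
    have hl : ∀ v, (g⁻¹ v).length = v.length := by
      intro v
      have := hg (g⁻¹ v)
      rw [show g (g⁻¹ _) = _ from Equiv.apply_symm_apply g _] at this
      exact this.symm
    refine ⟨hl, fun v u => ?_⟩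
    -- split g⁻¹ (v ++ u) at the length of v
    have h1 : g⁻¹ (v ++ u) = (g⁻¹ (v ++ u)).take v.length ++ (g⁻¹ (v ++ u)).drop v.length :=
      (List.take_append_drop _ _).symm
    obtain ⟨u', hu'⟩ := hg' ((g⁻¹ (v ++ u)).take v.length) ((g⁻¹ (v ++ u)).drop v.length)
    rw [← h1, show g (g⁻¹ _) = _ from Equiv.apply_symm_apply g _] at hu'
    have h2 : (g ((g⁻¹ (v ++ u)).take v.length)).length = v.length := by
      rw [hg, List.length_take, hl, List.length_append]; omega
    have h3 := List.append_inj hu' h2.symm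
    have h4 : g⁻¹ v = (g⁻¹ (v ++ u)).take v.length := by
      rw [Equiv.Perm.inv_eq_iff_eq]; exact h3.1
    exact ⟨(g⁻¹ (v ++ u)).drop v.length, by rw [h4]; exact h1⟩

theorem GT_le_prefGroup : GT H RA RC RD ≤ prefGroup X := by
  refine sup_le (sup_le ?_ ?_) ?_
  · rintro _ ⟨h, rfl⟩; exact ⟨aL_length h, aL_pref h⟩
  · rintro _ ⟨h, rfl⟩; exact ⟨cL_length h, cL_pref h⟩
  · rintro _ ⟨h, rfl⟩; exact ⟨dL_length h, dL_pref h⟩

theorem GT_length (g : GT H RA RC RD) (v : List X) :
    ((g : Equiv.Perm (List X)) v).length = v.length :=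
  (GT_le_prefGroup g.2).1 v

theorem GT_append (g : GT H RA RC RD) (v u : List X) :
    ∃ u' : List X, (g : Equiv.Perm (List X)) (v ++ u) = (g : Equiv.Perm (List X)) v ++ u' :=
  (GT_le_prefGroup g.2).2 v u

end

end Pool.Agent.Helper52.NA
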