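import Pool.Agent.Helper52.NA.LemmaL
import Pool.Agent.Helper52.NA.Prefix

/-!
# The counting input for `lemmaL`
-/

namespace Pool.Agent.Helper52.NA

open Finset
open scoped RealInnerProductSpace

section
variable {H X : Type} [Group H] [Fintype H] [MulAction H X] [Fintype X] [DecidableEq X]
    {RA RC RD : Finset X} {r w : ℕ} {θ : ℝ}

omit [Fintype H] [Fintype X] in
theorem mem_img (R : Finset X) (g : H) (y : X) :
    y ∈ R.image (fun x => g • x) ↔ g⁻¹ • y ∈ R := by
  simp only [mem_image]
  constructor
  · rintro ⟨x, hx, rfl⟩; simpa using hx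
  · intro h; exact ⟨_, h, by simp⟩

omit [Fintype H] [Fintype X] in
theorem card_img (R : Finset X) (g : H) : (R.image (fun x => g • x)).card = R.card :=
  Finset.card_image_of_injective _ (MulAction.injective g)

/-- the number of elements `g` for which `y` lies in the translate of `R` -/
theorem count_one (P : Par (H := H) RA RC RD r w θ) (R : Finset X) (hR : R.card = r) (y : X) :
    ((univ.filter fun g : H => g⁻¹ • y ∈ R).card : ℝ) * Fintype.card X = r * Fintype.card H := by
  classical
  have h : (univ.filter fun g : H => g⁻¹ • y ∈ R) =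
      R.biUnion (fun x => univ.filter fun g : H => g • x = y) := by
    ext g
    simp only [mem_filter, mem_univ, true_and, mem_biUnion]
    constructor
    · intro h; exact ⟨_, h, by simp⟩
    · rintro ⟨x, hx, rfl⟩; simpa using hx
  rw [h, card_biUnion]
  · push_cast
    rw [Finset.sum_mul]
    rw [Finset.sum_congr rfl (fun x _ => P.trans x y), Finset.sum_const, hR, nsmul_eq_mul]
  · intro x _ x' _ hne
    refine Finset.disjoint_left.2 fun g hg hg' => hne ?_
    simp only [mem_filter, mem_univ, true_and] at hg hg'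
    exact MulAction.injective g (hg.trans hg'.symm)

/-- the number of elements `g` for which `y`, `y'` lie in the translates of `R`, `R'` -/
theorem count_two (P : Par (H := H) RA RC RD r w θ) (R R' : Finset X)
    (hR : R.card = r) (hR' : R'.card = r) (hs : R ⊆ RA ∪ RC ∪ RD) (hs' : R' ⊆ RA ∪ RC ∪ RD)
    (y y' : X) (hne : ∀ x ∈ R, x ∈ R' → y ≠ y') :
    ((univ.filter fun g : H => g⁻¹ • y ∈ R ∧ g⁻¹ • y' ∈ R').card : ℝ) * Fintype.card X ≤
      (r : ℝ) ^ 2 * θ * Fintype.card H := by
  classical
  have h : (univ.filter fun g : H => g⁻¹ • y ∈ R ∧ g⁻¹ • y' ∈ R') ⊆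
      (R ×ˢ R').biUnion (fun t => univ.filter fun g : H => g • t.1 = y ∧ g • t.2 = y') := by
    intro g
    simp only [mem_filter, mem_univ, true_and, mem_biUnion, mem_product]
    rintro ⟨h, h'⟩
    exact ⟨(g⁻¹ • y, g⁻¹ • y'), ⟨h, h'⟩, by simp, by simp⟩
  have h1 : ((univ.filter fun g : H => g⁻¹ • y ∈ R ∧ g⁻¹ • y' ∈ R').card : ℝ) ≤
      ∑ t ∈ R ×ˢ R', ((univ.filter fun g : H => g • t.1 = y ∧ g • t.2 = y').card : ℝ) := by
    exact_mod_cast (card_le_card h).trans card_biUnion_le
  have h2 : ∀ t ∈ R ×ˢ R', ((univ.filter fun g : H => g • t.1 = y ∧ g • t.2 = y').card : ℝ) *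
      Fintype.card X ≤ θ * Fintype.card H := by
    rintro ⟨x, x'⟩ ht
    rw [mem_product] at ht
    by_cases hx : x = x'
    · subst hx
      have he : (univ.filter fun g : H => g • x = y ∧ g • x = y') = ∅ := by
        refine Finset.filter_eq_empty_iff.2 fun g _ hg => ?_
        exact hne x ht.1 ht.2 (hg.1.symm.trans hg.2)
      simp only [he, card_empty, Nat.cast_zero, zero_mul]
      have := P.θ_nonneg
      positivity
    · exact P.pair x (hs ht.1) x' (hs' ht.2) hx y y'
  calc _ ≤ (∑ t ∈ R ×ˢ R', ((univ.filter fun g : H => g • t.1 = y ∧ g • t.2 = y').card : ℝ)) *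
        Fintype.card X := by gcongr
    _ = ∑ t ∈ R ×ˢ R', ((univ.filter fun g : H => g • t.1 = y ∧ g • t.2 = y').card : ℝ) *
        Fintype.card X := by rw [Finset.sum_mul]
    _ ≤ ∑ t ∈ R ×ˢ R', θ * Fintype.card H := Finset.sum_le_sum h2
    _ = _ := by
      rw [Finset.sum_const, card_product, hR, hR', nsmul_eq_mul]
      push_cast
      ring

omit [Fintype X] in
/-- the translates of the slots of `d` -/
theorem mem_slots (RC RD : Finset X) (s : X × Bool) :
    s ∈ slots RC RD ↔ s.1 ∈ (if s.2 then RD else RC) := by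
  obtain ⟨x, b⟩ := s
  unfold slots
  simp only [mem_union, mem_map, Function.Embedding.coeFn_mk, Prod.mk.injEq]
  cases b <;> simp

omit [Fintype X] in
theorem card_slots (RC RD : Finset X) : (slots RC RD).card = RC.card + RD.card := by
  unfold slots
  rw [card_union_of_disjoint, card_map, card_map]
  refine Finset.disjoint_left.2 fun s h h' => ?_
  simp only [mem_map, Function.Embedding.coeFn_mk] at h h'
  obtain ⟨x, _, rfl⟩ := h
  obtain ⟨x', _, h'⟩ := h'
  simp at h'

variable {V : Type*} [NormedAddCommGroup V] [InnerProductSpace ℝ V] [FiniteDimensional ℝ V]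

omit [Fintype X] [FiniteDimensional ℝ V] in
/-- the translated averages have the same error on invariant vectors -/
theorem norm_transl {Sl : Type} [DecidableEq Sl] (Ua : H →* Module.End ℝ V)
    (U : (Sl → H) →* Module.End ℝ V) (hUa : ∀ g v, ‖Ua g v‖ = ‖v‖)
    (S : Finset Sl) (S' : Finset Sl) (g : H)
    (h : ∀ k, Ua g * U (ind S k) * Ua g⁻¹ = U (ind S' k))
    (z : V) (hz : ∀ g, Ua g z = z) :
    ‖z - av (fun k => U (ind S' k)) z‖ = ‖z - av (fun k => U (ind S k)) z‖ := by
  have h1 : av (fun k => U (ind S' k)) = Ua g * av (fun k => U (ind S k)) * Ua g⁻¹ := by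
    rw [av_const_mul, av_mul_const]
    congr 1
    funext k
    exact (h k).symm
  have h2 : av (fun k => U (ind S' k)) z = Ua g (av (fun k => U (ind S k)) z) := by
    rw [h1]
    change Ua g (av (fun k => U (ind S k)) (Ua g⁻¹ z)) = _
    rw [hz]
  rw [h2]
  nth_rewrite 1 [← hz g]
  rw [← map_sub, hUa]

/-- the counting input for `lemmaL`, part A: slots `X`, sets `g • RA` -/
theorem opineq_A (P : Par (H := H) RA RC RD r w θ)
    (Ua : H →* Module.End ℝ V) (UA : (X → H) →* Module.End ℝ V)
    (hUa : ∀ g v, ‖Ua g v‖ = ‖v‖) (hUA : ∀ k v, ‖UA k v‖ = ‖v‖)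
    (hA : ∀ g k, Ua g * UA k * Ua g⁻¹ = UA (fun x => k (g⁻¹ • x)))
    (z : V) (hz : ∀ g, Ua g z = z) :
    (r : ℝ) / Fintype.card X / 2 * ‖z - av UA z‖ ^ 2 ≤ ‖z - av (fun h => UA (ind RA h)) z‖ ^ 2 := by
  have hr : 0 < r := by have := P.big; omega
  have hX : 0 < Fintype.card X := by
    have : 0 < RA.card := by rw [P.cardA]; exact hr
    exact this.trans_le (card_le_univ _)
  have hXr : (0 : ℝ) < Fintype.card X := by exact_mod_cast hX
  have hrr : (0 : ℝ) < r := by exact_mod_cast hr
  have hH : (0 : ℝ) < Fintype.card H := by exact_mod_cast Fintype.card_pos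
  have hθ := P.θ_nonneg
  have key := lemmaL UA hUA (fun g : H => RA.image (fun x => g • x)) r w
    ((r : ℝ) / Fintype.card X) (r * θ) (by positivity) (by positivity) P.w_pos
    (fun g => by rw [card_img, P.cardA]) ?_ ?_ P.comm ?_ z
  · have hs : ∀ g : H, ‖z - av (fun k => UA (ind (RA.image (fun x => g • x)) k)) z‖ ^ 2 =
        ‖z - av (fun k => UA (ind RA k)) z‖ ^ 2 := by
      intro g
      rw [norm_transl Ua UA hUa RA _ g _ z hz]
      intro k
      rw [hA]
      congr 1
      funext x
      unfold ind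
      simp only [mem_img]
    rw [Finset.sum_congr rfl (fun g _ => hs g), Finset.sum_const, card_univ, nsmul_eq_mul,
      ← mul_assoc, inv_mul_cancel₀ hH.ne', one_mul] at key
    exact key
  · intro s
    simp only [mem_img]
    have := count_one P RA P.cardA s
    field_simp
    linarith
  · intro s s' hne
    simp only [mem_img]
    have hsub : RA ⊆ RA ∪ RC ∪ RD := fun x hx => by simp [hx]
    have := count_two P RA RA P.cardA P.cardA hsub hsub s s' (fun _ _ _ => hne)
    have e : (r : ℝ) * θ * (r / Fintype.card X * Fintype.card H) =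
        (r : ℝ) ^ 2 * θ * Fintype.card H / Fintype.card X := by field_simp
    rw [e, le_div_iff₀ hXr]
    exact this
  · have := P.small
    have h0 : 0 ≤ (w : ℝ) ^ 2 * (r : ℝ) ^ 2 * θ := by positivity
    nlinarith

/-- the counting input for `lemmaL`, part B: slots `X × Bool` -/
theorem opineq_B (P : Par (H := H) RA RC RD r w θ)
    (Ua : H →* Module.End ℝ V) (UB : (X × Bool → H) →* Module.End ℝ V)
    (hUa : ∀ g v, ‖Ua g v‖ = ‖v‖) (hUB : ∀ k v, ‖UB k v‖ = ‖v‖)
    (hB : ∀ g k, Ua g * UB k * Ua g⁻¹ = UB (fun s => k (g⁻¹ • s.1, s.2)))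
    (z : V) (hz : ∀ g, Ua g z = z) :
    (r : ℝ) / Fintype.card X / 2 * ‖z - av UB z‖ ^ 2 ≤
      ‖z - av (fun h => UB (ind (slots RC RD) h)) z‖ ^ 2 := by
  have hr : 0 < r := by have := P.big; omega
  have hX : 0 < Fintype.card X := by
    have : 0 < RA.card := by rw [P.cardA]; exact hr
    exact this.trans_le (card_le_univ _)
  have hXr : (0 : ℝ) < Fintype.card X := by exact_mod_cast hX
  have hrr : (0 : ℝ) < r := by exact_mod_cast hr
  have hH : (0 : ℝ) < Fintype.card H := by exact_mod_cast Fintype.card_pos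
  have hθ := P.θ_nonneg
  have hm : ∀ (g : H) (s : X × Bool),
      s ∈ slots (RC.image (fun x => g • x)) (RD.image (fun x => g • x)) ↔
        g⁻¹ • s.1 ∈ (if s.2 then RD else RC) := by
    intro g s
    rw [mem_slots]
    rcases s with ⟨y, b⟩
    cases b <;> simp only [Bool.false_eq_true, if_false, if_true, mem_img]
  have hcard : ∀ b : Bool, (if b then RD else RC).card = r := by
    intro b; cases b
    · exact P.cardC
    · exact P.cardD
  have hsub : ∀ b : Bool, (if b then RD else RC) ⊆ RA ∪ RC ∪ RD := by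
    intro b; cases b
    · intro x hx; simp at hx; simp [hx]
    · intro x hx; simp at hx; simp [hx]
  have key := lemmaL UB hUB
    (fun g : H => slots (RC.image (fun x => g • x)) (RD.image (fun x => g • x))) (2 * r) w
    ((r : ℝ) / Fintype.card X) (r * θ) (by positivity) (by positivity) P.w_pos
    (fun g => by rw [card_slots, card_img, card_img, P.cardC, P.cardD]; ring) ?_ ?_ P.comm ?_ z
  · have hs : ∀ g : H, ‖z - av (fun k => UB (ind
        (slots (RC.image (fun x => g • x)) (RD.image (fun x => g • x))) k)) z‖ ^ 2 =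
        ‖z - av (fun k => UB (ind (slots RC RD) k)) z‖ ^ 2 := by
      intro g
      rw [norm_transl Ua UB hUa (slots RC RD) _ g _ z hz]
      intro k
      rw [hB]
      congr 1
      funext s
      unfold ind
      simp only [hm, mem_slots]
    rw [Finset.sum_congr rfl (fun g _ => hs g), Finset.sum_const, card_univ, nsmul_eq_mul,
      ← mul_assoc, inv_mul_cancel₀ hH.ne', one_mul] at key
    exact key
  · intro s
    simp only [hm]
    have := count_one P (if s.2 then RD else RC) (hcard s.2) s.1
    field_simp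
    linarith
  · intro s s' hne
    simp only [hm]
    have := count_two P (if s.2 then RD else RC) (if s'.2 then RD else RC) (hcard s.2)
      (hcard s'.2) (hsub s.2) (hsub s'.2) s.1 s'.1 ?_
    · have e : (r : ℝ) * θ * (r / Fintype.card X * Fintype.card H) =
          (r : ℝ) ^ 2 * θ * Fintype.card H / Fintype.card X := by field_simp
      rw [e, le_div_iff₀ hXr]
      exact this
    · intro x hx hx' hy
      have hb : s.2 ≠ s'.2 := fun hb => hne (Prod.ext hy hb)
      rcases s with ⟨y, b⟩
      rcases s' with ⟨y', b'⟩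
      cases b <;> cases b' <;> simp at hx hx' hb
      · exact (Finset.disjoint_left.1 P.dCD) hx hx'
      · exact (Finset.disjoint_left.1 P.dCD) hx' hx
  · have := P.small
    push_cast
    nlinarith

end

end Pool.Agent.Helper52.NA
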