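import Pool.Agent.Helper52.NA.Prefix

/-!
# MODULE OPB, part 1: projections, the operators of one level (everything not using OPA)
-/

namespace Pool.Agent.Helper52.NA

open Finset
open scoped RealInnerProductSpace

section Proj

variable {V : Type*} [NormedAddCommGroup V] [InnerProductSpace ℝ V]

/-- symmetric idempotents -/
structure SI (P : Module.End ℝ V) : Prop where
  symm : P.IsSymmetric
  idem : P * P = P

theorem SI.apply {P : Module.End ℝ V} (h : SI P) (v : V) : P (P v) = P v := by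
  have := congrArg (fun f : Module.End ℝ V => f v) h.idem
  simpa using this

theorem SI.inner {P : Module.End ℝ V} (h : SI P) (v : V) : ⟪P v, v⟫ = ‖P v‖ ^ 2 := by
  rw [← real_inner_self_eq_norm_sq]
  nth_rw 1 [← h.apply v]
  rw [h.symm]

theorem SI.pyth {P : Module.End ℝ V} (h : SI P) (v : V) :
    ‖v‖ ^ 2 = ‖P v‖ ^ 2 + ‖v - P v‖ ^ 2 := by
  have h1 := norm_sub_sq_real v (P v)
  have h2 := h.inner v
  rw [real_inner_comm] at h2
  rw [h2] at h1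
  linarith

theorem SI.norm_le {P : Module.End ℝ V} (h : SI P) (v : V) : ‖P v‖ ≤ ‖v‖ := by
  have h1 := h.pyth v
  exact le_of_sq_le_sq (by nlinarith [sq_nonneg ‖v - P v‖]) (norm_nonneg _)

theorem SI.norm_sub_le {P : Module.End ℝ V} (h : SI P) (v : V) : ‖v - P v‖ ≤ ‖v‖ := by
  have h1 := h.pyth v
  exact le_of_sq_le_sq (by nlinarith [sq_nonneg ‖P v‖]) (norm_nonneg _)

/-- `P v` is the best approximation of `v` in the range of `P` -/
theorem SI.norm_sub_le' {P : Module.End ℝ V} (h : SI P) (v y : V) :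
    ‖v - P v‖ ≤ ‖v - P y‖ := by
  have h1 : v - P v = (v - P y) - P (v - P y) := by
    rw [map_sub, h.apply]; abel
  rw [h1]
  exact h.norm_sub_le _

theorem SI.mul {P Q : Module.End ℝ V} (hP : SI P) (hQ : SI Q) (hc : P * Q = Q * P) :
    SI (P * Q) where
  symm := by
    intro v w
    show ⟪P (Q v), w⟫ = ⟪v, P (Q w)⟫
    rw [hP.symm, hQ.symm]
    have := congrArg (fun f : Module.End ℝ V => f w) hc
    have h1 : P (Q w) = Q (P w) := by simpa using this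
    rw [h1]
  idem := by
    calc P * Q * (P * Q) = P * (Q * P) * Q := by simp only [mul_assoc]
      _ = (P * P) * (Q * Q) := by rw [← hc]; simp only [mul_assoc]
      _ = P * Q := by rw [hP.idem, hQ.idem]

theorem SI.sandwich_symm {P M : Module.End ℝ V} (hP : SI P) (hM : SI M) :
    (P * M * P).IsSymmetric ∧ ∀ z, ⟪(P * M * P) z, z⟫ = ‖M (P z)‖ ^ 2 := by
  constructor
  · intro v w
    show ⟪P (M (P v)), w⟫ = ⟪v, P (M (P w))⟫
    rw [hP.symm, hM.symm, hP.symm]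
  · intro z
    show ⟪P (M (P z)), z⟫ = _
    rw [hP.symm, hM.inner]

theorem SI.av {K : Type*} [Group K] [Fintype K] (U : K →* Module.End ℝ V)
    (hU : ∀ k v, ‖U k v‖ = ‖v‖) : SI (av U) :=
  ⟨av_symm U hU, av_idem U⟩

end Proj

section ind

variable {Sl H : Type*} [DecidableEq Sl] [Group H]

/-- `ind S` as a homomorphism -/
def indHomB (S : Finset Sl) : H →* (Sl → H) where
  toFun := ind S
  map_one' := by funext s; simp [ind]
  map_mul' h h' := by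
    funext s
    by_cases hs : s ∈ S <;> simp [ind, hs]

end ind

/-- the elementary inequality behind `op_ineq` -/
theorem op_aux {V : Type*} [NormedAddCommGroup V] [InnerProductSpace ℝ V]
    {Pa Pc Pd PA PB : Module.End ℝ V} (ha : SI Pa) (hc : SI Pc) (hd : SI Pd) (hA : SI PA)
    (hB : SI PB) (hcd : Pc * Pd = Pd * Pc) (p : ℝ) (hp0 : 0 ≤ p) (hp1 : p ≤ 1) (z : V)
    (h1 : p / 2 * ‖Pa z - PA (Pa z)‖ ^ 2 ≤ ‖Pa z - Pc (Pa z)‖ ^ 2)
    (h2 : p / 2 * ‖Pa z - PB (Pa z)‖ ^ 2 ≤ ‖Pa z - Pd (Pa z)‖ ^ 2) :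
    ⟪(Pa * (Pc * Pd) * Pa) z, z⟫ ≤
      ⟪((1 - p / 20) • (1 : Module.End ℝ V) + (p / 20) • (PA * PB * PA)) z, z⟫ := by
  have hM : SI (Pc * Pd) := hc.mul hd hcd
  set z0 := Pa z with hz0
  set z1 := z - Pa z with hz1
  rw [(ha.sandwich_symm hM).2 z]
  have hrhs : ⟪((1 - p / 20) • (1 : Module.End ℝ V) + (p / 20) • (PA * PB * PA)) z, z⟫ =
      ‖z‖ ^ 2 - p / 20 * (‖z‖ ^ 2 - ‖PB (PA z)‖ ^ 2) := by
    rw [LinearMap.add_apply, LinearMap.smul_apply, LinearMap.smul_apply, inner_add_left,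
      inner_smul_left, inner_smul_left, (hA.sandwich_symm hB).2 z]
    simp only [Module.End.one_apply, real_inner_self_eq_norm_sq, RCLike.conj_to_real]
    ring
  rw [hrhs]
  -- the quadratic form of `1 - Q`
  have hN : ∀ v : V, ‖v‖ ^ 2 - ‖PB (PA v)‖ ^ 2 = ‖v - PA v‖ ^ 2 + ‖PA v - PB (PA v)‖ ^ 2 := by
    intro v
    have e1 := hA.pyth v
    have e2 := hB.pyth (PA v)
    linarith
  have hz : z = z0 + z1 := by rw [hz0, hz1]; abel
  have h2sq : ∀ a b : V, ‖a + b‖ ^ 2 ≤ 2 * ‖a‖ ^ 2 + 2 * ‖b‖ ^ 2 := by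
    intro a b
    have e1 := norm_add_le a b
    nlinarith [norm_nonneg (a + b), norm_nonneg a, norm_nonneg b, sq_nonneg (‖a‖ - ‖b‖),
      pow_le_pow_left₀ (norm_nonneg _) e1 2]
  have hsplit : ‖z‖ ^ 2 - ‖PB (PA z)‖ ^ 2 ≤
      2 * (‖z0‖ ^ 2 - ‖PB (PA z0)‖ ^ 2) + 2 * (‖z1‖ ^ 2 - ‖PB (PA z1)‖ ^ 2) := by
    rw [hN z, hN z0, hN z1]
    have e1 : z - PA z = (z0 - PA z0) + (z1 - PA z1) := by
      rw [hz, map_add]; abel
    have e2 : PA z - PB (PA z) = (PA z0 - PB (PA z0)) + (PA z1 - PB (PA z1)) := by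
      rw [hz]; simp only [map_add]; abel
    rw [e1, e2]
    have e3 := h2sq (z0 - PA z0) (z1 - PA z1)
    have e4 := h2sq (PA z0 - PB (PA z0)) (PA z1 - PB (PA z1))
    linarith
  set w0 := ‖z0 - (Pc * Pd) z0‖ ^ 2 with hw0
  have hca : ‖z0 - Pc z0‖ ^ 2 ≤ w0 := by
    have e1 := hc.norm_sub_le' z0 (Pd z0)
    exact pow_le_pow_left₀ (norm_nonneg _) e1 2
  have hda : ‖z0 - Pd z0‖ ^ 2 ≤ w0 := by
    have e1 := hd.norm_sub_le' z0 (Pc z0)
    have e2 : Pd (Pc z0) = (Pc * Pd) z0 := by rw [hcd]; rfl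
    rw [e2] at e1
    exact pow_le_pow_left₀ (norm_nonneg _) e1 2
  set α := ‖z0 - PA z0‖ with hα
  set β := ‖z0 - PB z0‖ with hβ
  have hα0 : 0 ≤ α := norm_nonneg _
  have hβ0 : 0 ≤ β := norm_nonneg _
  have hNz0 : ‖z0‖ ^ 2 - ‖PB (PA z0)‖ ^ 2 ≤ 3 * α ^ 2 + 2 * β ^ 2 := by
    rw [hN z0]
    have e1 : PA z0 - PB (PA z0) = (z0 - PB z0) - ((z0 - PA z0) - PB (z0 - PA z0)) := by
      rw [map_sub]; abel
    have e2 : ‖PA z0 - PB (PA z0)‖ ≤ β + α := by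
      rw [e1]
      refine (norm_sub_le _ _).trans ?_
      have := hB.norm_sub_le (z0 - PA z0)
      linarith
    have e3 := pow_le_pow_left₀ (norm_nonneg _) e2 2
    nlinarith [sq_nonneg (α - β)]
  have hNz1 : ‖z1‖ ^ 2 - ‖PB (PA z1)‖ ^ 2 ≤ ‖z1‖ ^ 2 := by
    nlinarith [sq_nonneg ‖PB (PA z1)‖]
  have hpy : ‖z‖ ^ 2 = ‖z0‖ ^ 2 + ‖z1‖ ^ 2 := ha.pyth z
  have hpy0 : ‖z0‖ ^ 2 = ‖(Pc * Pd) z0‖ ^ 2 + w0 := hM.pyth z0
  have hpa : p * α ^ 2 ≤ 2 * w0 := by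
    have := h1.trans hca
    linarith
  have hpb : p * β ^ 2 ≤ 2 * w0 := by
    have := h2.trans hda
    linarith
  have hfin : p / 20 * (‖z‖ ^ 2 - ‖PB (PA z)‖ ^ 2) ≤ w0 + ‖z1‖ ^ 2 := by
    have e1 : p / 20 * (‖z‖ ^ 2 - ‖PB (PA z)‖ ^ 2) ≤
        p / 20 * (2 * (3 * α ^ 2 + 2 * β ^ 2) + 2 * ‖z1‖ ^ 2) :=
      mul_le_mul_of_nonneg_left (by linarith) (by positivity)
    have e2 : p / 20 * (2 * (3 * α ^ 2 + 2 * β ^ 2) + 2 * ‖z1‖ ^ 2) =
        (6 * (p * α ^ 2) + 4 * (p * β ^ 2)) / 20 + p / 10 * ‖z1‖ ^ 2 := by ring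
    have e3 : p / 10 * ‖z1‖ ^ 2 ≤ 1 * ‖z1‖ ^ 2 :=
      mul_le_mul_of_nonneg_right (by linarith) (by positivity)
    linarith
  have hMz : ‖(Pc * Pd) (Pa z)‖ ^ 2 = ‖(Pc * Pd) z0‖ ^ 2 := rfl
  linarith

section
variable {H X : Type} [Group H] [Fintype H] [MulAction H X] [Fintype X] [DecidableEq X]
    {RA RC RD : Finset X} {r w : ℕ} {θ : ℝ}
    {V : Type*} [NormedAddCommGroup V] [InnerProductSpace ℝ V] [FiniteDimensional ℝ V]

theorem SI_c (UA : (X → H) →* Module.End ℝ V) (hUA : ∀ k v, ‖UA k v‖ = ‖v‖) (S : Finset X) :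
    SI (av fun h => UA (ind S h)) :=
  SI.av (UA.comp (indHomB S)) (fun _ _ => hUA _ _)

theorem SI_d (UB : (X × Bool → H) →* Module.End ℝ V) (hUB : ∀ k v, ‖UB k v‖ = ‖v‖)
    (S : Finset (X × Bool)) : SI (av fun h => UB (ind S h)) :=
  SI.av (UB.comp (indHomB S)) (fun _ _ => hUB _ _)

theorem cd_commB (UA : (X → H) →* Module.End ℝ V)
    (UB : (X × Bool → H) →* Module.End ℝ V)
    (hcd : ∀ h h', Commute (UA (ind RA h)) (UB (ind (slots RC RD) h'))) :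
    av (fun h => UA (ind RA h)) * av (fun h => UB (ind (slots RC RD) h)) =
      av (fun h => UB (ind (slots RC RD) h)) * av (fun h => UA (ind RA h)) := by
  rw [av_mul, av_mul, ← av_equiv (Equiv.prodComm H H)]
  congr 1
  funext q
  exact (hcd _ _).eq

theorem opS_symm (Ua : H →* Module.End ℝ V) (UA : (X → H) →* Module.End ℝ V)
    (UB : (X × Bool → H) →* Module.End ℝ V)
    (hUa : ∀ g v, ‖Ua g v‖ = ‖v‖) (hUA : ∀ k v, ‖UA k v‖ = ‖v‖) (hUB : ∀ k v, ‖UB k v‖ = ‖v‖)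
    (hcd : ∀ h h', Commute (UA (ind RA h)) (UB (ind (slots RC RD) h'))) :
    (opS Ua UA UB RA RC RD).IsSymmetric ∧ ∀ z, 0 ≤ ⟪opS Ua UA UB RA RC RD z, z⟫ := by
  have hM := (SI_c UA hUA RA).mul (SI_d UB hUB (slots RC RD)) (cd_commB UA UB hcd)
  have key := (SI.av Ua hUa).sandwich_symm hM
  have h1 : opS Ua UA UB RA RC RD = av Ua *
      ((av fun h => UA (ind RA h)) * (av fun h => UB (ind (slots RC RD) h))) * av Ua := by
    unfold opS
    rw [mul_assoc (av Ua) (av fun h => UA (ind RA h))]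
  rw [h1]
  refine ⟨key.1, fun z => ?_⟩
  rw [key.2]
  positivity

theorem opQ_symm (UA : (X → H) →* Module.End ℝ V) (UB : (X × Bool → H) →* Module.End ℝ V)
    (hUA : ∀ k v, ‖UA k v‖ = ‖v‖) (hUB : ∀ k v, ‖UB k v‖ = ‖v‖) :
    (opQ UA UB).IsSymmetric ∧ ∀ z, 0 ≤ ⟪opQ UA UB z, z⟫ := by
  have key := (SI.av UA hUA).sandwich_symm (SI.av UB hUB)
  unfold opQ
  refine ⟨key.1, fun z => ?_⟩
  rw [key.2]
  positivity

end

end Pool.Agent.Helper52.NA
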