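import Pool.Agent.Helper52.NA.OpA
import Pool.Agent.Helper52.NA.OpbBase

/-!
# MODULE OPB: the operator inequality for one level
-/

namespace Pool.Agent.Helper52.NA

open Finset
open scoped RealInnerProductSpace

section
variable {H X : Type} [Group H] [Fintype H] [MulAction H X] [Fintype X] [DecidableEq X]
    {RA RC RD : Finset X} {r w : ℕ} {θ : ℝ}
    {V : Type*} [NormedAddCommGroup V] [InnerProductSpace ℝ V] [FiniteDimensional ℝ V]

theorem op_ineq (P : Par (H := H) RA RC RD r w θ)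
    (Ua : H →* Module.End ℝ V) (UA : (X → H) →* Module.End ℝ V)
    (UB : (X × Bool → H) →* Module.End ℝ V)
    (hUa : ∀ g v, ‖Ua g v‖ = ‖v‖) (hUA : ∀ k v, ‖UA k v‖ = ‖v‖) (hUB : ∀ k v, ‖UB k v‖ = ‖v‖)
    (hA : ∀ g k, Ua g * UA k * Ua g⁻¹ = UA (fun x => k (g⁻¹ • x)))
    (hB : ∀ g k, Ua g * UB k * Ua g⁻¹ = UB (fun s => k (g⁻¹ • s.1, s.2)))
    (hcd : ∀ h h', Commute (UA (ind RA h)) (UB (ind (slots RC RD) h')))
    (c : ℝ) (hc : c = r / (20 * Fintype.card X)) (z : V) :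
    ⟪opS Ua UA UB RA RC RD z, z⟫ ≤ ⟪((1 - c) • (1 : Module.End ℝ V) + c • opQ UA UB) z, z⟫ := by
  have hp0 : (0 : ℝ) ≤ (r : ℝ) / Fintype.card X := by positivity
  have hp1 : (r : ℝ) / Fintype.card X ≤ 1 := by
    refine div_le_one_of_le₀ ?_ (by positivity)
    rw [← P.cardA]
    exact_mod_cast Finset.card_le_univ RA
  have hc' : c = (r : ℝ) / Fintype.card X / 20 := by
    rw [hc, div_div, mul_comm (20 : ℝ)]
  have hfix : ∀ g, Ua g (av Ua z) = av Ua z := fun g => apply_av Ua g z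
  have key := op_aux (SI.av Ua hUa) (SI_c UA hUA RA) (SI_d UB hUB (slots RC RD))
    (SI.av UA hUA) (SI.av UB hUB) (cd_commB UA UB hcd) ((r : ℝ) / Fintype.card X) hp0 hp1 z
    (opineq_A P Ua UA hUa hUA hA (av Ua z) hfix) (opineq_B P Ua UB hUa hUB hB (av Ua z) hfix)
  rw [hc']
  unfold opS opQ
  rw [mul_assoc (av Ua) (av fun h => UA (ind RA h))]
  exact key

end

end Pool.Agent.Helper52.NA
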