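import Pool.Agent.Helper52.NA.Defs

/-!
# Averages over finite groups of isometries are orthogonal projections
-/

namespace Pool.Agent.Helper52.NA

open Finset

section Algebra

variable {V : Type*} [AddCommGroup V] [Module ℝ V]

theorem av_apply {Om : Type*} [Fintype Om] (u : Om → Module.End ℝ V) (v : V) :
    av u v = (Fintype.card Om : ℝ)⁻¹ • ∑ o, u o v := by
  simp [av, LinearMap.sum_apply]

theorem av_equiv {Om Om' : Type*} [Fintype Om] [Fintype Om'] (e : Om ≃ Om')
    (u : Om' → Module.End ℝ V) : av (fun o => u (e o)) = av u := by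
  unfold av
  rw [Fintype.card_congr e, Equiv.sum_comp e]

theorem av_mul {Om Om' : Type*} [Fintype Om] [Fintype Om'] (u : Om → Module.End ℝ V)
    (v : Om' → Module.End ℝ V) : av u * av v = av (fun p : Om × Om' => u p.1 * v p.2) := by
  unfold av
  rw [Fintype.card_prod, Fintype.sum_prod_type, smul_mul_smul_comm, Finset.sum_mul_sum]
  congr 1
  push_cast
  rw [mul_inv]

theorem av_const_mul {Om : Type*} [Fintype Om] (A : Module.End ℝ V) (u : Om → Module.End ℝ V) :
    A * av u = av (fun o => A * u o) := by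
  simp [av, Finset.mul_sum]

theorem av_mul_const {Om : Type*} [Fintype Om] (A : Module.End ℝ V) (u : Om → Module.End ℝ V) :
    av u * A = av (fun o => u o * A) := by
  simp [av, Finset.sum_mul]

theorem av_const {Om : Type*} [Fintype Om] [Nonempty Om] (A : Module.End ℝ V) :
    av (fun _ : Om => A) = A := by
  unfold av
  have h : (Fintype.card Om : ℝ) ≠ 0 := by positivity
  rw [Finset.sum_const, Finset.card_univ, ← Nat.cast_smul_eq_nsmul ℝ, smul_smul,
    inv_mul_cancel₀ h, one_smul]

theorem av_pow {Om : Type*} [Fintype Om] (u : Om → Module.End ℝ V) (n : ℕ) :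
    (av u) ^ n = av (fun w : Fin n → Om => (List.ofFn fun i => u (w i)).prod) := by
  induction n with
  | zero =>
    rw [pow_zero]
    have : (fun w : Fin 0 → Om => (List.ofFn fun i => u (w i)).prod) = fun _ => 1 := by
      funext w; simp
    rw [this, av_const]
  | succ n ih =>
    rw [pow_succ', ih, av_mul, ← av_equiv (Fin.consEquiv (fun _ : Fin (n + 1) => Om))]
    congr 1
    funext p
    simp [List.ofFn_succ]

variable {K : Type*} [Group K] [Fintype K] (U : K →* Module.End ℝ V)

theorem mul_av (k : K) : U k * av U = av U := by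
  rw [av_const_mul]
  conv_rhs => rw [← av_equiv (Equiv.mulLeft k)]
  congr 1
  funext l
  simp

theorem av_mul' (k : K) : av U * U k = av U := by
  rw [av_mul_const]
  conv_rhs => rw [← av_equiv (Equiv.mulRight k)]
  congr 1
  funext l
  simp

theorem av_idem : av U * av U = av U := by
  conv_lhs => rw [av_const_mul]
  have : (fun k => av U * U k) = fun _ => av U := by
    funext k; exact av_mul' U k
  rw [this, av_const]

theorem apply_av (k : K) (v : V) : U k (av U v) = av U v := by
  have := congrArg (fun f : Module.End ℝ V => f v) (mul_av U k)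
  simpa using this

theorem av_av (v : V) : av U (av U v) = av U v := by
  have := congrArg (fun f : Module.End ℝ V => f v) (av_idem U)
  simpa using this

theorem av_of_fixed (v : V) (h : ∀ k, U k v = v) : av U v = v := by
  rw [av_apply]
  simp only [h, Finset.sum_const, Finset.card_univ]
  have h' : (Fintype.card K : ℝ) ≠ 0 := by positivity
  rw [← Nat.cast_smul_eq_nsmul ℝ, smul_smul, inv_mul_cancel₀ h', one_smul]

end Algebra

section Inner

open scoped RealInnerProductSpace

variable {V : Type*} [NormedAddCommGroup V] [InnerProductSpace ℝ V]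
variable {K : Type*} [Group K]  (U : K →* Module.End ℝ V)

theorem inner_apply_apply (hU : ∀ k v, ‖U k v‖ = ‖v‖) (k : K) (v w : V) :
    ⟪U k v, U k w⟫ = ⟪v, w⟫ := by
  have h1 := hU k (v + w)
  have h2 := hU k v
  have h3 := hU k w
  have h4 : ‖U k v + U k w‖ ^ 2 = ‖v + w‖ ^ 2 := by rw [← h1, map_add]
  rw [norm_add_sq_real, norm_add_sq_real, h2, h3] at h4
  linarith

theorem inner_apply_left (hU : ∀ k v, ‖U k v‖ = ‖v‖) (k : K) (v w : V) :
    ⟪U k v, w⟫ = ⟪v, U k⁻¹ w⟫ := by
  rw [← inner_apply_apply U hU k v (U k⁻¹ w)]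
  have : U k (U k⁻¹ w) = w := by
    have := congrArg (fun f : Module.End ℝ V => f w) (map_mul U k k⁻¹)
    simpa using this.symm
  rw [this]

variable [Fintype K]

theorem av_symm (hU : ∀ k v, ‖U k v‖ = ‖v‖) : (av U).IsSymmetric := by
  intro v w
  rw [av_apply, av_apply, inner_smul_left, inner_smul_right, sum_inner, inner_sum]
  congr 1
  rw [← Equiv.sum_comp (Equiv.inv K)]
  refine Finset.sum_congr rfl fun k _ => ?_
  rw [inner_apply_left U hU]
  simp

theorem av_inner (hU : ∀ k v, ‖U k v‖ = ‖v‖) (v : V) : ⟪av U v, v⟫ = ‖av U v‖ ^ 2 := by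
  rw [← real_inner_self_eq_norm_sq]
  nth_rw 1 [← av_av U v]
  rw [av_symm U hU]

theorem norm_sq_av_add (hU : ∀ k v, ‖U k v‖ = ‖v‖) (v : V) :
    ‖v‖ ^ 2 = ‖av U v‖ ^ 2 + ‖v - av U v‖ ^ 2 := by
  have h := norm_sub_sq_real v (av U v)
  have h2 := av_inner U hU v
  rw [real_inner_comm] at h2
  rw [h2] at h
  linarith

theorem norm_av_le (hU : ∀ k v, ‖U k v‖ = ‖v‖) (v : V) : ‖av U v‖ ≤ ‖v‖ := by
  have h := norm_sq_av_add U hU v
  have h2 := sq_nonneg ‖v - av U v‖
  exact le_of_sq_le_sq (by linarith) (norm_nonneg _)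

theorem norm_sub_av_le (hU : ∀ k v, ‖U k v‖ = ‖v‖) (v : V) : ‖v - av U v‖ ≤ ‖v‖ := by
  have h := norm_sq_av_add U hU v
  have h2 := sq_nonneg ‖av U v‖
  exact le_of_sq_le_sq (by linarith) (norm_nonneg _)

theorem norm_apply_sub_le (hU : ∀ k v, ‖U k v‖ = ‖v‖) (k : K) (v : V) :
    ‖U k v - v‖ ≤ 2 * ‖v - av U v‖ := by
  have h : U k v - v = U k (v - av U v) - (v - av U v) := by
    rw [map_sub, apply_av]; abel
  rw [h]
  calc _ ≤ ‖U k (v - av U v)‖ + ‖v - av U v‖ := norm_sub_le _ _
    _ = _ := by rw [hU]; ring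

end Inner

end Pool.Agent.Helper52.NA
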