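import Pool.Agent.Helper52.NA.Prefix

/-!
# Restriction of the automaton group to the levels
-/

namespace Pool.Agent.Helper52.NA

set_option linter.unusedSectionVars false

open Finset

section

variable {H X : Type} [Group H] [Fintype H] [MulAction H X] [Fintype X] [DecidableEq X]
    {RA RC RD : Finset X}

/-- The list of letters of a point of a level. -/
def toL (hC : Disjoint RA RC) (hD : Disjoint RA RD) :
    ∀ m, (lvl (H := H) RA RC RD hC hD m).Y → List X
  | 0, _ => []
  | m + 1, p => p.1 :: toL hC hD m p.2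

theorem toL_length (hC : Disjoint RA RC) (hD : Disjoint RA RD) :
    ∀ m (y : (lvl (H := H) RA RC RD hC hD m).Y), (toL (H := H) hC hD m y).length = m
  | 0, _ => rfl
  | m + 1, p => by
    change (p.1 :: toL hC hD m p.2).length = m + 1
    rw [List.length_cons, toL_length hC hD m p.2]

theorem toL_injective (hC : Disjoint RA RC) (hD : Disjoint RA RD) :
    ∀ m, Function.Injective (toL (H := H) hC hD m)
  | 0 => fun a b _ => (rfl : (a : Unit) = (b : Unit))
  | m + 1 => fun p p' h => by
    change p.1 :: toL hC hD m p.2 = p'.1 :: toL hC hD m p'.2 at h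
    rw [List.cons.injEq] at h
    exact Prod.ext h.1 (toL_injective hC hD m h.2)

theorem toL_surj (hC : Disjoint RA RC) (hD : Disjoint RA RD) :
    ∀ m (l : List X), l.length = m → ∃ y, toL (H := H) hC hD m y = l
  | 0, l, hl => ⟨(), (List.length_eq_zero_iff.1 hl).symm⟩
  | m + 1, [], hl => by simp at hl
  | m + 1, x :: l, hl => by
    obtain ⟨y, hy⟩ := toL_surj hC hD m l (by simpa using hl)
    exact ⟨(x, y), by change x :: toL hC hD m y = _; rw [hy]⟩

theorem toL_a (hC : Disjoint RA RC) (hD : Disjoint RA RD) (h : H) :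
    ∀ m (y : (lvl (H := H) RA RC RD hC hD m).Y),
      toL hC hD m ((lvl (H := H) RA RC RD hC hD m).a h y) = aL h (toL hC hD m y)
  | 0, _ => rfl
  | _ + 1, _ => rfl

theorem toL_c (hC : Disjoint RA RC) (hD : Disjoint RA RD) (h : H) :
    ∀ m (y : (lvl (H := H) RA RC RD hC hD m).Y),
      toL hC hD m ((lvl (H := H) RA RC RD hC hD m).c h y) = cL RA h (toL hC hD m y)
  | 0, _ => rfl
  | m + 1, (x, y) => by
    have ih := toL_a (H := H) hC hD h m y
    change x :: toL hC hD m ((if x ∈ RA then (lvl (H := H) RA RC RD hC hD m).a h else 1) y) =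
      x :: (if x ∈ RA then aL h (toL hC hD m y) else toL hC hD m y)
    by_cases hx : x ∈ RA
    · simp only [if_pos hx, ih]
    · simp only [if_neg hx, Equiv.Perm.one_apply]

theorem toL_d (hC : Disjoint RA RC) (hD : Disjoint RA RD) (h : H) :
    ∀ m (y : (lvl (H := H) RA RC RD hC hD m).Y),
      toL hC hD m ((lvl (H := H) RA RC RD hC hD m).d h y) = dL RA RC RD h (toL hC hD m y)
  | 0, _ => rfl
  | m + 1, (x, y) => by
    have ihc := toL_c (H := H) hC hD h m y
    have ihd := toL_d hC hD h m y
    change x :: toL hC hD m ((if x ∈ RC then (lvl (H := H) RA RC RD hC hD m).c h else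
        if x ∈ RD then (lvl (H := H) RA RC RD hC hD m).d h else 1) y) =
      x :: (if x ∈ RC then cL RA h (toL hC hD m y) else
        if x ∈ RD then dL RA RC RD h (toL hC hD m y) else toL hC hD m y)
    by_cases hx : x ∈ RC
    · simp only [if_pos hx, ihc]
    · by_cases hx' : x ∈ RD
      · simp only [if_neg hx, if_pos hx', ihd]
      · simp only [if_neg hx, if_neg hx', Equiv.Perm.one_apply]

/-- Points of a level are lists of letters of the length of the level. -/
noncomputable def lvlEquiv (hC : Disjoint RA RC) (hD : Disjoint RA RD) (m : ℕ) :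
    (lvl (H := H) RA RC RD hC hD m).Y ≃ {l : List X // l.length = m} :=
  Equiv.ofBijective (fun y => ⟨toL hC hD m y, toL_length hC hD m y⟩)
    ⟨fun _ _ h => toL_injective hC hD m (congrArg Subtype.val h),
      fun l => by
        obtain ⟨y, hy⟩ := toL_surj (H := H) hC hD m l.1 l.2
        exact ⟨y, Subtype.ext hy⟩⟩

/-- The restriction to the level `m`. -/
noncomputable def rest (hC : Disjoint RA RC) (hD : Disjoint RA RD) (m : ℕ) :
    GT H RA RC RD →* Equiv.Perm (lvl (H := H) RA RC RD hC hD m).Y where
  toFun g := (lvlEquiv hC hD m).symm.permCongr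
    ((g : Equiv.Perm (List X)).subtypePerm (p := fun l => l.length = m) fun l => by
      rw [GT_length g l])
  map_one' := by
    ext y
    simp [Equiv.permCongr_apply]
  map_mul' g h := by
    ext y
    simp [Equiv.permCongr_apply]

theorem toL_rest (hC : Disjoint RA RC) (hD : Disjoint RA RD) (m : ℕ) (g : GT H RA RC RD)
    (y : (lvl (H := H) RA RC RD hC hD m).Y) :
    toL hC hD m (rest hC hD m g y) = (g : Equiv.Perm (List X)) (toL hC hD m y) := by
  have h : lvlEquiv hC hD m (rest hC hD m g y) =
      ((g : Equiv.Perm (List X)).subtypePerm (p := fun l => l.length = m) fun l => by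
        rw [GT_length g l]) (lvlEquiv hC hD m y) := by
    simp only [rest, MonoidHom.coe_mk, OneHom.coe_mk, Equiv.permCongr_apply, Equiv.symm_symm,
      Equiv.apply_symm_apply]
  exact congrArg Subtype.val h

/-- restriction to the levels -/
theorem exists_rest (hC : Disjoint RA RC) (hD : Disjoint RA RD) :
    ∃ ρ : ∀ m, GT H RA RC RD →* Equiv.Perm (lvl (H := H) RA RC RD hC hD m).Y,
      (∀ m (h : H) (hh : aT H X h ∈ GT H RA RC RD),
        ρ m ⟨aT H X h, hh⟩ = (lvl (H := H) RA RC RD hC hD m).a h) ∧
      (∀ m (h : H) (hh : cT RA h ∈ GT H RA RC RD),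
        ρ m ⟨cT RA h, hh⟩ = (lvl (H := H) RA RC RD hC hD m).c h) ∧
      (∀ m (h : H) (hh : dT RA RC RD h ∈ GT H RA RC RD),
        ρ m ⟨dT RA RC RD h, hh⟩ = (lvl (H := H) RA RC RD hC hD m).d h) ∧
      (∀ g : GT H RA RC RD, g ≠ 1 → ∃ m₀, ∀ m, m₀ ≤ m → ρ m g ≠ 1) := by
  refine ⟨rest hC hD, ?_, ?_, ?_, ?_⟩
  · intro m h hh
    ext y
    apply toL_injective hC hD m
    rw [toL_rest, toL_a]
    rfl
  · intro m h hh
    ext y
    apply toL_injective hC hD m
    rw [toL_rest, toL_c]
    rfl
  · intro m h hh
    ext y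
    apply toL_injective hC hD m
    rw [toL_rest, toL_d]
    rfl
  · intro g hg
    have h1 : ∃ v, (g : Equiv.Perm (List X)) v ≠ v := by
      by_contra hcon
      push Not at hcon
      exact hg (Subtype.ext (Equiv.ext hcon))
    obtain ⟨v, hv⟩ := h1
    refine ⟨v.length, fun m hm h1 => ?_⟩
    have hne : v ≠ [] := by
      rintro rfl
      have := GT_length g []
      rw [List.length_nil, List.length_eq_zero_iff] at this
      exact hv this
    obtain ⟨x, v', rfl⟩ := List.exists_cons_of_ne_nil hne
    set v := x :: v' with hvdef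
    obtain ⟨y, hy⟩ := toL_surj (H := H) hC hD m (v ++ List.replicate (m - v.length) x) (by
      rw [List.length_append, List.length_replicate]; omega)
    obtain ⟨u', hu'⟩ := GT_append g v (List.replicate (m - v.length) x)
    have h2 := toL_rest hC hD m g y
    rw [h1, Equiv.Perm.one_apply, hy, hu'] at h2
    have h3 := List.append_inj h2 (GT_length g v).symm
    exact hv h3.1.symm

end

end Pool.Agent.Helper52.NA
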